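import Mathlib
import Pool.Agent.Helper19.PercFinal

namespace Pool.Agent.Helper70.Duo
end Pool.Agent.Helper70.Duo

/-!
# Threshold three: the sparse set of places
-/

set_option linter.unusedSectionVars false
set_option linter.unusedVariables false

namespace Pool.Agent.Helper70.Thr3

open Set SimpleGraph Pool.Agent.Helper19.Perco Pool.Agent.Helper70.Duo

variable {k a m N : ℕ}

/-- sums over coordinates -/
lemma sum_swap {f : Fin k → Fin N → ℕ} {y y' : Fin k → Fin N} {i : Fin k}
    (h : ∀ j, j ≠ i → y j = y' j) :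
    ∑ j, f j (y j) + f i (y' i) = ∑ j, f j (y' j) + f i (y i) := by
  rw [← Finset.add_sum_erase Finset.univ (fun j => f j (y j)) (Finset.mem_univ i),
    ← Finset.add_sum_erase Finset.univ (fun j => f j (y' j)) (Finset.mem_univ i)]
  have : ∑ j ∈ Finset.univ.erase i, f j (y j) = ∑ j ∈ Finset.univ.erase i, f j (y' j) := by
    apply Finset.sum_congr rfl
    intro j hj
    rw [h j (Finset.ne_of_mem_erase hj)]
  rw [this]
  ring

/-- weight -/
def wt (y : Fin k → Fin N) : ℕ := ∑ i, (i.val + 1) * (y i).val

/-- number of boundary coordinates -/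
def bd (y : Fin k → Fin N) : ℕ := ∑ i, if (y i).val = 0 ∨ (y i).val + 1 = N then 1 else 0

lemma wt_swap {y y' : Fin k → Fin N} {i : Fin k} (h : ∀ j, j ≠ i → y j = y' j) :
    wt y + (i.val + 1) * (y' i).val = wt y' + (i.val + 1) * (y i).val :=
  sum_swap (f := fun i v => (i.val + 1) * v.val) h

lemma bd_swap {y y' : Fin k → Fin N} {i : Fin k} (h : ∀ j, j ≠ i → y j = y' j) :
    bd y + (if (y' i).val = 0 ∨ (y' i).val + 1 = N then 1 else 0) =
      bd y' + (if (y i).val = 0 ∨ (y i).val + 1 = N then 1 else 0) :=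
  sum_swap (f := fun i v => if v.val = 0 ∨ v.val + 1 = N then 1 else 0) h

lemma wt_up {y y' : Fin k → Fin N} {i : Fin k} (h : ∀ j, j ≠ i → y j = y' j)
    (h1 : (y i).val + 1 = (y' i).val) : wt y' = wt y + (i.val + 1) := by
  have h2 := wt_swap h
  rw [← h1, Nat.mul_add, Nat.mul_one] at h2
  omega

/-- the sparse set -/
def DD (k N : ℕ) : Set (Fin k → Fin N) := {y | k + 1 ∣ wt y}

lemma DD_indep (y : Fin k → Fin N) (hy : y ∈ DD k N) (y' : Fin k → Fin N)
    (hadj : (Gd k N).Adj y y') : y' ∉ DD k N := by
  intro hy'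
  have h1 : k + 1 ∣ wt y := hy
  have h2 : k + 1 ∣ wt y' := hy'
  obtain ⟨i, h3 | h3, h4⟩ := hadj
  · have h5 := wt_up h4 h3
    rw [h5] at h2
    have h6 := Nat.le_of_dvd (by omega) ((Nat.dvd_add_right h1).1 h2)
    have := i.isLt
    omega
  · have h5 := wt_up (fun j hj => (h4 j hj).symm) h3
    rw [h5] at h1
    have h6 := Nat.le_of_dvd (by omega) ((Nat.dvd_add_right h2).1 h1)
    have := i.isLt
    omega

lemma dvd_unique {d x i j : ℕ} (h1 : d ∣ x + i) (h2 : d ∣ x + j) (hi : i < d) (hj : j < d) :
    i = j := by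
  have h3 : (x + i) ≡ (x + j) [MOD d] :=
    ((Nat.modEq_zero_iff_dvd.2 h1).trans (Nat.modEq_zero_iff_dvd.2 h2).symm)
  have h4 := Nat.ModEq.add_left_cancel' x h3
  rwa [Nat.ModEq, Nat.mod_eq_of_lt hi, Nat.mod_eq_of_lt hj] at h4

lemma up_unique {y u v : Fin k → Fin N} {i j : Fin k} (hu : u ∈ DD k N) (hv : v ∈ DD k N)
    (h1 : (y i).val + 1 = (u i).val) (h2 : ∀ l, l ≠ i → y l = u l)
    (h3 : (y j).val + 1 = (v j).val) (h4 : ∀ l, l ≠ j → y l = v l) : u = v := by
  have h5 := wt_up h2 h1
  have h6 := wt_up h4 h3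
  have hu' : k + 1 ∣ wt u := hu
  have hv' : k + 1 ∣ wt v := hv
  rw [h5] at hu'
  rw [h6] at hv'
  have h7 := dvd_unique hu' hv' (by have := i.isLt; omega) (by have := j.isLt; omega)
  have h8 : i = j := Fin.ext (by omega)
  subst h8
  funext l
  by_cases hl : l = i
  · subst hl; apply Fin.ext; omega
  · rw [← h2 l hl, ← h4 l hl]

lemma down_unique {y u v : Fin k → Fin N} {i j : Fin k} (hu : u ∈ DD k N) (hv : v ∈ DD k N)
    (h1 : (u i).val + 1 = (y i).val) (h2 : ∀ l, l ≠ i → y l = u l)
    (h3 : (v j).val + 1 = (y j).val) (h4 : ∀ l, l ≠ j → y l = v l) : u = v := by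
  have h5 := wt_up (fun l hl => (h2 l hl).symm) h1
  have h6 := wt_up (fun l hl => (h4 l hl).symm) h3
  have hu' : k + 1 ∣ wt u := hu
  have hv' : k + 1 ∣ wt v := hv
  have hi := i.isLt
  have hj := j.isLt
  have h7 : i.val = j.val := by
    rcases Nat.lt_trichotomy i.val j.val with h | h | h
    · exfalso
      have e : wt u = wt v + (j.val - i.val) := by omega
      rw [e] at hu'
      have := Nat.le_of_dvd (by omega) ((Nat.dvd_add_right hv').1 hu')
      omega
    · exact h
    · exfalso
      have e : wt v = wt u + (i.val - j.val) := by omega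
      rw [e] at hv'
      have := Nat.le_of_dvd (by omega) ((Nat.dvd_add_right hu').1 hv')
      omega
  have h8 : i = j := Fin.ext h7
  subst h8
  funext l
  by_cases hl : l = i
  · subst hl; apply Fin.ext; omega
  · rw [← h2 l hl, ← h4 l hl]

open Classical in
lemma DD_two (y : Fin k → Fin N) : cnt (Gd k N) (DD k N) y ≤ 2 := by
  -- the neighbour above and the neighbour below
  let up : Fin k → Fin N := if h : ∃ u, u ∈ DD k N ∧ ∃ i, (y i).val + 1 = (u i).val ∧
    ∀ l, l ≠ i → y l = u l then h.choose else y
  let dn : Fin k → Fin N := if h : ∃ u, u ∈ DD k N ∧ ∃ i, (u i).val + 1 = (y i).val ∧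
    ∀ l, l ≠ i → y l = u l then h.choose else y
  apply cnt_le_two_of _ _ _ up dn
  rintro u hu ⟨i, h1 | h1, h2⟩
  · left
    have hex : ∃ u, u ∈ DD k N ∧ ∃ i, (y i).val + 1 = (u i).val ∧ ∀ l, l ≠ i → y l = u l :=
      ⟨u, hu, i, h1, h2⟩
    have e : up = hex.choose := dif_pos hex
    obtain ⟨h3, j, h4, h5⟩ := hex.choose_spec
    rw [e]
    exact up_unique hu h3 h1 h2 h4 h5
  · right
    have hex : ∃ u, u ∈ DD k N ∧ ∃ i, (u i).val + 1 = (y i).val ∧ ∀ l, l ≠ i → y l = u l :=
      ⟨u, hu, i, h1, h2⟩
    have e : dn = hex.choose := dif_pos hex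
    obtain ⟨h3, j, h4, h5⟩ := hex.choose_spec
    rw [e]
    exact down_unique hu h3 h1 h2 h4 h5

/-- rank -/
def rkD (y : Fin k → Fin N) : ℕ := 2 * bd y + if k + 1 ∣ 2 * wt y then 1 else 0

/-- changing one coordinate -/
lemma upd_adj {y : Fin k → Fin N} {i : Fin k} {v : Fin N}
    (h : (y i).val + 1 = v.val ∨ v.val + 1 = (y i).val) :
    (Gd k N).Adj y (Function.update y i v) := by
  refine ⟨i, ?_, fun j hj => ?_⟩
  · rw [Function.update_self]; exact h
  · rw [Function.update_of_ne hj]

lemma upd_off {y : Fin k → Fin N} {i : Fin k} {v : Fin N} :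
    ∀ j, j ≠ i → y j = Function.update y i v j := fun j hj => by
  rw [Function.update_of_ne hj]

/-- the inward neighbour -/
lemma inward (hN : 4 ≤ N) (y : Fin k → Fin N) (i : Fin k)
    (hb : (y i).val = 0 ∨ (y i).val + 1 = N) :
    ∃ v : Fin N, (Gd k N).Adj y (Function.update y i v) ∧ rkD (Function.update y i v) < rkD y ∧
      y i ≠ v := by
  have hbd : ∀ v : Fin N, ¬ (v.val = 0 ∨ v.val + 1 = N) →
      rkD (Function.update y i v) < rkD y := by
    intro v hv
    have h1 := bd_swap (y := y) (y' := Function.update y i v) (i := i) upd_off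
    rw [Function.update_self, if_neg hv, if_pos hb] at h1
    unfold rkD
    split_ifs <;> omega
  rcases hb with hb | hb
  · refine ⟨⟨1, by omega⟩, upd_adj (Or.inl (by show _ = 1; omega)), hbd _ ?_, ?_⟩
    · show ¬ (1 = 0 ∨ 1 + 1 = N); omega
    · intro h
      have : (y i).val = 1 := congrArg Fin.val h
      omega
  · refine ⟨⟨N - 2, by omega⟩, upd_adj (Or.inr (by show N - 2 + 1 = _; omega)), hbd _ ?_, ?_⟩
    · show ¬ (N - 2 = 0 ∨ N - 2 + 1 = N); omega
    · intro h
      have : (y i).val = N - 2 := congrArg Fin.val h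
      omega

/-- the neighbour in the sparse set above -/
lemma upD (y : Fin k → Fin N) (i : Fin k) (hi : k + 1 ∣ wt y + (i.val + 1))
    (hb : (y i).val + 1 < N) :
    (Gd k N).Adj y (Function.update y i ⟨(y i).val + 1, hb⟩) ∧
      Function.update y i ⟨(y i).val + 1, hb⟩ ∈ DD k N := by
  refine ⟨upd_adj (Or.inl rfl), ?_⟩
  have h1 := wt_up (y := y) (y' := Function.update y i ⟨(y i).val + 1, hb⟩) (i := i) upd_off (by
    rw [Function.update_self])
  show k + 1 ∣ _
  rw [h1]; exact hi

lemma downD (y : Fin k → Fin N) (i : Fin k) (hi : ∃ x, k + 1 ∣ x ∧ wt y = x + (i.val + 1))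
    (hb : 0 < (y i).val) :
    (Gd k N).Adj y (Function.update y i ⟨(y i).val - 1, by have := (y i).isLt; omega⟩) ∧
      Function.update y i ⟨(y i).val - 1, by have := (y i).isLt; omega⟩ ∈ DD k N := by
  refine ⟨upd_adj (Or.inr (by show (y i).val - 1 + 1 = _; omega)), ?_⟩
  have h1 := wt_up (y := Function.update y i ⟨(y i).val - 1, by have := (y i).isLt; omega⟩)
    (y' := y) (i := i) (fun j hj => (upd_off j hj).symm) (by
    rw [Function.update_self]; show (y i).val - 1 + 1 = _; omega)
  obtain ⟨x, h2, h3⟩ := hi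
  show k + 1 ∣ _
  have : wt (Function.update y i ⟨(y i).val - 1, by have := (y i).isLt; omega⟩) = x := by omega
  rw [this]; exact h2

lemma upd_ne {y : Fin k → Fin N} {i j : Fin k} {v w : Fin N} (hij : i ≠ j) (h : y i ≠ v) :
    Function.update y i v ≠ Function.update y j w := by
  intro he
  have := congrFun he i
  rw [Function.update_self, Function.update_of_ne hij] at this
  exact h this.symm

lemma DD_rank (hN : 4 ≤ N) (hN1 : k = 1 → N % 2 = 1) (y : Fin k → Fin N) (hy : y ∉ DD k N) :
    2 ≤ cnt (Gd k N) {y' | y' ∈ DD k N ∨ rkD y' < rkD y} y := by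
  -- the two directions
  obtain ⟨c, hc⟩ : ∃ c, c = wt y % (k + 1) := ⟨_, rfl⟩
  have hc0 : c ≠ 0 := fun h => hy (Nat.dvd_of_mod_eq_zero (by omega))
  have hck : c < k + 1 := by rw [hc]; exact Nat.mod_lt _ (by omega)
  have hdm : ∃ x, k + 1 ∣ x ∧ wt y = x + c := by
    refine ⟨(k + 1) * (wt y / (k + 1)), dvd_mul_right _ _, ?_⟩
    rw [hc]; exact (Nat.div_add_mod _ _).symm
  obtain ⟨x, hx1, hx2⟩ := hdm
  let iM : Fin k := ⟨c - 1, by omega⟩
  let iP : Fin k := ⟨k - c, by omega⟩
  have hM : ∃ x, k + 1 ∣ x ∧ wt y = x + (iM.val + 1) := ⟨x, hx1, by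
    show wt y = x + (c - 1 + 1); omega⟩
  have hP : k + 1 ∣ wt y + (iP.val + 1) := by
    have e : wt y + (iP.val + 1) = x + (k + 1) := by
      show wt y + (k - c + 1) = x + (k + 1); omega
    rw [e]
    exact dvd_add hx1 dvd_rfl
  by_cases hb : ∃ i, (y i).val = 0 ∨ (y i).val + 1 = N
  · obtain ⟨j0, hj0⟩ := hb
    obtain ⟨v0, a1, a2, a3⟩ := inward hN y j0 hj0
    by_cases hb2 : ∃ j1, j1 ≠ j0 ∧ ((y j1).val = 0 ∨ (y j1).val + 1 = N)
    · obtain ⟨j1, hj1, hj2⟩ := hb2
      obtain ⟨v1, b1, b2, b3⟩ := inward hN y j1 hj2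
      exact two_le_cnt _ _ _ _ _ (upd_ne hj1.symm a3) a1 b1 (Or.inr a2) (Or.inr b2)
    · have hint : ∀ j, j ≠ j0 → 0 < (y j).val ∧ (y j).val + 1 < N := by
        intro j hj
        have h1 : ¬ ((y j).val = 0 ∨ (y j).val + 1 = N) := fun h => hb2 ⟨j, hj, h⟩
        have := (y j).isLt
        omega
      by_cases h1 : iP = j0
      · by_cases h2 : iM = j0
        · -- the special case
          have e1 : k - c = j0.val := congrArg Fin.val h1
          have e2 : c - 1 = j0.val := congrArg Fin.val h2
          have hk : k + 1 = 2 * c := by omega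
          have hk1 : k ≠ 1 := by
            intro hk1
            subst hk1
            have hN' := hN1 rfl
            have hc1 : c = 1 := by omega
            have hw : wt y = (y 0).val := by
              unfold wt
              rw [Fin.sum_univ_one]
              show (0 + 1) * (y 0).val = (y 0).val
              omega
            have h0 : j0 = 0 := Subsingleton.elim _ _
            rw [h0] at hj0
            omega
          -- another direction
          obtain ⟨j, hj⟩ : ∃ j : Fin k, j ≠ j0 := by
            by_cases h3 : j0.val = 0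
            · exact ⟨⟨1, by omega⟩, fun h => by
                have : 1 = j0.val := congrArg Fin.val h
                omega⟩
            · exact ⟨⟨0, by omega⟩, fun h => by
                have : 0 = j0.val := congrArg Fin.val h
                omega⟩
          have hji := hint j hj
          have hjv : j.val ≠ j0.val := fun h => hj (Fin.ext h)
          have hjk := j.isLt
          have hdy : k + 1 ∣ 2 * wt y := by
            have e : 2 * wt y = 2 * x + (k + 1) := by omega
            rw [e]
            exact dvd_add (Dvd.dvd.mul_left hx1 2) dvd_rfl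
          have hnd : ¬ k + 1 ∣ 2 * (j.val + 1) := by
            rintro ⟨t, ht⟩
            rcases Nat.lt_or_ge t 2 with h3 | h3
            · interval_cases t
              · omega
              · omega
            · have : (k + 1) * 2 ≤ (k + 1) * t := Nat.mul_le_mul_left _ h3
              omega
          have key : ∃ v : Fin N, (Gd k N).Adj y (Function.update y j v) ∧
              rkD (Function.update y j v) < rkD y := by
            rcases Nat.lt_or_ge ((y j).val + 2) N with h3 | h3
            · refine ⟨⟨(y j).val + 1, by omega⟩, upd_adj (Or.inl rfl), ?_⟩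
              have b1 := bd_swap (y := y) (y' := Function.update y j ⟨(y j).val + 1, by omega⟩)
                (i := j) upd_off
              rw [Function.update_self, if_neg (by show ¬ ((y j).val + 1 = 0 ∨ (y j).val + 1 + 1 = N); omega),
                if_neg (by omega)] at b1
              have b2 := wt_up (y := y) (y' := Function.update y j ⟨(y j).val + 1, by omega⟩)
                (i := j) upd_off (by rw [Function.update_self])
              unfold rkD
              rw [if_pos hdy, if_neg ?_]
              · omega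
              · rw [b2, Nat.mul_add]
                exact fun h => hnd ((Nat.dvd_add_right hdy).1 h)
            · refine ⟨⟨(y j).val - 1, by omega⟩, upd_adj (Or.inr (by
                show (y j).val - 1 + 1 = _; omega)), ?_⟩
              have b1 := bd_swap (y := y) (y' := Function.update y j ⟨(y j).val - 1, by omega⟩)
                (i := j) upd_off
              rw [Function.update_self, if_neg (by show ¬ ((y j).val - 1 = 0 ∨ (y j).val - 1 + 1 = N); omega),
                if_neg (by omega)] at b1
              have b2 := wt_up (y := Function.update y j ⟨(y j).val - 1, by omega⟩) (y' := y)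
                (i := j) (fun l hl => (upd_off l hl).symm) (by
                rw [Function.update_self]; show (y j).val - 1 + 1 = _; omega)
              unfold rkD
              rw [if_pos hdy, if_neg ?_]
              · omega
              · intro h
                apply hnd
                have e : 2 * wt y =
                    2 * wt (Function.update y j ⟨(y j).val - 1, by omega⟩) + 2 * (j.val + 1) := by
                  rw [b2]; ring
                rw [e] at hdy
                exact (Nat.dvd_add_right h).1 hdy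
          obtain ⟨v, k1, k2⟩ := key
          exact two_le_cnt _ _ _ _ _ (upd_ne hj.symm a3) a1 k1 (Or.inr a2) (Or.inr k2)
        · obtain ⟨k1, k2⟩ := downD y iM hM (hint iM h2).1
          exact two_le_cnt _ _ _ _ _ (upd_ne (Ne.symm h2) a3) a1 k1 (Or.inr a2) (Or.inl k2)
      · obtain ⟨k1, k2⟩ := upD y iP hP (hint iP h1).2
        exact two_le_cnt _ _ _ _ _ (upd_ne (Ne.symm h1) a3) a1 k1 (Or.inr a2) (Or.inl k2)
  · have hint : ∀ j, 0 < (y j).val ∧ (y j).val + 1 < N := by
      intro j
      have h1 : ¬ ((y j).val = 0 ∨ (y j).val + 1 = N) := fun h => hb ⟨j, h⟩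
      have := (y j).isLt
      omega
    obtain ⟨k1, k2⟩ := upD y iP hP (hint iP).2
    obtain ⟨k3, k4⟩ := downD y iM hM (hint iM).1
    refine two_le_cnt _ _ _ _ _ ?_ k1 k3 (Or.inl k2) (Or.inl k4)
    intro he
    have w1 := wt_up (y := y) (y' := Function.update y iP ⟨(y iP).val + 1, (hint iP).2⟩) (i := iP)
      upd_off (by rw [Function.update_self])
    have w2 := wt_up (y := Function.update y iM ⟨(y iM).val - 1, by have := (y iM).isLt; omega⟩)
      (y' := y) (i := iM) (fun l hl => (upd_off l hl).symm) (by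
      rw [Function.update_self]; have := (hint iM).1; show (y iM).val - 1 + 1 = _; omega)
    rw [he] at w1
    omega

end Pool.Agent.Helper70.Thr3
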