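import Mathlib
import Pool.Agent.Helper19.PercBasic

namespace Pool.Agent.Helper70.Duo
end Pool.Agent.Helper70.Duo

/-!
# Threshold three: the design
-/

set_option linter.unusedSectionVars false
set_option linter.unusedVariables false

namespace Pool.Agent.Helper70.Thr3

open Set SimpleGraph Pool.Agent.Helper19.Perco Pool.Agent.Helper70.Duo

/-- the data in the remaining coordinates -/
structure YD {Y : Type} (GY : SimpleGraph Y) where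
  F : ℕ
  hF : 1 ≤ F
  line : ℕ → Y
  D : Set Y
  P : ℕ → Set Y
  col : ℕ → ℕ
  C : ℕ
  rk : Y → ℕ
  inj : ∀ i ≤ F, ∀ j ≤ F, line i = line j → i = j
  lineD : ∀ i ≤ F, line i ∈ D
  indep : ∀ y ∈ D, ∀ y', GY.Adj y y' → y' ∉ D
  two : ∀ y, cnt GY D y ≤ 2
  rank : ∀ y, y ∉ D → 2 ≤ cnt GY {y' | y' ∈ D ∨ rk y' < rk y} y
  colC : ∀ j ≤ F, col j < C
  P0 : ∀ j ≤ F, line j ∈ P j
  P1 : ∀ j < F, line (j + 1) ∈ P j
  geo : ∀ j ≤ F, ∀ u, cnt GY (P j) u ≤ 2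
  far : ∀ i ≤ F, ∀ j ≤ F, i ≠ j → col i = col j → ∀ u ∈ P i, ∀ v ∈ P j,
    u ≠ v ∧ ¬ GY.Adj u v ∧ ∀ x, ¬ (GY.Adj x u ∧ GY.Adj x v)
  ends : ∀ j < F, ∀ u, ¬ (GY.Adj u (line j) ∧ GY.Adj u (line (j + 1)))
  walk : ∀ j < F, ∀ S : Set Y, line j ∈ S → (∀ y ∈ S, ∀ y' ∈ P j, GY.Adj y y' → y' ∈ S) →
    line (j + 1) ∈ S
  conn : ∀ S : Set Y, line F ∈ S → (∀ y ∈ S, ∀ y', GY.Adj y y' → y' ∈ S) → ∀ y, y ∈ S

namespace YD

variable {Y : Type} {GY : SimpleGraph Y} (X : YD GY)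

/-- position of the column of a link -/
def pt (j : ℕ) : ℕ := 4 * X.col j + 7

/-- position of the final sheet -/
def tf : ℕ := 4 * X.C + 7

/-- `y` is an end of the link `j` on the side `s` -/
def port (s : ℕ) (y : Y) (j : ℕ) : Prop :=
  j ≤ X.F ∧ j % 2 = s ∧ (y = X.line j ∨ (j < X.F ∧ y = X.line (j + 1)))

/-- the link `j` on the side `s` passes over `y` -/
def arc (s : ℕ) (y : Y) (j : ℕ) : Prop := j ≤ X.F ∧ j % 2 = s ∧ y ∈ X.P j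

/-- the seeds of a column -/
def PS (h α t : ℕ) : Prop :=
  (h = 2 ∧ (α = 0 ∨ α = t + 1)) ∨ (h = 3 ∧ ((1 ≤ α ∧ α + 1 ≤ t) ∨ α = t + 1)) ∨
    (4 ≤ h ∧ (α + 1 = t ∨ α = t + 1))

/-- the seeds beyond the walls -/
def seedH (s h α β : ℕ) (y : Y) : Prop :=
  (h ≤ 1 ∧ y ∈ X.D ∧ ¬ (β = 0 ∧ α ≤ 1 ∧ ∃ j, X.port s y j)) ∨
  (2 ≤ h ∧ 3 ≤ β ∧ y ∈ X.D) ∨
  (β = 0 ∧ ∃ j, X.port s y j ∧ PS h α (X.pt j)) ∨
  (β = 0 ∧ h = 5 ∧ ∃ j, X.arc s y j ∧ (α + 1 = X.pt j ∨ α = X.pt j + 1)) ∨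
  (s = 0 ∧ β = 0 ∧ ((h = 3 ∧ α + 1 = X.tf) ∨ (h = 4 ∧ α = X.tf) ∨
    (h = 2 ∧ α = X.tf + 1 ∧ y ∈ X.D))) ∨
  (β = 1 ∧ α = 2 ∧ 3 ≤ h ∧ y = X.line X.F)

/-- the vertices of the link `j` -/
def linkH (s h α β : ℕ) (y : Y) (j : ℕ) : Prop :=
  β = 0 ∧ ((X.port s y j ∧ ((h ≤ 1 ∧ α ≤ 1) ∨ (h = 2 ∧ 1 ≤ α ∧ α ≤ X.pt j) ∨
    (3 ≤ h ∧ h ≤ 4 ∧ α = X.pt j))) ∨ (h = 5 ∧ α = X.pt j ∧ X.arc s y j))

/-- the vertices beyond the walls counted at time `t` -/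
def memH (dur t s h α β : ℕ) (y : Y) : Prop :=
  X.seedH s h α β y ∨ ∃ j, X.linkH s h α β y j ∧ (j + 1) * dur ≤ t

variable {X}

lemma port_arc {s : ℕ} {y : Y} {j : ℕ} (h : X.port s y j) : X.arc s y j := by
  obtain ⟨h1, h2, h3 | ⟨h3, h4⟩⟩ := h
  · exact ⟨h1, h2, by rw [h3]; exact X.P0 j h1⟩
  · exact ⟨h1, h2, by rw [h4]; exact X.P1 j h3⟩

lemma port_D {s : ℕ} {y : Y} {j : ℕ} (h : X.port s y j) : y ∈ X.D := by
  obtain ⟨h1, h2, h3 | ⟨h3, h4⟩⟩ := h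
  · rw [h3]; exact X.lineD j h1
  · rw [h4]; exact X.lineD _ h3

lemma port_unique {s : ℕ} {y : Y} {i j : ℕ} (h : X.port s y i) (h' : X.port s y j) : i = j := by
  obtain ⟨h1, h2, h3⟩ := h
  obtain ⟨h4, h5, h6⟩ := h'
  rcases h3 with h3 | ⟨h3, h7⟩ <;> rcases h6 with h6 | ⟨h6, h8⟩
  · exact X.inj i h1 j h4 (h3.symm.trans h6)
  · have := X.inj i h1 (j + 1) h6 (h3.symm.trans h8)
    omega
  · have := X.inj (i + 1) h3 j h4 (h7.symm.trans h6)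
    omega
  · have := X.inj (i + 1) h3 (j + 1) h6 (h7.symm.trans h8)
    omega

lemma pt_tf {s : ℕ} {y : Y} {j : ℕ} (h : X.arc s y j) : X.pt j + 4 ≤ X.tf := by
  have := X.colC j h.1
  unfold pt tf; omega

lemma pt_mod (j : ℕ) : X.pt j % 4 = 3 := by unfold pt; omega
lemma pt_ge (j : ℕ) : 7 ≤ X.pt j := by unfold pt; omega
lemma tf_mod : X.tf % 4 = 3 := by unfold tf; omega
lemma pt_col {i j : ℕ} (h : X.pt i = X.pt j) : X.col i = X.col j := by unfold pt at h; omega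

/-- two arcs in the same zone over the same or adjacent places -/
lemma arc_eq {s : ℕ} {y : Y} {i j : ℕ} (h : X.arc s y i) (h' : X.arc s y j)
    (hp : X.pt i = X.pt j) : i = j := by
  by_contra hne
  exact (X.far i h.1 j h'.1 hne (pt_col hp) y h.2.2 y h'.2.2).1 rfl

lemma arc_adj {s : ℕ} {y y' : Y} {i j : ℕ} (h : X.arc s y i) (h' : X.arc s y' j)
    (hadj : GY.Adj y y') (hp : X.pt i = X.pt j) : i = j := by
  by_contra hne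
  exact (X.far i h.1 j h'.1 hne (pt_col hp) y h.2.2 y' h'.2.2).2.1 hadj

lemma arc_two {s : ℕ} {x y y' : Y} {i j : ℕ} (h : X.arc s y i) (h' : X.arc s y' j)
    (h1 : GY.Adj x y) (h2 : GY.Adj x y') (hp : X.pt i = X.pt j) : i = j := by
  by_contra hne
  exact (X.far i h.1 j h'.1 hne (pt_col hp) y h.2.2 y' h'.2.2).2.2 x ⟨h1, h2⟩

end YD

end Pool.Agent.Helper70.Thr3
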