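import Mathlib
import Pool.Agent.Helper70.Thr3.Def
import Pool.Agent.Helper70.PercDuoBase2

/-!
# Threshold three: the barrier beyond the walls
-/

set_option linter.unusedSectionVars false
set_option linter.unusedVariables false

namespace Pool.Agent.Helper70.Thr3

open Set SimpleGraph Pool.Agent.Helper19.Perco Pool.Agent.Helper70.Duo

namespace YD

variable {Y : Type} {GY : SimpleGraph Y} {X : YD GY} {dur t s h α β : ℕ} {y : Y}

lemma F_D : X.line X.F ∈ X.D := X.lineD _ le_rfl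

lemma memH_L (hy : y ∉ X.D) (hm : X.memH dur t s h α β y) : β = 0 ∧
    ((h = 3 ∧ s = 0 ∧ α + 1 = X.tf) ∨ (h = 4 ∧ s = 0 ∧ α = X.tf) ∨
      (h = 5 ∧ ∃ j, X.arc s y j ∧ X.pt j ≤ α + 1 ∧ α ≤ X.pt j + 1)) := by
  rcases hm with (h1 | h1 | ⟨h0, j, h1, h2⟩ | ⟨h0, h5, j, h1, h2⟩ | ⟨h0, h1, h2⟩ | h1) | ⟨j, ⟨h0, h1⟩, h2⟩
  · exact absurd h1.2.1 hy
  · exact absurd h1.2.2 hy
  · exact absurd (port_D h1) hy
  · exact ⟨h0, Or.inr (Or.inr ⟨h5, j, h1, by omega, by omega⟩)⟩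
  · refine ⟨h1, ?_⟩
    rcases h2 with h2 | h2 | h2
    · exact Or.inl ⟨h2.1, h0, h2.2⟩
    · exact Or.inr (Or.inl ⟨h2.1, h0, h2.2⟩)
    · exact absurd h2.2.2 hy
  · exact absurd (by rw [h1.2.2.2]; exact F_D) hy
  · rcases h1 with h1 | h1
    · exact absurd (port_D h1.1) hy
    · exact ⟨h0, Or.inr (Or.inr ⟨h1.1, j, h1.2.2, by omega, by omega⟩)⟩

lemma memH_b1 (hm : X.memH dur t s h α 1 y) :
    (h ≤ 1 ∧ y ∈ X.D) ∨ (α = 2 ∧ 3 ≤ h ∧ y = X.line X.F) := by
  rcases hm with (h1 | h1 | h1 | h1 | h1 | h1) | ⟨j, h1, h2⟩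
  · exact Or.inl ⟨h1.1, h1.2.1⟩
  · omega
  · exact absurd h1.1 (by omega)
  · exact absurd h1.1 (by omega)
  · exact absurd h1.2.1 (by omega)
  · exact Or.inr ⟨h1.2.1, h1.2.2.1, h1.2.2.2⟩
  · exact absurd h1.1 (by omega)

lemma memH_b2 (hβ : 2 ≤ β) (hm : X.memH dur t s h α β y) :
    y ∈ X.D ∧ (h ≤ 1 ∨ 3 ≤ β) := by
  rcases hm with (h1 | h1 | h1 | h1 | h1 | h1) | ⟨j, h1, h2⟩
  · exact ⟨h1.2.1, Or.inl h1.1⟩
  · exact ⟨h1.2.2, Or.inr h1.2.1⟩
  · exact absurd h1.1 (by omega)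
  · exact absurd h1.1 (by omega)
  · exact absurd h1.2.1 (by omega)
  · omega
  · exact absurd h1.1 (by omega)

/-- every counted place beyond the walls, except the arcs and the sheet, is in `D` -/
lemma memH_D (hm : X.memH dur t s h α β y) (h5 : h ≠ 5) (h3 : ¬ (s = 0 ∧ β = 0 ∧ h = 3 ∧ α + 1 = X.tf))
    (h4 : ¬ (s = 0 ∧ β = 0 ∧ h = 4 ∧ α = X.tf)) : y ∈ X.D := by
  by_contra hy
  obtain ⟨h6, h7⟩ := memH_L hy hm
  rcases h7 with h7 | h7 | h7
  · exact h3 ⟨h7.2.1, h6, h7.1, h7.2.2⟩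
  · exact h4 ⟨h7.2.1, h6, h7.1, h7.2.2⟩
  · exact h5 h7.1

/-- the sum of all indicators -/
noncomputable def HC (X : YD GY) (dur t s h α β : ℕ) (y : Y) : ℕ :=
  iv (0 < α ∧ X.memH dur t s h (α - 1) β y) + iv (X.memH dur t s h (α + 1) β y) +
  (iv (0 < β ∧ X.memH dur t s h α (β - 1) y) + iv (X.memH dur t s h α (β + 1) y)) +
  (iv (X.memH dur t s (h - 1) α β y) + iv (h < 5 ∧ X.memH dur t s (h + 1) α β y)) +
  cnt GY {y' | X.memH dur t s h α β y'} y

variable [Finite Y]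

/-- neighbours of a place of `D` -/
lemma cY_D (hy : y ∈ X.D) (h5 : h ≠ 5) (hv : ¬ X.memH dur (t + 1) s h α β y) :
    cnt GY {y' | X.memH dur t s h α β y'} y = 0 := by
  apply cnt_eq_zero
  intro u hu hadj
  have hu' : u ∉ X.D := X.indep y hy u hadj
  apply hv
  left
  obtain ⟨h6, h7⟩ := memH_L hu' hu
  rcases h7 with h7 | h7 | h7
  · exact Or.inr (Or.inr (Or.inr (Or.inr (Or.inl ⟨h7.2.1, h6, Or.inl ⟨h7.1, h7.2.2⟩⟩))))
  · exact Or.inr (Or.inr (Or.inr (Or.inr (Or.inl ⟨h7.2.1, h6, Or.inr (Or.inl ⟨h7.1, h7.2.2⟩)⟩))))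
  · exact absurd h7.1 h5

lemma cY_sub (h5 : h ≠ 5) (hv : ¬ X.memH dur (t + 1) s h α β y) :
    cnt GY {y' | X.memH dur t s h α β y'} y ≤ 2 := by
  by_cases hy : y ∈ X.D
  · rw [cY_D hy h5 hv]; omega
  refine le_trans (cnt_mono_pt GY y ?_) (X.two y)
  intro u hadj hu
  by_contra hu'
  apply hv
  left
  obtain ⟨h6, h7⟩ := memH_L hu' hu
  rcases h7 with h7 | h7 | h7
  · exact Or.inr (Or.inr (Or.inr (Or.inr (Or.inl ⟨h7.2.1, h6, Or.inl ⟨h7.1, h7.2.2⟩⟩))))
  · exact Or.inr (Or.inr (Or.inr (Or.inr (Or.inl ⟨h7.2.1, h6, Or.inr (Or.inl ⟨h7.1, h7.2.2⟩)⟩))))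
  · exact absurd h7.1 h5

/-- level one -/
lemma hc_one (hv : ¬ X.memH dur (t + 1) s 1 α β y) : X.HC dur t s 1 α β y ≤ 2 := by
  unfold HC
  by_cases hy : y ∈ X.D
  · rw [cY_D hy (by omega) hv]
    have hns : ¬ X.seedH s 1 α β y := fun h => hv (Or.inl h)
    have hport : β = 0 ∧ α ≤ 1 ∧ ∃ j, X.port s y j := by
      by_contra h
      exact hns (Or.inl ⟨by omega, hy, h⟩)
    obtain ⟨rfl, hα, j, hj⟩ := hport
    have hlate : ¬ (j + 1) * dur ≤ t + 1 := by
      intro h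
      exact hv (Or.inr ⟨j, ⟨rfl, Or.inl ⟨hj, Or.inl ⟨by omega, hα⟩⟩⟩, h⟩)
    have hpt := X.pt_ge j
    -- the other open vertices are not counted
    have key : ∀ h' α', h' ≤ 1 → α' ≤ 1 → ¬ X.memH dur t s h' α' 0 y := by
      intro h' α' h1 h2
      rintro ((h3 | h3 | ⟨_, i, h3, h4⟩ | h3 | h3 | h3) | ⟨i, h3, h4⟩)
      · exact h3.2.2 ⟨rfl, h2, j, hj⟩
      · omega
      · unfold PS at h4; omega
      · omega
      · omega
      · omega
      · rcases h3.2 with h5 | h5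
        · have := port_unique h5.1 hj
          subst this
          omega
        · omega
    have key2 : 1 ≤ α → ¬ X.memH dur t s 2 α 0 y := by
      intro h1
      rintro ((h3 | h3 | ⟨_, i, h3, h4⟩ | h3 | h3 | h3) | ⟨i, h3, h4⟩)
      · omega
      · omega
      · have := port_unique h3 hj
        subst this
        unfold PS at h4; omega
      · omega
      · have := pt_tf (port_arc hj)
        omega
      · omega
      · rcases h3.2 with h5 | h5
        · have := port_unique h5.1 hj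
          subst this
          omega
        · omega
    rw [iv_zero (p := 0 < α ∧ X.memH dur t s 1 (α - 1) 0 y)
        (fun h => key 1 (α - 1) le_rfl (by omega) h.2),
      iv_zero (p := 0 < 0 ∧ X.memH dur t s 1 α (0 - 1) y) (by omega),
      iv_zero (p := X.memH dur t s (1 - 1) α 0 y) (key (1 - 1) α (by omega) hα)]
    have i1 := iv_le (X.memH dur t s 1 (α + 1) 0 y)
    have i2 := iv_le (X.memH dur t s 1 α (0 + 1) y)
    have i3 := iv_le (1 < 5 ∧ X.memH dur t s (1 + 1) α 0 y)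
    rcases Nat.eq_zero_or_pos α with h0 | h0
    · subst h0
      rw [iv_zero (p := X.memH dur t s 1 (0 + 1) 0 y) (key 1 1 le_rfl le_rfl)]
      omega
    · rw [iv_zero (p := 1 < 5 ∧ X.memH dur t s (1 + 1) α 0 y) (fun h => key2 h0 h.2)]
      omega
  · have hin : ∀ h' α' β', h' ≤ 2 → ¬ X.memH dur t s h' α' β' y := by
      intro h' α' β' h1 h2
      have := (memH_L hy h2).2
      omega
    rw [iv_zero (p := 0 < α ∧ X.memH dur t s 1 (α - 1) β y) (fun h => hin _ _ _ (by omega) h.2),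
      iv_zero (p := X.memH dur t s 1 (α + 1) β y) (hin _ _ _ (by omega)),
      iv_zero (p := 0 < β ∧ X.memH dur t s 1 α (β - 1) y) (fun h => hin _ _ _ (by omega) h.2),
      iv_zero (p := X.memH dur t s 1 α (β + 1) y) (hin _ _ _ (by omega)),
      iv_zero (p := X.memH dur t s (1 - 1) α β y) (hin _ _ _ (by omega)),
      iv_zero (p := 1 < 5 ∧ X.memH dur t s (1 + 1) α β y) (fun h => hin _ _ _ (by omega) h.2)]
    have := cY_sub (by omega) hv
    omega

/-- far from the edge -/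
lemma hc_b3 (h2 : 2 ≤ h) (hβ : 3 ≤ β) (h5 : h ≤ 5) (hv : ¬ X.memH dur (t + 1) s h α β y) :
    X.HC dur t s h α β y ≤ 2 := by
  have hy : y ∉ X.D := fun hy => hv (Or.inl (Or.inr (Or.inl ⟨h2, hβ, hy⟩)))
  unfold HC
  have hin : ∀ h' α' β', 1 ≤ β' → ¬ X.memH dur t s h' α' β' y := by
    intro h' α' β' h1 h2
    have := (memH_L hy h2).1
    omega
  rw [iv_zero (p := 0 < α ∧ X.memH dur t s h (α - 1) β y) (fun h => hin _ _ _ (by omega) h.2),
    iv_zero (p := X.memH dur t s h (α + 1) β y) (hin _ _ _ (by omega)),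
    iv_zero (p := 0 < β ∧ X.memH dur t s h α (β - 1) y) (fun h => hin _ _ _ (by omega) h.2),
    iv_zero (p := X.memH dur t s h α (β + 1) y) (hin _ _ _ (by omega)),
    iv_zero (p := X.memH dur t s (h - 1) α β y) (hin _ _ _ (by omega)),
    iv_zero (p := h < 5 ∧ X.memH dur t s (h + 1) α β y) (fun h => hin _ _ _ (by omega) h.2)]
  have : cnt GY {y' | X.memH dur t s h α β y'} y ≤ cnt GY X.D y :=
    cnt_mono GY (fun u hu => (memH_b2 (by omega) hu).1) y
  have := X.two y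
  omega

lemma hc_b2 (h2 : 2 ≤ h) (h5 : h ≤ 5) (hv : ¬ X.memH dur (t + 1) s h α 2 y) :
    X.HC dur t s h α 2 y ≤ 2 := by
  unfold HC
  have hin : ∀ h' α', 2 ≤ h' → ¬ X.memH dur t s h' α' 2 y := by
    intro h' α' h1 h3
    have := (memH_b2 le_rfl h3).2
    omega
  have hY : cnt GY {y' | X.memH dur t s h α 2 y'} y = 0 := by
    apply cnt_eq_zero
    intro u hu _
    have := (memH_b2 le_rfl hu).2
    omega
  rw [hY, iv_zero (p := 0 < α ∧ X.memH dur t s h (α - 1) 2 y) (fun h => hin _ _ h2 h.2),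
    iv_zero (p := X.memH dur t s h (α + 1) 2 y) (hin _ _ h2),
    iv_zero (p := h < 5 ∧ X.memH dur t s (h + 1) α 2 y) (fun h => hin _ _ (by omega) h.2)]
  have i1 : iv (0 < 2 ∧ X.memH dur t s h α (2 - 1) y) ≤ iv (3 ≤ h) := iv_mono (by
    rintro ⟨_, h3⟩
    have := memH_b1 h3
    rcases this with h4 | h4
    · omega
    · exact h4.2.1)
  have i2 := iv_le (X.memH dur t s h α (2 + 1) y)
  have i3 : iv (X.memH dur t s (h - 1) α 2 y) ≤ iv (h ≤ 2) := iv_mono (by
    intro h3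
    have := (memH_b2 le_rfl h3).2
    omega)
  simp only [iv_eq] at *
  split_ifs at * <;> omega

/-- the extra seeds are in the last place only; there nothing is counted in its run -/
lemma star_two (hd : 1 ≤ dur) (ht : t + 1 < X.F * dur) : ¬ X.memH dur t s 2 2 0 (X.line X.F) := by
  rintro ((h3 | h3 | ⟨_, i, h3, h4⟩ | h3 | h3 | h3) | ⟨i, h3, h4⟩)
  · omega
  · omega
  · have := X.pt_ge i
    unfold PS at h4; omega
  · omega
  · have : 7 ≤ X.tf := by unfold tf; omega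
    omega
  · omega
  · rcases h3.2 with ⟨h5, _⟩ | h5
    · obtain ⟨h6, h7, h8 | ⟨h8, h9⟩⟩ := h5
      · have := X.inj _ le_rfl i h6 h8
        subst this
        have : X.F * dur ≤ (X.F + 1) * dur := Nat.mul_le_mul_right _ (by omega)
        omega
      · have := X.inj _ le_rfl (i + 1) h8 h9
        rw [← this] at h4
        omega
    · omega

lemma hc_b1 (hd : 1 ≤ dur) (ht : t + 1 < X.F * dur) (h2 : 2 ≤ h) (h5 : h ≤ 5)
    (hv : ¬ X.memH dur (t + 1) s h α 1 y) :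
    X.HC dur t s h α 1 y ≤ 2 := by
  have hns : ¬ X.seedH s h α 1 y := fun h => hv (Or.inl h)
  have hx : ¬ (α = 2 ∧ 3 ≤ h ∧ y = X.line X.F) := fun hh =>
    hns (Or.inr (Or.inr (Or.inr (Or.inr (Or.inr ⟨rfl, hh.1, hh.2.1, hh.2.2⟩)))))
  unfold HC
  rw [iv_zero (p := X.memH dur t s h α (1 + 1) y) (by
    intro h3
    have := (memH_b2 le_rfl h3).2
    omega)]
  have i0 := iv_le (0 < 1 ∧ X.memH dur t s h α (1 - 1) y)
  have hY : cnt GY {y' | X.memH dur t s h α 1 y'} y ≤ iv (y ∉ X.D) := by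
    by_cases hy : y ∈ X.D
    · rw [iv_zero (fun h => h hy), Nat.le_zero]
      apply cnt_eq_zero
      intro u hu hadj
      rcases memH_b1 hu with h3 | h3
      · omega
      · exact X.indep y hy u hadj (by rw [h3.2.2]; exact F_D)
    · rw [iv_one hy]
      apply cnt_le_one
      intro u hu v hv' _ _
      rcases memH_b1 hu with h3 | h3
      · omega
      rcases memH_b1 hv' with h4 | h4
      · omega
      rw [h3.2.2, h4.2.2]
  by_cases hF : y = X.line X.F
  · have hyD : y ∈ X.D := by rw [hF]; exact F_D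
    rw [iv_zero (p := y ∉ X.D) (fun h => h hyD)] at hY
    have i1 : iv (0 < α ∧ X.memH dur t s h (α - 1) 1 y) ≤ iv (α = 3 ∧ 3 ≤ h) := iv_mono (by
      rintro ⟨_, h3⟩
      rcases memH_b1 h3 with h4 | h4
      · omega
      · omega)
    have i2 : iv (X.memH dur t s h (α + 1) 1 y) ≤ iv (α = 1 ∧ 3 ≤ h) := iv_mono (by
      intro h3
      rcases memH_b1 h3 with h4 | h4
      · omega
      · omega)
    have i3 : iv (X.memH dur t s (h - 1) α 1 y) ≤ iv (h ≤ 2) := iv_mono (by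
      intro h3
      rcases memH_b1 h3 with h4 | h4
      · omega
      · exact absurd ⟨h4.1, by omega, h4.2.2⟩ hx)
    have i4 : iv (h < 5 ∧ X.memH dur t s (h + 1) α 1 y) ≤ iv (α = 2 ∧ h = 2) := iv_mono (by
      rintro ⟨_, h3⟩
      rcases memH_b1 h3 with h4 | h4
      · omega
      · refine ⟨h4.1, ?_⟩
        by_contra h6
        exact hx ⟨h4.1, by omega, h4.2.2⟩)
    by_cases hc : α = 2 ∧ h = 2
    · obtain ⟨rfl, rfl⟩ := hc
      rw [iv_zero (p := 0 < 1 ∧ X.memH dur t s 2 2 (1 - 1) y) (fun h3 => by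
        have := h3.2
        rw [hF] at this
        exact star_two hd ht this)]
      simp only [iv_eq] at *
      split_ifs at * <;> omega
    · simp only [iv_eq] at *
      split_ifs at * <;> omega
  · rw [iv_zero (p := 0 < α ∧ X.memH dur t s h (α - 1) 1 y) (by
        rintro ⟨_, h3⟩
        rcases memH_b1 h3 with h4 | h4
        · omega
        · exact hF h4.2.2),
      iv_zero (p := X.memH dur t s h (α + 1) 1 y) (by
        intro h3
        rcases memH_b1 h3 with h4 | h4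
        · omega
        · exact hF h4.2.2),
      iv_zero (p := h < 5 ∧ X.memH dur t s (h + 1) α 1 y) (by
        rintro ⟨_, h3⟩
        rcases memH_b1 h3 with h4 | h4
        · omega
        · exact hF h4.2.2)]
    have i3 : iv (X.memH dur t s (h - 1) α 1 y) ≤ iv (y ∈ X.D) := iv_mono (by
      intro h3
      rcases memH_b1 h3 with h4 | h4
      · exact h4.2
      · exact absurd h4.2.2 hF)
    by_cases hy : y ∈ X.D
    · rw [iv_zero (p := y ∉ X.D) (fun h => h hy)] at hY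
      rw [iv_one hy] at i3
      omega
    · rw [iv_one (p := y ∉ X.D) hy] at hY
      rw [iv_zero hy] at i3
      omega

end YD

end Pool.Agent.Helper70.Thr3
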