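import Mathlib
import Pool.Agent.Helper70.PercDuoBase2
import Pool.Agent.Helper70.PercStep2

/-!
# Stacks of alternating slices between two opened walls
-/

set_option linter.unusedSectionVars false
set_option linter.unusedVariables false

namespace Pool.Agent.Helper70.Thr3

open Set SimpleGraph Pool.Agent.Helper19.Perco Pool.Agent.Helper70.Duo

variable {V : Type*}

/-- early vertices of the slices `1 ≤ z ≤ K - 1` -/
def CO (K : ℕ) (P Q : Ty V) (z : ℕ) : Set V :=
  if z = 1 ∨ z + 1 = K then P.C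
  else (R P Q z).A ∪ ((R P Q z).C ∩ (R P Q (z + 1)).C)

open Classical in
/-- times of the slices `1 ≤ z ≤ K - 1` -/
noncomputable def sO (T K : ℕ) (P Q : Ty V) (z : ℕ) (v : V) : ℕ :=
  if v ∈ CO K P Q z then 0
  else if K < z + 3 then (K - 4) * T + 1
  else if v ∈ (R P Q z).C then (z - 2) * T + (R P Q (z + 1)).σ v + 1
  else if z + 3 = K then (K - 4) * T + 1
  else (z - 1) * T + (R P Q z).σ v

/-- vertices counted in slice `z` at time `t - 2` -/
noncomputable def FO (T K : ℕ) (P Q : Ty V) (Λ : Set V) (t z : ℕ) : Set V :=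
  {x | (z = 0 ∨ K ≤ z) ∧ x ∉ Λ ∨ ¬ (z = 0 ∨ K ≤ z) ∧ (x ∈ CO K P Q z ∨ sO T K P Q z x + 2 ≤ t)}

variable {G : SimpleGraph V} {m T K : ℕ} {P Q : Ty V} {Λ : Set V}

lemma CO_end {z : ℕ} (h : z = 1 ∨ z + 1 = K) : CO K P Q z = P.C := by
  unfold CO; rw [if_pos h]
lemma CO_mid {z : ℕ} (h : ¬ (z = 1 ∨ z + 1 = K)) :
    CO K P Q z = (R P Q z).A ∪ ((R P Q z).C ∩ (R P Q (z + 1)).C) := by
  unfold CO; rw [if_neg h]

lemma mem_FO_wall {t z : ℕ} {x : V} (h : z = 0 ∨ K ≤ z) : x ∈ FO T K P Q Λ t z ↔ x ∉ Λ := by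
  constructor
  · rintro (h1 | h1)
    · exact h1.2
    · exact absurd h h1.1
  · intro h1; exact Or.inl ⟨h, h1⟩

lemma mem_FO_mid {t z : ℕ} {x : V} (h1 : 1 ≤ z) (h2 : z < K) :
    x ∈ FO T K P Q Λ t z ↔ (x ∈ CO K P Q z ∨ sO T K P Q z x + 2 ≤ t) := by
  have h : ¬ (z = 0 ∨ K ≤ z) := by omega
  constructor
  · rintro (h3 | h3)
    · exact absurd h3.1 h
    · exact h3.2
  · intro h3; exact Or.inr ⟨h, h3⟩

lemma sO_C {z : ℕ} {v : V} (h : v ∈ CO K P Q z) : sO T K P Q z v = 0 := by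
  unfold sO; rw [if_pos h]
lemma sO_top {z : ℕ} {v : V} (h : v ∉ CO K P Q z) (h2 : K < z + 3) :
    sO T K P Q z v = (K - 4) * T + 1 := by
  unfold sO; rw [if_neg h, if_pos h2]
lemma sO_three {z : ℕ} {v : V} (h : v ∉ CO K P Q z) (h2 : z + 3 = K) (h3 : v ∉ (R P Q z).C) :
    sO T K P Q z v = (K - 4) * T + 1 := by
  unfold sO; rw [if_neg h, if_neg (by omega), if_neg h3, if_pos h2]

lemma CO_eq_CU (hK : 6 ≤ K) {z : ℕ} (h1 : 1 ≤ z) (h2 : z + 2 ≤ K) :
    CO K P Q z = CU K P Q z := by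
  rcases eq_or_ne z 1 with rfl | h
  · rw [CO_end (Or.inl rfl), CU_one (by omega)]
  · rw [CO_mid (by omega), CU_mid (by omega) (by omega)]

lemma sO_eq_sU (hK : 6 ≤ K) {z : ℕ} (h1 : 1 ≤ z) (h2 : z + 2 ≤ K) (v : V) :
    sO T K P Q z v = sU T K P Q z v := by
  unfold sO sU; rw [CO_eq_CU hK h1 h2]

/-- early vertices inside a slice -/
lemma CO_sub (hP : Cond G m T P Q) (hQ : Cond G m T Q P) (hK : K % 2 = 0) (hK6 : 6 ≤ K) {z : ℕ}
    (h1 : 1 ≤ z) (h2 : z < K) : CO K P Q z ⊆ (R P Q z).C := by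
  rcases Nat.lt_or_ge K (z + 2) with h | h
  · rw [CO_end (Or.inr (by omega)), R_odd P Q (by omega)]
  · rw [CO_eq_CU hK6 h1 h]; exact CU_sub hP hQ hK h1 h2

lemma FO_sub (hK : 6 ≤ K) {t z : ℕ} (h : z + 2 ≤ K) :
    FO T K P Q Λ t z ⊆ FU T K P Q t z := by
  intro x hx
  rcases Nat.eq_zero_or_pos z with h0 | h0
  · left
    rw [CU_wall (Or.inl h0)]; exact Set.mem_univ _
  · rw [mem_FO_mid h0 (by omega), CO_eq_CU hK h0 h, sO_eq_sU hK h0 h] at hx
    exact hx

variable [Finite V]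

/-- the count -/
noncomputable def NO (G : SimpleGraph V) (T K : ℕ) (P Q : Ty V) (Λ : Set V) (t z : ℕ) (x : V) : ℕ :=
  cnt G (FO T K P Q Λ t z) x + (iv (x ∈ FO T K P Q Λ t (z - 1)) + iv (x ∈ FO T K P Q Λ t (z + 1)))

lemma NO_mono {t t' z : ℕ} (h : t ≤ t') (x : V) :
    NO G T K P Q Λ t z x ≤ NO G T K P Q Λ t' z x := by
  have hs : ∀ z, FO T K P Q Λ t z ⊆ FO T K P Q Λ t' z := by
    intro z y hy
    rcases hy with hy | ⟨h1, h2 | h2⟩
    · exact Or.inl hy
    · exact Or.inr ⟨h1, Or.inl h2⟩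
    · exact Or.inr ⟨h1, Or.inr (by omega)⟩
  exact Nat.add_le_add (cnt_mono G (hs z) x)
    (Nat.add_le_add (iv_mono (fun h => hs _ h)) (iv_mono (fun h => hs _ h)))

/-- the slice `K - 2` -/
lemma NO_C (hP : Cond G m T P Q) (hQ : Cond G m T Q P) (hK : K % 2 = 0) (hK6 : 6 ≤ K) {z : ℕ}
    (h2 : z + 2 = K) {x : V} (hxC : x ∉ CO K P Q z) :
    NO G T K P Q Λ (sO T K P Q z x) z x ≤ m := by
  have hRz : R P Q z = Q := R_even P Q (by omega)
  have hRz1 : R P Q (z + 1) = P := R_odd P Q (by omega)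
  have hRm : R P Q (z - 1) = P := R_odd P Q (by omega)
  have hxC' := hxC
  rw [CO_mid (by omega)] at hxC'
  have hxA : x ∉ Q.A := fun h => hxC' (Or.inl (by rw [hRz]; exact h))
  have hx2' : ¬ (x ∈ Q.C ∧ x ∈ P.C) := fun h => hxC' (Or.inr (by rw [hRz, hRz1]; exact h))
  set t := sO T K P Q z x with ht
  have htval : t = (K - 4) * T + 1 := by rw [ht, sO_top hxC (by omega)]
  have hin : cnt G (FO T K P Q Λ t z) x ≤ cnt G Q.C x := by
    apply cnt_mono
    intro y hy
    by_contra hyC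
    have hyC' : y ∉ CO K P Q z := fun h => hyC (by
      have := CO_sub hP hQ hK hK6 (by omega) (by omega) h
      rwa [hRz] at this)
    rw [mem_FO_mid (by omega) (by omega), sO_top hyC' (by omega)] at hy
    rcases hy with hy | hy
    · exact hyC' hy
    · omega
  have hup : x ∉ P.C → x ∉ FO T K P Q Λ t (z + 1) := by
    intro h
    have hx5 : x ∉ CO K P Q (z + 1) := by rw [CO_end (Or.inr (by omega))]; exact h
    rw [mem_FO_mid (by omega) (by omega), sO_top hx5 (by omega)]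
    rintro (h' | h')
    · exact hx5 h'
    · omega
  have hlo : x ∉ P.C → x ∉ FO T K P Q Λ t (z - 1) := by
    intro h
    have hx5 : x ∉ CO K P Q (z - 1) := fun h' => h (by
      have := CO_sub hP hQ hK hK6 (z := z - 1) (by omega) (by omega) h'
      rwa [hRm] at this)
    rw [mem_FO_mid (by omega) (by omega), sO_three hx5 (by omega) (by rw [hRm]; exact h)]
    rintro (h' | h')
    · exact hx5 h'
    · omega
  unfold NO
  by_cases hxP : x ∈ P.C
  · have hxQ : x ∉ Q.C := fun h => hx2' ⟨h, hxP⟩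
    have hxs : x ≠ Q.s := fun h => hQ.sQ (h ▸ hxP)
    have h6 := iv_le (x ∈ FO T K P Q Λ t (z - 1))
    have h7 := iv_le (x ∈ FO T K P Q Λ t (z + 1))
    by_cases hxPA : x ∈ P.A
    · have h8 := hQ.ha2 x hxQ hxs hxPA
      have h9 : cnt G Q.C x ≤ cnt G (Q.F (Q.σ x)) x := cnt_mono G (fun y hy => Or.inl hy) x
      omega
    · have h8 := hP.hh x hxP hxPA hxQ
      omega
  · have hcount : cnt G Q.C x ≤ m := by
      by_cases hxQ : x ∈ Q.C
      · exact hQ.hc x hxQ hxA hxP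
      · by_cases hxs : x = Q.s
        · rw [hxs]; exact hQ.hb
        · have h8 := hQ.ha1 x hxQ hxs
          have h9 : cnt G Q.C x ≤ cnt G (Q.F (Q.σ x)) x := cnt_mono G (fun y hy => Or.inl hy) x
          omega
    rw [iv_zero (fun h => hlo hxP h), iv_zero (fun h => hup hxP h)]
    omega

/-- the slice `K - 1` -/
lemma NO_D (hP : Cond G m T P Q) (hQ : Cond G m T Q P) (hK : K % 2 = 0) (hK6 : 6 ≤ K)
    (hs : P.s ∈ Λ) {z : ℕ} (h2 : z + 1 = K) {x : V} (hxC : x ∉ CO K P Q z) :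
    NO G T K P Q Λ (sO T K P Q z x) z x ≤ m := by
  have hRm : R P Q (z - 1) = Q := R_even P Q (by omega)
  set t := sO T K P Q z x with ht
  have htval : t = (K - 4) * T + 1 := by rw [ht, sO_top hxC (by omega)]
  have hxP : x ∉ P.C := by rwa [CO_end (Or.inr h2)] at hxC
  have hin : cnt G (FO T K P Q Λ t z) x ≤ cnt G P.C x := by
    apply cnt_mono
    intro y hy
    by_contra hyC
    have hyC' : y ∉ CO K P Q z := by rw [CO_end (Or.inr h2)]; exact hyC
    rw [mem_FO_mid (by omega) (by omega), sO_top hyC' (by omega)] at hy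
    rcases hy with hy | hy
    · exact hyC' hy
    · omega
  have hlo : x ∉ Q.A → x ∉ FO T K P Q Λ t (z - 1) := by
    intro h
    have hx5 : x ∉ CO K P Q (z - 1) := by
      rw [CO_mid (by omega)]
      have e : z - 1 + 1 = z := by omega
      rw [hRm, e, R_odd P Q (by omega)]
      rintro (h3 | h3)
      · exact h h3
      · exact hxP h3.2
    rw [mem_FO_mid (by omega) (by omega), sO_top hx5 (by omega)]
    rintro (h' | h')
    · exact hx5 h'
    · omega
  have h6 := iv_le (x ∈ FO T K P Q Λ t (z - 1))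
  have h7 := iv_le (x ∈ FO T K P Q Λ t (z + 1))
  unfold NO
  by_cases hxs : x = P.s
  · have hxQ : x ∉ Q.C := by rw [hxs]; exact hP.sQ
    rw [iv_zero (fun h => hlo (fun h' => hxQ (hQ.AC h')) h),
      iv_zero (p := x ∈ FO T K P Q Λ t (z + 1)) (by
        rw [mem_FO_wall (Or.inr (by omega))]
        intro h; exact h (by rw [hxs]; exact hs))]
    have hb := hP.hb
    rw [← hxs] at hb
    omega
  · have h9 : cnt G P.C x ≤ cnt G (P.F (P.σ x)) x := cnt_mono G (fun y hy => Or.inl hy) x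
    by_cases hxQ : x ∈ Q.A
    · have h8 := hP.ha2 x hxP hxs hxQ
      omega
    · have h8 := hP.ha1 x hxP hxs
      rw [iv_zero (fun h => hlo hxQ h)]
      omega

/-- all counts in the stack -/
theorem NO_all (hP : Cond G m T P Q) (hQ : Cond G m T Q P) (hK : K % 2 = 0) (hK6 : 6 ≤ K)
    (hs : P.s ∈ Λ) {z : ℕ} (h1 : 1 ≤ z) (h2 : z < K) {x : V} (hx : x ∉ CO K P Q z) :
    NO G T K P Q Λ (sO T K P Q z x) z x ≤ m := by
  rcases eq_or_ne (z + 1) K with h3 | h3
  · exact NO_D hP hQ hK hK6 hs h3 hx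
  rcases eq_or_ne (z + 2) K with h4 | h4
  · exact NO_C hP hQ hK hK6 h4 hx
  by_cases h5 : z = 1 ∧ x = P.s
  · obtain ⟨rfl, rfl⟩ := h5
    have hR1 : R P Q 1 = P := R_odd P Q (by omega)
    have ht : sO T K P Q 1 P.s = 1 := by
      rw [sO_eq_sU hK6 (by omega) (by omega), sU_main ?_ (by omega) (by rw [hR1]; exact hP.sP), hR1,
        hP.ss]
      · simp
      · rw [CU_one (by omega)]; exact hP.sP
    rw [ht]
    unfold NO
    have e0 : P.s ∉ FO T K P Q Λ 1 (1 - 1) := by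
      rw [mem_FO_wall (Or.inl rfl)]; exact fun h => h hs
    have e1 : P.s ∉ FO T K P Q Λ 1 (1 + 1) := by
      rw [mem_FO_mid (by omega) (by omega)]
      rintro (h | h)
      · have := CO_sub hP hQ hK hK6 (z := 1 + 1) (by omega) (by omega) h
        rw [R_even P Q (by omega)] at this
        exact hP.sQ this
      · omega
    have e2 : cnt G (FO T K P Q Λ 1 1) P.s ≤ cnt G P.C P.s := by
      apply cnt_mono
      intro y hy
      rw [mem_FO_mid (by omega) (by omega), CO_end (Or.inl rfl)] at hy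
      rcases hy with h | h
      · exact h
      · omega
    rw [iv_zero e0, iv_zero e1]
    have := hP.hb
    omega
  · have hle : NO G T K P Q Λ (sO T K P Q z x) z x ≤ NU G T K P Q (sU T K P Q z x) z x := by
      rw [sO_eq_sU hK6 h1 (by omega)]
      unfold NO NU
      refine Nat.add_le_add (cnt_mono G (FO_sub hK6 (by omega)) x)
        (Nat.add_le_add (iv_mono ?_) (iv_mono ?_))
      · intro h; exact ⟨h1, FO_sub hK6 (by omega) h⟩
      · intro h; exact ⟨by omega, FO_sub hK6 (by omega) h⟩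
    refine hle.trans (NU_all hP hQ hK hK6 (by omega) ?_ ?_)
    · rw [← CO_eq_CU hK6 h1 (by omega)]; exact hx
    · intro h6 h7; exact h5 ⟨h6, h7⟩

/-- percolation of the slices from the first wall -/
theorem open_perc (hP : Cond G m T P Q) (hQ : Cond G m T Q P) (hK2 : K % 2 = 0) (hK : 6 ≤ K)
    (hΛ : ∀ v ∈ Λ, v ∉ Q.A) (S : ℕ → Set V) (h0 : ∀ x, x ∈ S 0)
    (hA : ∀ z, 1 ≤ z → z < K → (R P Q z).A ⊆ S z) (hw : ∀ x, x ∉ Λ → x ∈ S K)
    (hcl : ∀ z, 1 ≤ z → z < K → ∀ x, m + 1 ≤ cnt G (S z) x +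
      (iv (x ∈ S (z - 1)) + iv (x ∈ S (z + 1))) → x ∈ S z) :
    ∀ z, z < K → ∀ x, x ∈ S z := by
  have hmid : ∀ z, z < K → ∀ x, x ∈ S z := by
    intro z
    induction z with
    | zero => intro _ x; exact h0 x
    | succ z ih =>
      intro hz
      have hR := R_cond hP hQ (z + 1)
      apply hR.he
      · exact hA (z + 1) (by omega) (by omega)
      · intro v hv
        apply hcl (z + 1) (by omega) hz
        rw [iv_one (p := v ∈ S (z + 1 - 1)) (ih (by omega) v)]
        omega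
      · intro v hv hvc hm
        apply hcl (z + 1) (by omega) hz
        have hup : v ∈ S (z + 1 + 1) := by
          rcases eq_or_ne (z + 2) K with h3 | h3
          · rw [h3]
            apply hw
            intro h4
            rw [R_even P Q (by omega)] at hv
            exact hΛ v h4 hv
          · exact hA (z + 1 + 1) (by omega) (by omega) hv
        rw [iv_one (p := v ∈ S (z + 1 - 1)) (ih (by omega) v), iv_one (p := v ∈ S (z + 1 + 1)) hup]
        omega
  exact hmid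

end Pool.Agent.Helper70.Thr3
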