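import Mathlib
import Pool.Agent.Helper70.Thr3.Hole
import Pool.Agent.Helper70.Thr3.Open

/-!
# Threshold three: the barrier
-/

set_option linter.unusedSectionVars false
set_option linter.unusedVariables false

namespace Pool.Agent.Helper70.Thr3

open Set SimpleGraph Pool.Agent.Helper19.Perco Pool.Agent.Helper70.Duo

/-- the open part of the walls -/
def Λ (L : ℕ) : Set (Fin L × Fin L) := {v | v.2.val = 0 ∧ v.1.val ≤ 1}

lemma cnt_sqq (L : ℕ) (q : ℕ → ℕ → Prop) (x y : Fin L) :
    cnt (Sq L) {v | q v.1.val v.2.val} (x, y) =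
      (iv (0 < x.val ∧ q (x.val - 1) y.val) + iv (x.val + 1 < L ∧ q (x.val + 1) y.val)) +
      (iv (0 < y.val ∧ q x.val (y.val - 1)) + iv (y.val + 1 < L ∧ q x.val (y.val + 1))) := by
  rw [cnt_boxProd]
  have h1 := cnt_path L (fun i => q i y.val) x
  have h2 := cnt_path L (fun i => q x.val i) y
  refine congrArg₂ (· + ·) (h1.trans ?_) (h2.trans ?_)
  · unfold iv; congr
  · unfold iv; congr

/-- the hypotheses on the two slice types -/
structure Base (L T : ℕ) (P Q : Ty (Fin L × Fin L)) : Prop where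
  hL : 10 ≤ L
  hP : Cond (Sq L) 2 T P Q
  hQ : Cond (Sq L) 2 T Q P
  s1 : P.s.1.val = 1
  s2 : P.s.2.val = 0
  o : ∀ v : Fin L × Fin L, v.1.val = 0 → v.2.val = 0 → v ∈ P.A
  hΛ : ∀ v ∈ Λ L, v ∉ Q.A

/-- slice number in the direction of travel -/
def dz (K j z : ℕ) : ℕ := if j % 2 = 0 then z else K - z

namespace YD

variable {Y : Type} {GY : SimpleGraph Y} (X : YD GY) {L : ℕ} (T K : ℕ) (P Q : Ty (Fin L × Fin L))

/-- duration of a line -/
def dur (T K : ℕ) : ℕ := (K - 4) * T + 1

/-- the vertices of slice `z` counted at time `t` -/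
def memS (t z : ℕ) (v : Fin L × Fin L) (y : Y) : Prop :=
  (y ∈ X.D ∧ ∀ j ≤ X.F, y ≠ X.line j) ∨ (y = X.line X.F ∧ v ∉ Λ L) ∨
    (∃ j < X.F, y = X.line j ∧
      (v ∈ CO K P Q (dz K j z) ∨ j * dur T K + sO T K P Q (dz K j z) v ≤ t))

/-- the vertices of layer `z` counted at time `t` -/
def Lv (t : ℕ) (y : Y) (z : ℕ) : Set (Fin L × Fin L) :=
  {v | (z ≤ 5 ∧ X.memH (dur T K) t 1 (5 - z) v.1.val v.2.val y) ∨
    (5 < z ∧ z < K + 5 ∧ X.memS T K P Q t (z - 5) v y) ∨
    (K + 5 ≤ z ∧ X.memH (dur T K) t 0 (z - (K + 5)) v.1.val v.2.val y)}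

/-- all vertices counted at time `t` -/
def mem (t : ℕ) : Set (((Fin L × Fin L) × Fin (K + 11)) × Y) :=
  {p | p.1.1 ∈ X.Lv T K P Q t p.2 p.1.2.val}

variable {X T K P Q} {t : ℕ} {y : Y}

lemma Lv_bot {z : ℕ} (hz : z ≤ 5) (hK : 6 ≤ K) : X.Lv T K P Q t y z =
    {v | X.memH (dur T K) t 1 (5 - z) v.1.val v.2.val y} := by
  ext v
  constructor
  · rintro (h | h | h)
    · exact h.2
    · omega
    · omega
  · intro h; exact Or.inl ⟨hz, h⟩

lemma Lv_mid {z : ℕ} (hz : 5 < z) (hz2 : z < K + 5) : X.Lv T K P Q t y z =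
    {v | X.memS T K P Q t (z - 5) v y} := by
  ext v
  constructor
  · rintro (h | h | h)
    · omega
    · exact h.2.2
    · omega
  · intro h; exact Or.inr (Or.inl ⟨hz, hz2, h⟩)

lemma Lv_top {z : ℕ} (hz : K + 5 ≤ z) (hK : 6 ≤ K) : X.Lv T K P Q t y z =
    {v | X.memH (dur T K) t 0 (z - (K + 5)) v.1.val v.2.val y} := by
  ext v
  constructor
  · rintro (h | h | h)
    · omega
    · omega
    · exact h.2
  · intro h; exact Or.inr (Or.inr ⟨hz, h⟩)

lemma memS_D {z : ℕ} {v : Fin L × Fin L} (h : X.memS T K P Q t z v y) : y ∈ X.D := by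
  rcases h with h | h | ⟨j, hj, h, _⟩
  · exact h.1
  · rw [h.1]; exact X.lineD _ le_rfl
  · rw [h]; exact X.lineD _ hj.le

variable [Finite Y]

lemma cnt_mem (hK : 6 ≤ K) (v : Fin L × Fin L) (z : Fin (K + 11)) (y : Y) :
    cnt ((Sq L □ pathGraph (K + 11)) □ GY) (X.mem T K P Q t) ((v, z), y) =
      (cnt (Sq L) (X.Lv T K P Q t y z.val) v +
        (iv (0 < z.val ∧ v ∈ X.Lv T K P Q t y (z.val - 1)) +
          iv (z.val + 1 < K + 11 ∧ v ∈ X.Lv T K P Q t y (z.val + 1)))) +
      cnt GY {y' | v ∈ X.Lv T K P Q t y' z.val} y := by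
  rw [cnt_boxProd]
  congr 1
  exact cnt_lay' (Sq L) (K + 11) (X.Lv T K P Q t y) v z

/-- the walls -/
lemma wall_count {s α β : ℕ} {sl : Prop} (h1 : y ∉ X.D → ¬ sl)
    (h2 : ∀ j, X.port s y j → α = 1 → β = 0 → ¬ sl)
    (hv : ¬ X.memH (dur T K) (t + 1) s 0 α β y) :
    iv (0 < α ∧ X.memH (dur T K) t s 0 (α - 1) β y) + iv (X.memH (dur T K) t s 0 (α + 1) β y) +
    (iv (0 < β ∧ X.memH (dur T K) t s 0 α (β - 1) y) + iv (X.memH (dur T K) t s 0 α (β + 1) y)) +
    (iv (X.memH (dur T K) t s 1 α β y) + iv sl) +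
    cnt GY {y' | X.memH (dur T K) t s 0 α β y'} y ≤ 2 := by
  by_cases hy : y ∈ X.D
  · rw [cY_D hy (by omega) hv]
    have hns : ¬ X.seedH s 0 α β y := fun h => hv (Or.inl h)
    have hport : β = 0 ∧ α ≤ 1 ∧ ∃ j, X.port s y j := by
      by_contra h
      exact hns (Or.inl ⟨by omega, hy, h⟩)
    obtain ⟨rfl, hα, j, hj⟩ := hport
    have hlate : ¬ (j + 1) * dur T K ≤ t + 1 := by
      intro h
      exact hv (Or.inr ⟨j, ⟨rfl, Or.inl ⟨hj, Or.inl ⟨by omega, hα⟩⟩⟩, h⟩)
    have key : ∀ h' α', h' ≤ 1 → α' ≤ 1 → ¬ X.memH (dur T K) t s h' α' 0 y := by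
      intro h' α' h1 h2
      rintro ((h3 | h3 | ⟨_, i, h3, h4⟩ | h3 | h3 | h3) | ⟨i, h3, h4⟩)
      · exact h3.2.2 ⟨rfl, h2, j, hj⟩
      · omega
      · unfold PS at h4; omega
      · omega
      · omega
      · omega
      · rcases h3.2 with h5 | h5
        · have := port_unique h5.1 hj
          subst this
          omega
        · omega
    rw [iv_zero (p := 0 < α ∧ X.memH (dur T K) t s 0 (α - 1) 0 y)
        (fun h => key 0 (α - 1) (by omega) (by omega) h.2),
      iv_zero (p := 0 < 0 ∧ X.memH (dur T K) t s 0 α (0 - 1) y) (by omega),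
      iv_zero (p := X.memH (dur T K) t s 1 α 0 y) (key 1 α (by omega) hα)]
    have i1 := iv_le (X.memH (dur T K) t s 0 (α + 1) 0 y)
    have i2 := iv_le (X.memH (dur T K) t s 0 α (0 + 1) y)
    have i3 := iv_le sl
    rcases Nat.eq_zero_or_pos α with h0 | h0
    · subst h0
      rw [iv_zero (p := X.memH (dur T K) t s 0 (0 + 1) 0 y) (key 0 1 (by omega) le_rfl)]
      omega
    · rw [iv_zero (p := sl) (h2 j hj (by omega) rfl)]
      omega
  · have hin : ∀ h' α' β', h' ≤ 2 → ¬ X.memH (dur T K) t s h' α' β' y := by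
      intro h' α' β' h1 h2
      have := (memH_L hy h2).2
      omega
    rw [iv_zero (p := 0 < α ∧ X.memH (dur T K) t s 0 (α - 1) β y)
        (fun h => hin _ _ _ (by omega) h.2),
      iv_zero (p := X.memH (dur T K) t s 0 (α + 1) β y) (hin _ _ _ (by omega)),
      iv_zero (p := 0 < β ∧ X.memH (dur T K) t s 0 α (β - 1) y)
        (fun h => hin _ _ _ (by omega) h.2),
      iv_zero (p := X.memH (dur T K) t s 0 α (β + 1) y) (hin _ _ _ (by omega)),
      iv_zero (p := X.memH (dur T K) t s 1 α β y) (hin _ _ _ (by omega)),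
      iv_zero (h1 hy)]
    have := cY_sub (by omega) hv
    omega

lemma dz_mid {j z : ℕ} (h1 : 1 ≤ z) (h2 : z < K) : 1 ≤ dz K j z ∧ dz K j z < K := by
  unfold dz; split_ifs <;> omega

/-- times of the start vertex -/
lemma sO_s (hB : Base L T P Q) (hK2 : K % 2 = 0) (hK : 6 ≤ K) : sO T K P Q 1 P.s = 1 ∧
    sO T K P Q (K - 1) P.s = (K - 4) * T + 1 := by
  have hR1 : R P Q 1 = P := R_odd P Q (by omega)
  refine ⟨?_, ?_⟩
  · rw [sO_eq_sU hK (by omega) (by omega), sU_main ?_ (by omega) (by rw [hR1]; exact hB.hP.sP), hR1,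
      hB.hP.ss]
    · simp
    · rw [CU_one (by omega)]; exact hB.hP.sP
  · rw [sO_top ?_ (by omega)]
    rw [CO_end (Or.inr (by omega))]; exact hB.hP.sP

lemma eq_s (hB : Base L T P Q) {v : Fin L × Fin L} (h1 : v.1.val = 1) (h2 : v.2.val = 0) :
    v = P.s := by
  have h3 := hB.s1
  have h4 := hB.s2
  exact Prod.ext (Fin.ext (by omega)) (Fin.ext (by omega))

lemma s_Λ (hB : Base L T P Q) : P.s ∈ Λ L := ⟨hB.s2, hB.s1.le⟩

/-- the wall next to a slice of a line -/
lemma wall_line (hB : Base L T P Q) (hK2 : K % 2 = 0) (hK : 6 ≤ K) {j s z : ℕ} (hj : j < X.F)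
    {v : Fin L × Fin L} (hz : (s = 1 ∧ z = 1) ∨ (s = 0 ∧ z + 1 = K))
    (hv1 : v ∉ CO K P Q (dz K j z)) (hv2 : t + 1 < j * dur T K + sO T K P Q (dz K j z) v)
    (hm : X.memH (dur T K) t s 0 v.1.val v.2.val (X.line j)) : v ∉ Λ L := by
  intro hΛ
  have hPC : v ∉ P.C := by
    rwa [CO_end (by unfold dz; split_ifs <;> omega)] at hv1
  have hvs : v = P.s := by
    apply eq_s hB _ hΛ.1
    have h1 := hΛ.2
    by_contra h2
    exact hPC (hB.hP.AC (hB.o v (by omega) hΛ.1))
  obtain ⟨ts1, ts2⟩ := sO_s hB hK2 hK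
  have hmul : (j + 1) * dur T K = j * dur T K + dur T K := by ring
  -- there is a port, or this is the start of the first line
  have hcase : (dz K j z = 1 ∧ (j = 0 ∨ X.port s (X.line j) (j - 1))) ∨
      (dz K j z = K - 1 ∧ X.port s (X.line j) j) := by
    unfold dz port
    rcases Nat.mod_two_eq_zero_or_one j with h0 | h0
    · rw [if_pos h0]
      rcases hz with ⟨rfl, rfl⟩ | ⟨rfl, h3⟩
      · left
        refine ⟨rfl, ?_⟩
        rcases Nat.eq_zero_or_pos j with h4 | h4
        · exact Or.inl h4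
        · right
          refine ⟨by omega, by omega, Or.inr ⟨by omega, ?_⟩⟩
          have : j - 1 + 1 = j := by omega
          rw [this]
      · right
        exact ⟨by omega, by omega, h0, Or.inl rfl⟩
    · rw [if_neg (by omega)]
      rcases hz with ⟨rfl, rfl⟩ | ⟨rfl, h3⟩
      · right
        exact ⟨rfl, by omega, h0, Or.inl rfl⟩
      · left
        refine ⟨by omega, Or.inr ⟨by omega, by omega, Or.inr ⟨by omega, ?_⟩⟩⟩
        have : j - 1 + 1 = j := by omega
        rw [this]
  have hport : ∀ i, X.port s (X.line j) i → (i + 1) * dur T K ≤ t := by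
    intro i hi
    rcases hm with (h3 | h3 | ⟨_, i, h3, h4⟩ | h3 | h3 | h3) | ⟨i', h3, h4⟩
    · exact absurd ⟨hΛ.1, hΛ.2, i, hi⟩ h3.2.2
    · omega
    · unfold PS at h4; omega
    · omega
    · omega
    · omega
    · rcases h3.2 with h5 | h5
      · have := port_unique h5.1 hi
        subst this
        exact h4
      · omega
  rcases hcase with ⟨h1, h2⟩ | ⟨h1, h2⟩
  · rw [h1, hvs, ts1] at hv2
    rcases h2 with h2 | h2
    · subst h2
      omega
    · have h3 := hport _ h2
      have h4 : j - 1 + 1 = j ∨ j = 0 := by omega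
      rcases h4 with h4 | h4
      · rw [h4] at h3
        omega
      · subst h4; omega
  · rw [h1, hvs, ts2] at hv2
    have h3 := hport _ h2
    rw [hmul] at h3
    unfold dur at *
    omega

lemma dz_succ {j z : ℕ} (h1 : 1 ≤ z) (h2 : z < K) :
    (dz K j (z - 1) = dz K j z - 1 ∧ dz K j (z + 1) = dz K j z + 1) ∨
    (dz K j (z - 1) = dz K j z + 1 ∧ dz K j (z + 1) = dz K j z - 1) := by
  unfold dz; split_ifs
  · left; exact ⟨rfl, rfl⟩
  · right; exact ⟨by omega, by omega⟩

lemma star_port (s : ℕ) (hs : s ≤ 1) : ∃ j, X.port s (X.line X.F) j := by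
  have hF := X.hF
  by_cases h : X.F % 2 = s
  · exact ⟨X.F, le_rfl, h, Or.inl rfl⟩
  · refine ⟨X.F - 1, by omega, by omega, Or.inr ⟨by omega, ?_⟩⟩
    have : X.F - 1 + 1 = X.F := by omega
    rw [this]

lemma star_late {s : ℕ} {j : ℕ} (h : X.port s (X.line X.F) j) (ht : t + 1 < X.F * dur T K) :
    ¬ (j + 1) * dur T K ≤ t := by
  have hj : X.F ≤ j + 1 := by
    obtain ⟨h1, h2, h3 | ⟨h3, h4⟩⟩ := h
    · have := X.inj _ le_rfl j h1 h3
      omega
    · have := X.inj _ le_rfl (j + 1) h3 h4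
      omega
  have := Nat.mul_le_mul_right (dur T K) hj
  omega

/-- the slices -/
lemma slice_count (hB : Base L T P Q) (hK2 : K % 2 = 0) (hK : 6 ≤ K)
    (ht : t + 1 < X.F * dur T K) {z : ℕ} (h1 : 1 ≤ z) (h2 : z < K) {v : Fin L × Fin L}
    (hv : ¬ X.memS T K P Q (t + 1) z v y) :
    (cnt (Sq L) (X.Lv T K P Q t y (z + 5)) v +
        (iv (v ∈ X.Lv T K P Q t y (z + 4)) + iv (v ∈ X.Lv T K P Q t y (z + 6)))) +
      cnt GY {y' | v ∈ X.Lv T K P Q t y' (z + 5)} y ≤ 2 := by
  have e5 : z + 5 - 5 = z := by omega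
  have hLz : ∀ y', X.Lv T K P Q t y' (z + 5) = {v | X.memS T K P Q t z v y'} := by
    intro y'
    rw [Lv_mid (by omega) (by omega), e5]
  by_cases hy : y ∈ X.D
  · have hY : cnt GY {y' | v ∈ X.Lv T K P Q t y' (z + 5)} y = 0 := by
      apply cnt_eq_zero
      intro u hu hadj
      have hu' : v ∈ X.Lv T K P Q t u (z + 5) := hu
      rw [hLz] at hu'
      exact X.indep y hy u hadj (memS_D hu')
    rw [hY]
    have hnd : ¬ ∀ j ≤ X.F, y ≠ X.line j := fun h => hv (Or.inl ⟨hy, h⟩)
    push Not at hnd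
    obtain ⟨j, hj, hyj⟩ := hnd
    subst hyj
    rcases eq_or_ne j X.F with hjF | hjF
    · subst hjF
      have hΛ : v ∈ Λ L := by
        by_contra h
        exact hv (Or.inr (Or.inl ⟨rfl, h⟩))
      have hmS : ∀ z' v', X.memS T K P Q t z' v' (X.line X.F) → v' ∉ Λ L := by
        rintro z' v' (h | h | ⟨j, hj, h, _⟩)
        · exact absurd rfl (h.2 _ le_rfl)
        · exact h.2
        · exact absurd (X.inj _ le_rfl j hj.le h) (by omega)
      have hmH : ∀ s ≤ 1, ¬ X.memH (dur T K) t s 0 v.1.val v.2.val (X.line X.F) := by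
        intro s hs hm
        obtain ⟨i, hi⟩ := star_port (X := X) s hs
        rcases hm with (h3 | h3 | ⟨_, i', h3, h4⟩ | h3 | h3 | h3) | ⟨i', h3, h4⟩
        · exact absurd ⟨hΛ.1, hΛ.2, i, hi⟩ h3.2.2
        · omega
        · unfold PS at h4; omega
        · omega
        · omega
        · omega
        · rcases h3.2 with h5 | h5
          · exact star_late h5.1 ht h4
          · omega
      have hdn : v ∉ X.Lv T K P Q t (X.line X.F) (z + 4) := by
        rcases eq_or_ne z 1 with hz | hz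
        · subst hz
          rw [Lv_bot (by omega) hK]
          exact hmH 1 le_rfl
        · rw [Lv_mid (by omega) (by omega)]
          exact fun h => hmS _ _ h hΛ
      have hup : v ∉ X.Lv T K P Q t (X.line X.F) (z + 6) := by
        rcases eq_or_ne (z + 1) K with hz | hz
        · rw [Lv_top (by omega) hK]
          have : z + 6 - (K + 5) = 0 := by omega
          rw [this]
          exact hmH 0 (by omega)
        · rw [Lv_mid (by omega) (by omega)]
          exact fun h => hmS _ _ h hΛ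
      rw [iv_zero hdn, iv_zero hup]
      have hc : cnt (Sq L) (X.Lv T K P Q t (X.line X.F) (z + 5)) v ≤
          cnt (Sq L) {w | ¬ (w.2.val = 0 ∧ w.1.val ≤ 1)} v := by
        apply cnt_mono
        intro w hw
        rw [hLz] at hw
        exact hmS _ _ hw
      have hL := hB.hL
      have hΛ1 : v.2.val = 0 := hΛ.1
      have hΛ2 : v.1.val ≤ 1 := hΛ.2
      have hc2 : cnt (Sq L) {w | ¬ (w.2.val = 0 ∧ w.1.val ≤ 1)} v ≤ 2 := by
        rw [show v = (v.1, v.2) from rfl, cnt_sqq L (fun a b => ¬ (b = 0 ∧ a ≤ 1)) v.1 v.2]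
        simp only [iv_eq]
        split_ifs <;> omega
      omega
    · have hjF' : j < X.F := by omega
      have hv1 : v ∉ CO K P Q (dz K j z) := fun h => hv (Or.inr (Or.inr ⟨j, hjF', rfl, Or.inl h⟩))
      have hv2 : t + 1 < j * dur T K + sO T K P Q (dz K j z) v := by
        by_contra h
        exact hv (Or.inr (Or.inr ⟨j, hjF', rfl, Or.inr (by omega)⟩))
      have hdz := dz_mid (j := j) h1 h2
      have hmS : ∀ z' v', 1 ≤ z' → z' < K → X.memS T K P Q t z' v' (X.line j) →
          v' ∈ FO T K P Q (Λ L) (sO T K P Q (dz K j z) v) (dz K j z') := by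
        rintro z' v' h3 h4 (h | h | ⟨i, hi, h, h5⟩)
        · exact absurd rfl (h.2 _ hj)
        · exact absurd (X.inj _ hj _ le_rfl h.1) hjF
        · have := X.inj _ hj i hi.le h
          subst this
          have hdz' := dz_mid (j := j) h3 h4
          rw [mem_FO_mid hdz'.1 hdz'.2]
          rcases h5 with h5 | h5
          · exact Or.inl h5
          · right; omega
      have hdn : v ∈ X.Lv T K P Q t (X.line j) (z + 4) →
          v ∈ FO T K P Q (Λ L) (sO T K P Q (dz K j z) v) (dz K j (z - 1)) := by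
        rcases eq_or_ne z 1 with hz | hz
        · subst hz
          rw [Lv_bot (by omega) hK]
          intro h
          have h3 := wall_line hB hK2 hK hjF' (Or.inl ⟨rfl, rfl⟩) hv1 hv2 h
          rw [mem_FO_wall (by unfold dz; split_ifs <;> omega)]
          exact h3
        · rw [Lv_mid (by omega) (by omega)]
          intro h
          have e : z + 4 - 5 = z - 1 := by omega
          have h' : X.memS T K P Q t (z + 4 - 5) v (X.line j) := h
          rw [e] at h'
          exact hmS _ _ (by omega) (by omega) h'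
      have hup : v ∈ X.Lv T K P Q t (X.line j) (z + 6) →
          v ∈ FO T K P Q (Λ L) (sO T K P Q (dz K j z) v) (dz K j (z + 1)) := by
        rcases eq_or_ne (z + 1) K with hz | hz
        · rw [Lv_top (by omega) hK]
          intro h
          have e : z + 6 - (K + 5) = 0 := by omega
          have h' : X.memH (dur T K) t 0 (z + 6 - (K + 5)) v.1.val v.2.val (X.line j) := h
          rw [e] at h'
          have h3 := wall_line hB hK2 hK hjF' (Or.inr ⟨rfl, hz⟩) hv1 hv2 h'
          rw [mem_FO_wall (by unfold dz; split_ifs <;> omega)]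
          exact h3
        · rw [Lv_mid (by omega) (by omega)]
          intro h
          have e : z + 6 - 5 = z + 1 := by omega
          have h' : X.memS T K P Q t (z + 6 - 5) v (X.line j) := h
          rw [e] at h'
          exact hmS _ _ (by omega) (by omega) h'
      have hc : cnt (Sq L) (X.Lv T K P Q t (X.line j) (z + 5)) v ≤
          cnt (Sq L) (FO T K P Q (Λ L) (sO T K P Q (dz K j z) v) (dz K j z)) v := by
        apply cnt_mono
        intro w hw
        rw [hLz] at hw
        exact hmS _ _ h1 h2 hw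
      have hNO := NO_all hB.hP hB.hQ hK2 hK (s_Λ hB) hdz.1 hdz.2 hv1
      unfold NO at hNO
      have i1 := iv_mono hdn
      have i2 := iv_mono hup
      rcases dz_succ (j := j) h1 h2 with ⟨e1, e2⟩ | ⟨e1, e2⟩
      · rw [e1] at i1; rw [e2] at i2; omega
      · rw [e1] at i1; rw [e2] at i2; omega
  · have hmS : ∀ z' v', ¬ X.memS T K P Q t z' v' y := fun z' v' h => hy (memS_D h)
    have hmH : ∀ s α β, ¬ X.memH (dur T K) t s 0 α β y := by
      intro s α β h
      have := (memH_L hy h).2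
      omega
    have hc : cnt (Sq L) (X.Lv T K P Q t y (z + 5)) v = 0 := by
      apply cnt_eq_zero
      intro u hu
      rw [hLz] at hu
      exact absurd hu (hmS _ _)
    have hdn : v ∉ X.Lv T K P Q t y (z + 4) := by
      rcases eq_or_ne z 1 with hz | hz
      · subst hz
        rw [Lv_bot (by omega) hK]
        exact hmH _ _ _
      · rw [Lv_mid (by omega) (by omega)]
        exact hmS _ _
    have hup : v ∉ X.Lv T K P Q t y (z + 6) := by
      rcases eq_or_ne (z + 1) K with hz | hz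
      · rw [Lv_top (by omega) hK]
        have : z + 6 - (K + 5) = 0 := by omega
        rw [this]
        exact hmH _ _ _
      · rw [Lv_mid (by omega) (by omega)]
        exact hmS _ _
    rw [hc, iv_zero hdn, iv_zero hup]
    have hY : cnt GY {y' | v ∈ X.Lv T K P Q t y' (z + 5)} y ≤ cnt GY X.D y := by
      apply cnt_mono
      intro u hu
      have hu' : v ∈ X.Lv T K P Q t u (z + 5) := hu
      rw [hLz] at hu'
      exact memS_D hu'
    have := X.two y
    omega

end YD

end Pool.Agent.Helper70.Thr3
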