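import Mathlib
import Pool.Agent.Helper70.PercDuoBase3
import Pool.Agent.Helper70.Thr3.Barrier

/-!
# Threshold three: the two slice types
-/

set_option linter.unusedSectionVars false
set_option linter.unusedVariables false

namespace Pool.Agent.Helper70.Thr3

open Set SimpleGraph Pool.Agent.Helper19.Perco Pool.Agent.Helper70.Duo

/-- reflection of the first coordinate -/
def eM (L : ℕ) : Sq L ≃g Sq L := boxCongr (revPath L) Iso.refl

/-- the two slice types -/
theorem base_inst {L : ℕ} (hL : 10 ≤ L) (hL2 : L % 2 = 0) :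
    Base L (w L 4 + L - 3) ((YT L hL).comap (eM L).toEquiv) ((XT L hL).comap (eM L).toEquiv) := by
  refine
    { hL := hL
      hP := (base_cond hL hL2).comap (eM L)
      hQ := (base_cond' hL hL2).comap (eM L)
      s1 := ?_, s2 := ?_, o := ?_, hΛ := ?_ }
  · show (Fin.rev (⟨L - 2, by omega⟩ : Fin L)).val = 1
    rw [Fin.val_rev]
    show L - (L - 2 + 1) = 1
    omega
  · rfl
  · intro v h1 h2
    show AY L ((Fin.rev v.1).val + 1) (v.2.val + 1)
    rw [Fin.val_rev, h1, h2]
    unfold AY
    omega
  · intro v hv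
    show ¬ AY L (v.2.val + 1) ((Fin.rev v.1).val + 1)
    have h1 : v.2.val = 0 := hv.1
    have h2 : v.1.val ≤ 1 := hv.2
    have h3 := v.1.isLt
    rw [Fin.val_rev, h1]
    unfold AY
    omega

end Pool.Agent.Helper70.Thr3
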