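import Mathlib
import Pool.Agent.Helper70.Thr3.Conf

/-!
# Threshold three: the order of the places
-/

set_option linter.unusedSectionVars false
set_option linter.unusedVariables false

namespace Pool.Agent.Helper70.Thr3

open Set SimpleGraph Pool.Agent.Helper19.Perco Pool.Agent.Helper70.Duo

variable {k a m N : ℕ}

lemma Gd_preconn (k N : ℕ) : (Gd k N).Preconnected := by
  induction k with
  | zero =>
    intro x y
    have : x = y := funext fun i => i.elim0
    rw [this]
  | succ k ih =>
    exact (consIso k N).preconnected_iff.2 ((pathGraph_preconnected N).boxProd ih)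

lemma closed_conn {V : Type*} {G : SimpleGraph V} (h : G.Preconnected) (S : Set V) {x : V}
    (hx : x ∈ S) (hcl : ∀ y ∈ S, ∀ y', G.Adj y y' → y' ∈ S) (y : V) : y ∈ S := by
  obtain ⟨w⟩ := h x y
  induction w with
  | nil => exact hx
  | cons h p ih => exact ih (hcl _ hx _ h)

lemma adj_cons {x y : Fin (a + 1) → Fin N} : (Gd (a + 1) N).Adj x y ↔
    (((x 0).val + 1 = (y 0).val ∨ (y 0).val + 1 = (x 0).val) ∧ ∀ i : Fin a, x i.succ = y i.succ) ∨
      (x 0 = y 0 ∧ (Gd a N).Adj (fun i => x i.succ) (fun i => y i.succ)) := by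
  rw [← (consIso a N).map_adj_iff]
  show (pathGraph N □ Gd a N).Adj (x 0, fun i => x i.succ) (y 0, fun i => y i.succ) ↔ _
  rw [boxProd_adj, pathGraph_adj]
  constructor
  · rintro (⟨h1, h2⟩ | ⟨h1, h2⟩)
    · exact Or.inl ⟨h1, fun i => congrFun h2 i⟩
    · exact Or.inr ⟨h2, h1⟩
  · rintro (⟨h1, h2⟩ | ⟨h1, h2⟩)
    · exact Or.inl ⟨h1, funext h2⟩
    · exact Or.inr ⟨h2, h1⟩

lemma adj_close {x y : Fin k → Fin N} (h : (Gd k N).Adj x y) (c : Fin k) :
    (x c).val ≤ (y c).val + 1 ∧ (y c).val ≤ (x c).val + 1 := by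
  obtain ⟨i, h1, h2⟩ := h
  by_cases hc : c = i
  · subst hc; omega
  · rw [h2 c hc]; omega

/-- Hamiltonian paths -/
lemma ham (hN : 0 < N) : ∀ a, ∃ p : ℕ → (Fin a → Fin N),
    (∀ i < N ^ a, ∀ j < N ^ a, p i = p j → i = j) ∧
    ∀ i, i + 1 < N ^ a → (Gd a N).Adj (p i) (p (i + 1)) := by
  intro a
  induction a with
  | zero =>
    refine ⟨fun _ i => i.elim0, ?_, ?_⟩
    · intro i hi j hj _
      rw [pow_zero] at hi hj
      omega
    · intro i hi
      rw [pow_zero] at hi
      omega
  | succ a ih =>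
    obtain ⟨p, hp1, hp2⟩ := ih
    set H := N ^ a with hH
    have hH0 : 0 < H := Nat.pow_pos hN
    have hpow : N ^ (a + 1) = H * N := by rw [pow_succ]
    refine ⟨fun i => Fin.cons ⟨(i / H) % N, Nat.mod_lt _ hN⟩
      (p (if (i / H) % 2 = 0 then i % H else H - 1 - i % H)), ?_, ?_⟩
    · intro i hi j hj he
      rw [hpow] at hi hj
      have hi' : i / H < N := Nat.div_lt_of_lt_mul hi
      have hj' : j / H < N := Nat.div_lt_of_lt_mul hj
      have ri := Nat.mod_lt i hH0
      have rj := Nat.mod_lt j hH0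
      have h0 : (i / H) % N = (j / H) % N := congrArg Fin.val (congrFun he 0)
      rw [Nat.mod_eq_of_lt hi', Nat.mod_eq_of_lt hj'] at h0
      have h1 : p (if (i / H) % 2 = 0 then i % H else H - 1 - i % H) =
          p (if (j / H) % 2 = 0 then j % H else H - 1 - j % H) := by
        funext c
        exact congrFun he c.succ
      rw [h0] at h1
      have h2 := hp1 _ (by split_ifs <;> omega) _ (by split_ifs <;> omega) h1
      have h3 : i % H = j % H := by
        split_ifs at h2 <;> omega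
      rw [← Nat.div_add_mod i H, ← Nat.div_add_mod j H, h0, h3]
    · intro i hi
      rw [hpow] at hi
      have ri := Nat.mod_lt i hH0
      have hdm := Nat.div_add_mod i H
      have hz : i / H < N := Nat.div_lt_of_lt_mul (by omega)
      rw [adj_cons]
      show (((i / H) % N + 1 = ((i + 1) / H) % N ∨ ((i + 1) / H) % N + 1 = (i / H) % N) ∧ _) ∨ _
      rcases Nat.lt_or_ge (i % H + 1) H with h1 | h1
      · obtain ⟨h2, h3⟩ := (Nat.div_mod_unique (a := i + 1) (d := i / H) (c := i % H + 1) hH0).2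
          ⟨by omega, h1⟩
        right
        refine ⟨?_, ?_⟩
        · show (⟨(i / H) % N, _⟩ : Fin N) = ⟨((i + 1) / H) % N, _⟩
          apply Fin.ext
          show (i / H) % N = ((i + 1) / H) % N
          rw [h2]
        · show (Gd a N).Adj (p (if (i / H) % 2 = 0 then i % H else H - 1 - i % H))
            (p (if ((i + 1) / H) % 2 = 0 then (i + 1) % H else H - 1 - (i + 1) % H))
          rw [h2, h3]
          split_ifs with h4
          · exact hp2 _ h1
          · have h5 := hp2 (H - 1 - (i % H + 1)) (by omega)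
            have e : H - 1 - (i % H + 1) + 1 = H - 1 - i % H := by omega
            rw [e] at h5
            exact h5.symm
      · have hr : i % H = H - 1 := by omega
        have hmul : H * (i / H + 1) = H * (i / H) + H := by ring
        obtain ⟨h2, h3⟩ := (Nat.div_mod_unique (a := i + 1) (d := i / H + 1) (c := 0) hH0).2
          ⟨by omega, hH0⟩
        have hz1 : i / H + 1 < N := by
          by_contra h
          have : H * N ≤ H * (i / H + 1) := Nat.mul_le_mul_left _ (by omega)
          omega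
        left
        refine ⟨Or.inl ?_, ?_⟩
        · rw [h2, Nat.mod_eq_of_lt hz, Nat.mod_eq_of_lt hz1]
        · intro c
          show p (if (i / H) % 2 = 0 then i % H else H - 1 - i % H) c =
            p (if ((i + 1) / H) % 2 = 0 then (i + 1) % H else H - 1 - (i + 1) % H) c
          rw [h2, h3, hr]
          have : (if i / H % 2 = 0 then H - 1 else H - 1 - (H - 1)) =
              (if (i / H + 1) % 2 = 0 then 0 else H - 1 - 0) := by
            split_ifs <;> omega
          rw [this]

/-- order inside a row -/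
def qq (Q i : ℕ) : ℕ := if i < Q then 2 * i + 1 else 4 * Q - 4 - 2 * i

lemma qq_le {Q i : ℕ} (hQ : 4 ≤ Q) (hi : i < 2 * Q - 3) : 1 ≤ qq Q i ∧ qq Q i ≤ 2 * Q - 1 := by
  unfold qq; split_ifs <;> omega

lemma qq_inj {Q i j : ℕ} (hQ : 4 ≤ Q) (hi : i < 2 * Q - 3) (hj : j < 2 * Q - 3)
    (h : qq Q i = qq Q j) : i = j := by
  unfold qq at h; split_ifs at h <;> omega

lemma qq_step {Q i : ℕ} (hQ : 4 ≤ Q) (hi : i + 1 < 2 * Q - 3) :
    qq Q (i + 1) = qq Q i + 2 ∨ qq Q i = qq Q (i + 1) + 3 ∨ qq Q i = qq Q (i + 1) + 2 := by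
  unfold qq; split_ifs <;> omega

/-- weight of a row -/
def wr (ρ : Fin a → Fin N) : ℕ := ∑ i, (i.val + 2) * (ρ i).val

lemma wt_cons (u : Fin N) (ρ : Fin a → Fin N) :
    wt (Fin.cons u ρ : Fin (a + 1) → Fin N) = u.val + wr ρ := by
  unfold wt wr
  rw [Fin.sum_univ_succ]
  congr 1
  · show (0 + 1) * u.val = u.val
    omega

/-- the order -/
theorem exists_seq (a : ℕ) {Q N : ℕ} (hQ : 4 ≤ Q) (hN : N = (a + 2) * (2 * Q - 1) + 1) :
    ∃ l : ℕ → (Fin (a + 1) → Fin N),
      (∀ i < N ^ a * (2 * Q - 3), ∀ j < N ^ a * (2 * Q - 3), l i = l j → i = j) ∧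
      (∀ i, l i ∈ DD (a + 1) N) ∧
      ∀ i, i + 1 < N ^ a * (2 * Q - 3) →
        ((∀ c : Fin a, l i c.succ = l (i + 1) c.succ) ∨
          (Gd a N).Adj (fun c => l i c.succ) (fun c => l (i + 1) c.succ)) ∧
        ((l i 0).val + 3 ≤ (l (i + 1) 0).val ∨ (l (i + 1) 0).val + 3 ≤ (l i 0).val) ∧
        (l (i + 1) 0).val ≤ (l i 0).val + 4 * (a + 2) ∧
        (l i 0).val ≤ (l (i + 1) 0).val + 4 * (a + 2) := by
  have hN0 : 0 < N := by omega
  obtain ⟨p, hp1, hp2⟩ := ham hN0 a
  set W := 2 * Q - 3 with hW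
  have hW0 : 0 < W := by omega
  set m := a + 2 with hm
  have hqlt : ∀ i, 1 ≤ qq Q (i % W) ∧ qq Q (i % W) ≤ 2 * Q - 1 := fun i =>
    qq_le hQ (Nat.mod_lt _ hW0)
  have hrlt : ∀ x, x % m < m := fun x => Nat.mod_lt _ (by omega)
  have hmq : ∀ i, m ≤ m * qq Q (i % W) ∧ m * qq Q (i % W) < N := by
    intro i
    have h1 := Nat.mul_le_mul_left m (hqlt i).1
    have h2 := Nat.mul_le_mul_left m (hqlt i).2
    omega
  set l : ℕ → (Fin (a + 1) → Fin N) := fun i =>
    Fin.cons ⟨m * qq Q (i % W) - wr (p (i / W)) % m, by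
      have := hmq i; omega⟩ (p (i / W)) with hl
  have l0 : ∀ i, (l i 0).val = m * qq Q (i % W) - wr (p (i / W)) % m := fun i => rfl
  have ls : ∀ i, (fun c : Fin a => l i c.succ) = p (i / W) := fun i => rfl
  refine ⟨l, ?_, ?_, ?_⟩
  · intro i hi j hj he
    have hi' : i / W < N ^ a := Nat.div_lt_of_lt_mul (by rw [Nat.mul_comm]; exact hi)
    have hj' : j / W < N ^ a := Nat.div_lt_of_lt_mul (by rw [Nat.mul_comm]; exact hj)
    have h1 : p (i / W) = p (j / W) := by rw [← ls, ← ls, he]
    have h2 := hp1 _ hi' _ hj' h1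
    have h3 : (l i 0).val = (l j 0).val := by rw [he]
    rw [l0, l0, h2] at h3
    have h4 := hrlt (wr (p (j / W)))
    have h5 := (hmq i).1
    have h6 := (hmq j).1
    have h7 : m * qq Q (i % W) = m * qq Q (j % W) := by omega
    have h8 := Nat.eq_of_mul_eq_mul_left (by omega : 0 < m) h7
    have h9 := qq_inj hQ (Nat.mod_lt _ hW0) (Nat.mod_lt _ hW0) h8
    rw [← Nat.div_add_mod i W, ← Nat.div_add_mod j W, h2, h9]
  · intro i
    show a + 1 + 1 ∣ wt (l i)
    rw [hl]
    rw [wt_cons]
    show m ∣ (m * qq Q (i % W) - wr (p (i / W)) % m) + wr (p (i / W))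
    have h1 := hrlt (wr (p (i / W)))
    have h2 := (hmq i).1
    have h3 := Nat.div_add_mod (wr (p (i / W))) m
    have e : (m * qq Q (i % W) - wr (p (i / W)) % m) + wr (p (i / W)) =
        m * qq Q (i % W) + m * (wr (p (i / W)) / m) := by omega
    rw [e]
    exact dvd_add (dvd_mul_right _ _) (dvd_mul_right _ _)
  · intro i hi
    have ri := Nat.mod_lt i hW0
    have hdm := Nat.div_add_mod i W
    rcases Nat.lt_or_ge (i % W + 1) W with h1 | h1
    · obtain ⟨h2, h3⟩ := (Nat.div_mod_unique (a := i + 1) (d := i / W) (c := i % W + 1) hW0).2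
        ⟨by omega, h1⟩
      refine ⟨Or.inl ?_, ?_⟩
      · intro c
        show p (i / W) c = p ((i + 1) / W) c
        rw [h2]
      · have h4 := hrlt (wr (p (i / W)))
        have h5 := (hmq i).1
        have h6 := (hmq (i + 1)).1
        rw [l0, l0, h2]
        rw [h3] at h6 ⊢
        rcases qq_step (Q := Q) hQ (i := i % W) h1 with h7 | h7 | h7
        · have e : m * qq Q (i % W + 1) = m * qq Q (i % W) + 2 * m := by rw [h7]; ring
          rw [e] at h6 ⊢
          omega
        · have e : m * qq Q (i % W) = m * qq Q (i % W + 1) + 3 * m := by rw [h7]; ring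
          rw [e] at h5 ⊢
          omega
        · have e : m * qq Q (i % W) = m * qq Q (i % W + 1) + 2 * m := by rw [h7]; ring
          rw [e] at h5 ⊢
          omega
    · have hr : i % W = W - 1 := by omega
      have hmul : W * (i / W + 1) = W * (i / W) + W := by ring
      obtain ⟨h2, h3⟩ := (Nat.div_mod_unique (a := i + 1) (d := i / W + 1) (c := 0) hW0).2
        ⟨by omega, hW0⟩
      have hz1 : i / W + 1 < N ^ a := by
        by_contra h
        have h4 : W * N ^ a ≤ W * (i / W + 1) := Nat.mul_le_mul_left _ (by omega)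
        rw [Nat.mul_comm W (N ^ a)] at h4
        omega
      refine ⟨Or.inr ?_, ?_⟩
      · rw [ls, ls, h2]
        exact hp2 _ hz1
      · have h4 := hrlt (wr (p (i / W)))
        have h5 := hrlt (wr (p (i / W + 1)))
        rw [l0, l0, h2, h3, hr]
        have e1 : qq Q (W - 1) = 4 := by unfold qq; rw [if_neg (by omega)]; omega
        have e2 : qq Q 0 = 1 := by unfold qq; rw [if_pos (by omega)]
        rw [e1, e2]
        omega

end Pool.Agent.Helper70.Thr3
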