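import Mathlib
import Pool.Agent.Helper70.Thr3.Conf2
import Pool.Agent.Helper70.Thr3.Def

namespace Pool.Agent.Helper70.Duo
end Pool.Agent.Helper70.Duo

/-!
# Threshold three: the configuration
-/

set_option linter.unusedSectionVars false
set_option linter.unusedVariables false

namespace Pool.Agent.Helper70.Thr3

open Set SimpleGraph Pool.Agent.Helper19.Perco Pool.Agent.Helper70.Duo

variable {k a m N : ℕ}

/-- the places with the tail of `x` and first coordinate between those of `x` and `y` -/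
def Seg (x y : Fin (a + 1) → Fin N) : Set (Fin (a + 1) → Fin N) :=
  {z | (∀ c : Fin a, z c.succ = x c.succ) ∧
    (((x 0).val ≤ (z 0).val ∧ (z 0).val ≤ (y 0).val) ∨
      ((y 0).val ≤ (z 0).val ∧ (z 0).val ≤ (x 0).val))}

/-- a path -/
def PP (x y : Fin (a + 1) → Fin N) : Set (Fin (a + 1) → Fin N) := insert y (Seg x y)

lemma ext_tail {x y : Fin (a + 1) → Fin N} (h0 : (x 0).val = (y 0).val)
    (h : ∀ c : Fin a, x c.succ = y c.succ) : x = y := by
  funext c
  refine Fin.cases ?_ (fun c => ?_) c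
  · exact Fin.ext h0
  · exact h c

lemma Seg_left (x y : Fin (a + 1) → Fin N) : x ∈ Seg x y := ⟨fun _ => rfl, by omega⟩

lemma Seg_one {x y v : Fin (a + 1) → Fin N} (h : ¬ ∀ c : Fin a, v c.succ = x c.succ) :
    cnt (Gd (a + 1) N) (Seg x y) v ≤ 1 := by
  have key : ∀ u ∈ Seg x y, (Gd (a + 1) N).Adj v u → (v 0).val = (u 0).val := by
    intro u hu hadj
    rw [adj_cons] at hadj
    rcases hadj with h1 | h1
    · exact absurd (fun c => (h1.2 c).trans (hu.1 c)) h
    · rw [h1.1]
  apply cnt_le_one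
  intro u hu w hw h1 h2
  exact ext_tail ((key u hu h1).symm.trans (key w hw h2)) (fun c => (hu.1 c).trans (hw.1 c).symm)

lemma Seg_end {x y v : Fin (a + 1) → Fin N} (h0 : (v 0).val = (y 0).val) :
    cnt (Gd (a + 1) N) (Seg x y) v ≤ 1 := by
  by_cases h : ∀ c : Fin a, v c.succ = x c.succ
  · apply cnt_le_one
    intro u hu w hw h1 h2
    apply ext_tail ?_ (fun c => (hu.1 c).trans (hw.1 c).symm)
    have key : ∀ u ∈ Seg x y, (Gd (a + 1) N).Adj v u →
        (v 0).val + 1 = (u 0).val ∨ (u 0).val + 1 = (v 0).val := by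
      intro u hu hadj
      rw [adj_cons] at hadj
      rcases hadj with h1 | h1
      · exact h1.1
      · exfalso
        obtain ⟨i, h3, h4⟩ := h1.2
        have h3' : (v i.succ).val + 1 = (u i.succ).val ∨ (u i.succ).val + 1 = (v i.succ).val := h3
        rw [h i, hu.1 i] at h3'
        omega
    have h3 := key u hu h1
    have h4 := key w hw h2
    have h5 := hu.2
    have h6 := hw.2
    omega
  · exact Seg_one h

lemma Seg_two (x y v : Fin (a + 1) → Fin N) : cnt (Gd (a + 1) N) (Seg x y) v ≤ 2 := by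
  by_cases h : ∀ c : Fin a, v c.succ = x c.succ
  · have hv := (v 0).isLt
    apply cnt_le_two_of _ _ _
      (Fin.cons ⟨min ((v 0).val + 1) (N - 1), by omega⟩ (fun c => x c.succ))
      (Fin.cons ⟨(v 0).val - 1, by omega⟩ (fun c => x c.succ))
    intro u hu hadj
    rw [adj_cons] at hadj
    rcases hadj with h1 | h1
    · rcases h1.1 with h2 | h2
      · left
        apply ext_tail
        · show (u 0).val = min ((v 0).val + 1) (N - 1)
          have := (u 0).isLt
          omega
        · intro c; exact hu.1 c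
      · right
        apply ext_tail
        · show (u 0).val = (v 0).val - 1
          omega
        · intro c; exact hu.1 c
    · exfalso
      obtain ⟨i, h3, h4⟩ := h1.2
      have h3' : (v i.succ).val + 1 = (u i.succ).val ∨ (u i.succ).val + 1 = (v i.succ).val := h3
      rw [h i, hu.1 i] at h3'
      omega
  · exact (Seg_one h).trans (by omega)

/-- the relation between consecutive places -/
def Nx (x y : Fin (a + 1) → Fin N) : Prop :=
  (∀ c : Fin a, x c.succ = y c.succ) ∨
    (Gd a N).Adj (fun c => x c.succ) (fun c => y c.succ)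

lemma PP_geo {x y : Fin (a + 1) → Fin N} (v : Fin (a + 1) → Fin N) :
    cnt (Gd (a + 1) N) (PP x y) v ≤ 2 := by
  by_cases h0 : (v 0).val = (y 0).val
  · exact (cnt_insert_le _ _ _ _).trans (Nat.succ_le_succ (Seg_end h0))
  by_cases h : ∀ c : Fin a, v c.succ = x c.succ
  · refine le_trans (cnt_mono_pt _ v ?_) (Seg_two x y v)
    rintro u hadj (hu | hu)
    · subst hu
      rw [adj_cons] at hadj
      rcases hadj with h1 | h1
      · refine ⟨fun c => (h1.2 c).symm.trans (h c), ?_⟩
        omega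
      · exact absurd (congrArg Fin.val h1.1) h0
    · exact hu
  · exact (cnt_insert_le _ _ _ _).trans (Nat.succ_le_succ (Seg_one h))

lemma Seg_in {x y : Fin (a + 1) → Fin N} {S : Set (Fin (a + 1) → Fin N)} (hx : x ∈ S)
    (hcl : ∀ u ∈ S, ∀ v ∈ PP x y, (Gd (a + 1) N).Adj u v → v ∈ S) :
    ∀ n, ∀ z ∈ Seg x y, (z 0).val ≤ (x 0).val + n → (x 0).val ≤ (z 0).val + n → z ∈ S := by
  intro n
  induction n with
  | zero =>
    intro z hz h1 h2
    have : z = x := ext_tail (by omega) hz.1
    rw [this]; exact hx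
  | succ n ih =>
    intro z hz h1 h2
    have hz0 := (z 0).isLt
    rcases Nat.lt_trichotomy (z 0).val (x 0).val with h3 | h3 | h3
    · have hx0 := (x 0).isLt
      have h4 := ih (Fin.cons ⟨(z 0).val + 1, by omega⟩ (fun c => z c.succ)) ⟨fun c => hz.1 c, by
        have := hz.2
        show (((x 0).val ≤ (z 0).val + 1 ∧ (z 0).val + 1 ≤ (y 0).val) ∨
          ((y 0).val ≤ (z 0).val + 1 ∧ (z 0).val + 1 ≤ (x 0).val))
        omega⟩ (by show (z 0).val + 1 ≤ _; omega) (by show _ ≤ (z 0).val + 1 + n; omega)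
      apply hcl _ h4 z (Or.inr hz)
      rw [adj_cons]
      left
      exact ⟨Or.inr rfl, fun c => rfl⟩
    · have : z = x := ext_tail (by omega) hz.1
      rw [this]; exact hx
    · have h4 := ih (Fin.cons ⟨(z 0).val - 1, by omega⟩ (fun c => z c.succ)) ⟨fun c => hz.1 c, by
        have := hz.2
        show (((x 0).val ≤ (z 0).val - 1 ∧ (z 0).val - 1 ≤ (y 0).val) ∨
          ((y 0).val ≤ (z 0).val - 1 ∧ (z 0).val - 1 ≤ (x 0).val))
        omega⟩ (by show (z 0).val - 1 ≤ _; omega) (by show _ ≤ (z 0).val - 1 + n; omega)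
      apply hcl _ h4 z (Or.inr hz)
      rw [adj_cons]
      left
      exact ⟨Or.inl (by show (z 0).val - 1 + 1 = (z 0).val; omega), fun c => rfl⟩

lemma PP_walk {x y : Fin (a + 1) → Fin N} (hn : Nx x y) {S : Set (Fin (a + 1) → Fin N)}
    (hx : x ∈ S) (hcl : ∀ u ∈ S, ∀ v ∈ PP x y, (Gd (a + 1) N).Adj u v → v ∈ S) : y ∈ S := by
  have h1 := Seg_in hx hcl N (Fin.cons (y 0) (fun c => x c.succ)) ⟨fun c => rfl, by
    show (((x 0).val ≤ (y 0).val ∧ (y 0).val ≤ (y 0).val) ∨
          ((y 0).val ≤ (y 0).val ∧ (y 0).val ≤ (x 0).val))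
    omega⟩ (by have := (y 0).isLt; show (y 0).val ≤ _; omega)
      (by have := (x 0).isLt; show _ ≤ (y 0).val + N; omega)
  rcases hn with h2 | h2
  · have : (Fin.cons (y 0) (fun c => x c.succ) : Fin (a + 1) → Fin N) = y := by
      apply ext_tail (by rfl)
      intro c; exact h2 c
    rwa [this] at h1
  · apply hcl _ h1 y (Or.inl rfl)
    rw [adj_cons]
    right
    exact ⟨rfl, h2⟩

lemma PP_ext {x y : Fin (a + 1) → Fin N} {b : ℕ} (hn : Nx x y) (hb : 1 ≤ b)
    (h1 : (x 0).val ≤ (y 0).val + b) (h2 : (y 0).val ≤ (x 0).val + b) {u : Fin (a + 1) → Fin N}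
    (hu : u ∈ PP x y) (c : Fin (a + 1)) :
    (u c).val ≤ (x c).val + b ∧ (x c).val ≤ (u c).val + b := by
  rcases hu with hu | hu
  · subst hu
    revert c
    refine Fin.cases ?_ (fun c => ?_)
    · exact ⟨h2, h1⟩
    · rcases hn with h3 | h3
      · rw [h3 c]; omega
      · have := adj_close h3 c
        omega
  · revert c
    refine Fin.cases ?_ (fun c => ?_)
    · have := hu.2
      omega
    · rw [hu.1 c]; omega

/-- the configuration -/
theorem exists_YD (a : ℕ) : ∃ C : ℕ, ∀ Q N : ℕ, 4 ≤ Q → N = (a + 2) * (2 * Q - 1) + 1 →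
    ∃ X : YD (Gd (a + 1) N), X.C = C ∧ X.F + 1 = N ^ a * (2 * Q - 3) := by
  set B := 8 * (a + 2) + 3 with hB
  refine ⟨Fintype.card (Fin (a + 1) → Fin B), ?_⟩
  intro Q N hQ hN
  obtain ⟨l, hl1, hl2, hl3⟩ := exists_seq a hQ hN
  have hm : 2 * 7 ≤ (a + 2) * (2 * Q - 1) := Nat.mul_le_mul (by omega) (by omega)
  have hpos : 0 < N ^ a := Nat.pow_pos (by omega)
  have hR : 5 ≤ N ^ a * (2 * Q - 3) := by
    calc 5 = 1 * 5 := rfl
      _ ≤ N ^ a * (2 * Q - 3) := Nat.mul_le_mul hpos (by omega)
  obtain ⟨F, hF⟩ : ∃ F, F + 1 = N ^ a * (2 * Q - 3) := ⟨N ^ a * (2 * Q - 3) - 1, by omega⟩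
  rw [← hF] at hl1 hl3
  set l' : ℕ → (Fin (a + 1) → Fin N) := fun j => l (min j F) with hl'
  have hle : ∀ j ≤ F, l' j = l j := fun j hj => by rw [hl']; simp only [min_eq_left hj]
  have hnx : ∀ j ≤ F, Nx (l' j) (l' (j + 1)) ∧ (l' j 0).val ≤ (l' (j + 1) 0).val + 4 * (a + 2) ∧
      (l' (j + 1) 0).val ≤ (l' j 0).val + 4 * (a + 2) := by
    intro j hj
    rcases Nat.lt_or_ge j F with h1 | h1
    · rw [hle j hj, hle (j + 1) h1]
      obtain ⟨h2, h3, h4, h5⟩ := hl3 j (by omega)
      exact ⟨h2, h5, h4⟩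
    · have e1 : l' (j + 1) = l' j := by
        rw [hl']
        show l (min (j + 1) F) = l (min j F)
        congr 1; omega
      rw [e1]
      exact ⟨Or.inl (fun _ => rfl), by omega, by omega⟩
  have hinj : ∀ i ≤ F, ∀ j ≤ F, l' i = l' j → i = j := by
    intro i hi j hj h
    rw [hle i hi, hle j hj] at h
    exact hl1 i (by omega) j (by omega) h
  let code : ℕ → (Fin (a + 1) → Fin B) := fun j c => ⟨(l' j c).val % B, Nat.mod_lt _ (by omega)⟩
  refine ⟨
    { F := F
      hF := by omega
      line := l'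
      D := DD (a + 1) N
      P := fun j => PP (l' j) (l' (j + 1))
      col := fun j => (Fintype.equivFin _ (code j)).val
      C := Fintype.card (Fin (a + 1) → Fin B)
      rk := rkD
      inj := hinj
      lineD := fun i _ => hl2 _
      indep := DD_indep
      two := DD_two
      rank := DD_rank (by omega) ?_
      colC := fun j _ => (Fintype.equivFin _ (code j)).isLt
      P0 := fun j _ => Or.inr (Seg_left _ _)
      P1 := fun j _ => Or.inl rfl
      geo := fun j _ u => PP_geo u
      far := ?_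
      ends := ?_
      walk := fun j hj S h1 h2 => PP_walk (hnx j hj.le).1 h1 h2
      conn := fun S h1 h2 y => closed_conn (Gd_preconn _ _) S h1 h2 y }, rfl, hF⟩
  · intro ha
    have : a = 0 := by omega
    subst this
    omega
  · intro i hi j hj hij hcol
    have hcode : code i = code j := (Fintype.equivFin _).injective (Fin.ext hcol)
    have hne : l' i ≠ l' j := fun h => hij (hinj i hi j hj h)
    obtain ⟨c, hc⟩ : ∃ c, l' i c ≠ l' j c := by
      by_contra h
      push Not at h
      exact hne (funext h)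
    have hmod : (l' i c).val ≡ (l' j c).val [MOD B] := congrArg Fin.val (congrFun hcode c)
    have hfar : (l' i c).val + B ≤ (l' j c).val ∨ (l' j c).val + B ≤ (l' i c).val := by
      rcases Nat.lt_trichotomy (l' i c).val (l' j c).val with h | h | h
      · exact Or.inl (hmod.add_le_of_lt h)
      · exact absurd (Fin.ext h) hc
      · exact Or.inr (hmod.symm.add_le_of_lt h)
    intro u hu v hv
    obtain ⟨n1, n2, n3⟩ := hnx i hi
    obtain ⟨n4, n5, n6⟩ := hnx j hj
    have e1 := PP_ext n1 (by omega) n2 n3 hu c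
    have e2 := PP_ext n4 (by omega) n5 n6 hv c
    refine ⟨?_, ?_, ?_⟩
    · rintro rfl
      omega
    · intro hadj
      have := adj_close hadj c
      omega
    · rintro x ⟨h1, h2⟩
      have h3 := adj_close h1 c
      have h4 := adj_close h2 c
      omega
  · intro j hj u hu
    have h1 := adj_close hu.1 0
    have h2 := adj_close hu.2 0
    rw [hle j hj.le] at h1
    rw [hle (j + 1) hj] at h2
    obtain ⟨_, h3, _, _⟩ := hl3 j (by omega)
    omega

end Pool.Agent.Helper70.Thr3
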