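import Mathlib
import Pool.Agent.Helper70.Thr3.Hole

/-!
# Threshold three: the barrier in the plane of the links
-/

set_option linter.unusedSectionVars false
set_option linter.unusedVariables false

namespace Pool.Agent.Helper70.Thr3

open Set SimpleGraph Pool.Agent.Helper19.Perco Pool.Agent.Helper70.Duo

namespace YD

private lemma ivc {p q : Prop} (h : iv p ≤ iv q) : iv p = 0 ∨ (iv p ≤ 1 ∧ q) := by
  by_cases hq : q
  · exact Or.inr ⟨iv_le p, hq⟩
  · rw [iv_zero hq] at h
    exact Or.inl (by omega)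

variable {Y : Type} {GY : SimpleGraph Y} {X : YD GY} {dur t s h α β : ℕ} {y : Y}

lemma mem5 (hm : X.memH dur t s 5 α 0 y) : ∃ j, X.arc s y j ∧
    ((α + 1 = X.pt j ∨ α = X.pt j + 1) ∨ (α = X.pt j ∧ (j + 1) * dur ≤ t)) := by
  rcases hm with (h1 | h1 | ⟨_, j, h1, h2⟩ | ⟨_, _, j, h1, h2⟩ | h1 | h1) | ⟨j, ⟨_, h1⟩, h2⟩
  · omega
  · omega
  · exact ⟨j, port_arc h1, Or.inl (by unfold PS at h2; omega)⟩
  · exact ⟨j, h1, Or.inl h2⟩
  · omega
  · omega
  · rcases h1 with h1 | h1
    · omega
    · exact ⟨j, h1.2.2, Or.inr ⟨h1.2.1, h2⟩⟩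

lemma mem4 (hm : X.memH dur t s 4 α 0 y) : (∃ j, X.port s y j ∧
    ((α + 1 = X.pt j ∨ α = X.pt j + 1) ∨ (α = X.pt j ∧ (j + 1) * dur ≤ t))) ∨
    (s = 0 ∧ α = X.tf) := by
  rcases hm with (h1 | h1 | ⟨_, j, h1, h2⟩ | h1 | h1 | h1) | ⟨j, ⟨_, h1⟩, h2⟩
  · omega
  · omega
  · exact Or.inl ⟨j, h1, Or.inl (by unfold PS at h2; omega)⟩
  · omega
  · exact Or.inr ⟨h1.1, by omega⟩
  · omega
  · rcases h1 with h1 | h1
    · exact Or.inl ⟨j, h1.1, Or.inr ⟨by omega, h2⟩⟩
    · omega

lemma mem3 (hm : X.memH dur t s 3 α 0 y) : (∃ j, X.port s y j ∧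
    ((1 ≤ α ∧ α + 1 ≤ X.pt j) ∨ α = X.pt j + 1 ∨ (α = X.pt j ∧ (j + 1) * dur ≤ t))) ∨
    (s = 0 ∧ α + 1 = X.tf) := by
  rcases hm with (h1 | h1 | ⟨_, j, h1, h2⟩ | h1 | h1 | h1) | ⟨j, ⟨_, h1⟩, h2⟩
  · omega
  · omega
  · exact Or.inl ⟨j, h1, by unfold PS at h2; omega⟩
  · omega
  · exact Or.inr ⟨h1.1, by omega⟩
  · omega
  · rcases h1 with h1 | h1
    · exact Or.inl ⟨j, h1.1, Or.inr (Or.inr ⟨by omega, h2⟩)⟩
    · omega

lemma mem2 (hm : X.memH dur t s 2 α 0 y) : (∃ j, X.port s y j ∧
    (α = 0 ∨ α = X.pt j + 1 ∨ (1 ≤ α ∧ α ≤ X.pt j ∧ (j + 1) * dur ≤ t))) ∨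
    (s = 0 ∧ α = X.tf + 1 ∧ y ∈ X.D) := by
  rcases hm with (h1 | h1 | ⟨_, j, h1, h2⟩ | h1 | h1 | h1) | ⟨j, ⟨_, h1⟩, h2⟩
  · omega
  · omega
  · exact Or.inl ⟨j, h1, by unfold PS at h2; omega⟩
  · omega
  · refine Or.inr ⟨h1.1, ?_⟩
    rcases h1.2.2 with h3 | h3 | h3
    · omega
    · omega
    · exact h3.2
  · omega
  · rcases h1 with h1 | h1
    · exact Or.inl ⟨j, h1.1, Or.inr (Or.inr ⟨by omega, by omega, h2⟩)⟩
    · omega

lemma seed_arc {j : ℕ} (hj : X.arc s y j) (h : α + 1 = X.pt j ∨ α = X.pt j + 1) :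
    X.memH dur t s 5 α 0 y := Or.inl (Or.inr (Or.inr (Or.inr (Or.inl ⟨rfl, rfl, j, hj, h⟩))))

lemma seed_port {j : ℕ} (hj : X.port s y j) (h' : PS h α (X.pt j)) :
    X.memH dur t s h α 0 y := Or.inl (Or.inr (Or.inr (Or.inl ⟨rfl, j, hj, h'⟩)))

lemma seed_sheet (h' : s = 0 ∧ ((h = 3 ∧ α + 1 = X.tf) ∨ (h = 4 ∧ α = X.tf) ∨
    (h = 2 ∧ α = X.tf + 1 ∧ y ∈ X.D))) : X.memH dur t s h α 0 y :=
  Or.inl (Or.inr (Or.inr (Or.inr (Or.inr (Or.inl ⟨h'.1, rfl, h'.2⟩)))))

lemma late_arc {j : ℕ} (hv : ¬ X.memH dur (t + 1) s 5 α 0 y) (hj : X.arc s y j) (h : α = X.pt j) :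
    ¬ (j + 1) * dur ≤ t := fun h2 =>
  hv (Or.inr ⟨j, ⟨rfl, Or.inr ⟨rfl, h, hj⟩⟩, by omega⟩)

lemma late_port {j : ℕ} (hv : ¬ X.memH dur (t + 1) s h α 0 y) (hj : X.port s y j)
    (h' : (h = 2 ∧ 1 ≤ α ∧ α ≤ X.pt j) ∨ (3 ≤ h ∧ h ≤ 4 ∧ α = X.pt j)) :
    ¬ (j + 1) * dur ≤ t := fun h2 =>
  hv (Or.inr ⟨j, ⟨rfl, Or.inl ⟨hj, Or.inr h'⟩⟩, by omega⟩)

variable [Finite Y]

/-- level five -/
lemma hc_five (hv : ¬ X.memH dur (t + 1) s 5 α 0 y) : X.HC dur t s 5 α 0 y ≤ 2 := by
  unfold HC
  rw [iv_zero (p := 0 < 0 ∧ X.memH dur t s 5 α (0 - 1) y) (by omega),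
    iv_zero (p := 5 < 5 ∧ X.memH dur t s (5 + 1) α 0 y) (by omega)]
  have hf : iv (X.memH dur t s 5 α (0 + 1) y) ≤ iv (α = 2) := iv_mono (by
    intro h3
    rcases memH_b1 h3 with h4 | h4
    · omega
    · exact h4.1)
  by_cases hA : ∃ j, X.arc s y j ∧ α = X.pt j
  · obtain ⟨j, hj, hα⟩ := hA
    have hlate := late_arc hv hj hα
    have hY : cnt GY {y' | X.memH dur t s 5 α 0 y'} y = 0 := by
      apply cnt_eq_zero
      intro u hu hadj
      obtain ⟨i, hi, h1⟩ := mem5 hu
      have m1 := X.pt_mod i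
      have m2 := X.pt_mod j
      have hpi : X.pt j = X.pt i := by omega
      have := arc_adj hj hi hadj hpi
      subst this
      omega
    have hdn : ¬ X.memH dur t s (5 - 1) α 0 y := by
      intro h3
      rcases mem4 h3 with ⟨i, hi, h1⟩ | h1
      · have m1 := X.pt_mod i
        have m2 := X.pt_mod j
        have hpi : X.pt j = X.pt i := by omega
        have := arc_eq hj (port_arc hi) hpi
        subst this
        omega
      · have := pt_tf hj
        omega
    rw [hY, iv_zero hdn]
    have hge := X.pt_ge j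
    rw [iv_zero (p := α = 2) (by omega)] at hf
    have i1 := iv_le (0 < α ∧ X.memH dur t s 5 (α - 1) 0 y)
    have i2 := iv_le (X.memH dur t s 5 (α + 1) 0 y)
    omega
  · have hn : ∀ j, X.arc s y j → α ≠ X.pt j ∧ α + 1 ≠ X.pt j ∧ α ≠ X.pt j + 1 := by
      intro j hj
      refine ⟨fun h => hA ⟨j, hj, h⟩, fun h => hv (seed_arc hj (Or.inl h)),
        fun h => hv (seed_arc hj (Or.inr h))⟩
    have il : iv (0 < α ∧ X.memH dur t s 5 (α - 1) 0 y) ≤ iv (α % 4 = 1 ∧ 5 ≤ α ∧ α + 2 ≤ X.tf) :=
      iv_mono (by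
        rintro ⟨h0, h3⟩
        obtain ⟨j, hj, h1⟩ := mem5 h3
        have := hn j hj
        have := X.pt_mod j
        have := X.pt_ge j
        have := pt_tf hj
        omega)
    have ir : iv (X.memH dur t s 5 (α + 1) 0 y) ≤ iv (α % 4 = 1 ∧ 5 ≤ α ∧ α + 2 ≤ X.tf) :=
      iv_mono (by
        intro h3
        obtain ⟨j, hj, h1⟩ := mem5 h3
        have := hn j hj
        have := X.pt_mod j
        have := X.pt_ge j
        have := pt_tf hj
        omega)
    have idn : iv (X.memH dur t s (5 - 1) α 0 y) ≤ iv (α = X.tf) := iv_mono (by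
      intro h3
      rcases mem4 h3 with ⟨i, hi, h1⟩ | h1
      · have := hn i (port_arc hi)
        omega
      · exact h1.2)
    have htf := X.tf_mod
    by_cases hz : ∃ u j, GY.Adj y u ∧ X.arc s u j ∧ X.pt j ≤ α + 1 ∧ α ≤ X.pt j + 1
    · obtain ⟨u, j, h1, h2, h3, h4⟩ := hz
      have hY : cnt GY {y' | X.memH dur t s 5 α 0 y'} y ≤ 2 := by
        refine le_trans (cnt_mono_pt GY y ?_) (X.geo j h2.1 y)
        intro u' hadj hu'
        obtain ⟨i, hi, h5⟩ := mem5 hu'
        have m1 := X.pt_mod i
        have m2 := X.pt_mod j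
        have hpi : X.pt i = X.pt j := by omega
        have := arc_two hi h2 hadj h1 hpi
        rw [← this]
        exact hi.2.2
      have m1 := X.pt_mod j
      have m2 := X.pt_ge j
      have m3 := pt_tf h2
      rw [iv_zero (p := α % 4 = 1 ∧ 5 ≤ α ∧ α + 2 ≤ X.tf) (by omega)] at il ir
      rw [iv_zero (p := α = X.tf) (by omega)] at idn
      rw [iv_zero (p := α = 2) (by omega)] at hf
      omega
    · have hY : cnt GY {y' | X.memH dur t s 5 α 0 y'} y = 0 := by
        apply cnt_eq_zero
        intro u hu hadj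
        obtain ⟨i, hi, h1⟩ := mem5 hu
        exact hz ⟨u, i, hadj, hi, by omega, by omega⟩
      rw [hY]
      replace hf := ivc hf
      replace il := ivc il
      replace ir := ivc ir
      replace idn := ivc idn
      omega

/-- level four -/
lemma hc_four (hv : ¬ X.memH dur (t + 1) s 4 α 0 y) : X.HC dur t s 4 α 0 y ≤ 2 := by
  have htf := X.tf_mod
  have htf7 : 7 ≤ X.tf := by unfold tf; omega
  have hnf : ¬ (s = 0 ∧ α = X.tf) := fun h => hv (seed_sheet ⟨h.1, Or.inr (Or.inl ⟨rfl, h.2⟩)⟩)
  unfold HC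
  rw [iv_zero (p := 0 < 0 ∧ X.memH dur t s 4 α (0 - 1) y) (by omega)]
  have hf : iv (X.memH dur t s 4 α (0 + 1) y) ≤ iv (α = 2) := iv_mono (by
    intro h3
    rcases memH_b1 h3 with h4 | h4
    · omega
    · exact h4.1)
  by_cases hy : y ∈ X.D
  · rw [cY_D hy (by omega) hv]
    have iup : iv (4 < 5 ∧ X.memH dur t s (4 + 1) α 0 y) ≤
        iv (α % 4 ≠ 1 ∧ 6 ≤ α ∧ α + 3 ≤ X.tf) := iv_mono (by
      rintro ⟨_, h3⟩
      obtain ⟨j, hj, h1⟩ := mem5 h3
      have := X.pt_mod j
      have := X.pt_ge j
      have := pt_tf hj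
      omega)
    by_cases hp : ∃ j, X.port s y j
    · obtain ⟨j, hj⟩ := hp
      have m1 := X.pt_mod j
      have m2 := X.pt_ge j
      have m3 := pt_tf (port_arc hj)
      have hn : ¬ (α + 1 = X.pt j ∨ α = X.pt j + 1) := fun h =>
        hv (seed_port hj (by unfold PS; omega))
      rcases eq_or_ne α (X.pt j) with hα | hα
      · have hlate := late_port hv hj (Or.inr ⟨by omega, le_rfl, hα⟩)
        have hdn : ¬ X.memH dur t s (4 - 1) α 0 y := by
          intro h3
          rcases mem3 h3 with ⟨i, hi, h1⟩ | h1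
          · have := port_unique hj hi
            subst this
            omega
          · omega
        have hup : ¬ (4 < 5 ∧ X.memH dur t s (4 + 1) α 0 y) := by
          rintro ⟨_, h3⟩
          obtain ⟨i, hi, h1⟩ := mem5 h3
          have m4 := X.pt_mod i
          have hpi : X.pt j = X.pt i := by omega
          have := arc_eq (port_arc hj) hi hpi
          subst this
          omega
        rw [iv_zero hdn, iv_zero hup]
        rw [iv_zero (p := α = 2) (by omega)] at hf
        have i1 := iv_le (0 < α ∧ X.memH dur t s 4 (α - 1) 0 y)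
        have i2 := iv_le (X.memH dur t s 4 (α + 1) 0 y)
        omega
      · have il : iv (0 < α ∧ X.memH dur t s 4 (α - 1) 0 y) ≤
            iv (α = X.pt j + 2 ∨ α = X.tf + 1) := iv_mono (by
          rintro ⟨h0, h3⟩
          rcases mem4 h3 with ⟨i, hi, h1⟩ | h1
          · have := port_unique hj hi
            subst this
            omega
          · omega)
        have ir : iv (X.memH dur t s 4 (α + 1) 0 y) ≤
            iv (α + 2 = X.pt j ∨ α + 1 = X.tf) := iv_mono (by
          intro h3
          rcases mem4 h3 with ⟨i, hi, h1⟩ | h1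
          · have := port_unique hj hi
            subst this
            omega
          · omega)
        have idn : iv (X.memH dur t s (4 - 1) α 0 y) ≤
            iv ((1 ≤ α ∧ α + 1 ≤ X.pt j) ∨ α + 1 = X.tf) := iv_mono (by
          intro h3
          rcases mem3 h3 with ⟨i, hi, h1⟩ | h1
          · have := port_unique hj hi
            subst this
            omega
          · omega)
        replace hf := ivc hf
        replace il := ivc il
        replace ir := ivc ir
        replace idn := ivc idn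
        replace iup := ivc iup
        omega
    · have il : iv (0 < α ∧ X.memH dur t s 4 (α - 1) 0 y) ≤ iv (α = X.tf + 1) := iv_mono (by
          rintro ⟨h0, h3⟩
          rcases mem4 h3 with ⟨i, hi, h1⟩ | h1
          · exact absurd ⟨i, hi⟩ hp
          · omega)
      have ir : iv (X.memH dur t s 4 (α + 1) 0 y) ≤ iv (α + 1 = X.tf) := iv_mono (by
          intro h3
          rcases mem4 h3 with ⟨i, hi, h1⟩ | h1
          · exact absurd ⟨i, hi⟩ hp
          · omega)
      have idn : iv (X.memH dur t s (4 - 1) α 0 y) ≤ iv (α + 1 = X.tf) := iv_mono (by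
          intro h3
          rcases mem3 h3 with ⟨i, hi, h1⟩ | h1
          · exact absurd ⟨i, hi⟩ hp
          · omega)
      replace hf := ivc hf
      replace il := ivc il
      replace ir := ivc ir
      replace idn := ivc idn
      replace iup := ivc iup
      omega
  · have hf0 : ¬ X.memH dur t s 4 α (0 + 1) y := by
      intro h3
      rcases memH_b1 h3 with h4 | h4
      · omega
      · exact hy (by rw [h4.2.2]; exact F_D)
    have il : iv (0 < α ∧ X.memH dur t s 4 (α - 1) 0 y) ≤ iv (s = 0 ∧ α = X.tf + 1) := iv_mono (by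
      rintro ⟨h0, h3⟩
      have := (memH_L hy h3).2
      omega)
    have ir : iv (X.memH dur t s 4 (α + 1) 0 y) ≤ iv (s = 0 ∧ α + 1 = X.tf) := iv_mono (by
      intro h3
      have := (memH_L hy h3).2
      omega)
    have idn : iv (X.memH dur t s (4 - 1) α 0 y) ≤ iv (s = 0 ∧ α + 1 = X.tf) := iv_mono (by
      intro h3
      have := (memH_L hy h3).2
      omega)
    rw [iv_zero hf0]
    by_cases hup : 4 < 5 ∧ X.memH dur t s (4 + 1) α 0 y
    · obtain ⟨j, hj, h1⟩ := mem5 hup.2
      have m1 := X.pt_mod j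
      have m2 := X.pt_ge j
      have m3 := pt_tf hj
      have hY : cnt GY {y' | X.memH dur t s 4 α 0 y'} y ≤ 1 := by
        apply cnt_le_one
        have key : ∀ u, u ∈ {y' | X.memH dur t s 4 α 0 y'} → GY.Adj y u →
            u = X.line j ∨ (j < X.F ∧ u = X.line (j + 1)) := by
          intro u hu hadj
          rcases mem4 hu with ⟨i, hi, h2⟩ | h2
          · have m4 := X.pt_mod i
            have hpi : X.pt j = X.pt i := by omega
            have := arc_adj hj (port_arc hi) hadj hpi
            subst this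
            exact hi.2.2
          · omega
        intro u hu v hv' hadj hadj'
        rcases key u hu hadj with h3 | ⟨h3, h4⟩ <;> rcases key v hv' hadj' with h5 | ⟨h5, h6⟩
        · rw [h3, h5]
        · exact absurd ⟨by rw [← h3]; exact hadj, by rw [← h6]; exact hadj'⟩ (X.ends j h5 y)
        · exact absurd ⟨by rw [← h5]; exact hadj', by rw [← h4]; exact hadj⟩ (X.ends j h3 y)
        · rw [h4, h6]
      have i2 := iv_le (4 < 5 ∧ X.memH dur t s (4 + 1) α 0 y)
      rw [iv_zero (p := s = 0 ∧ α = X.tf + 1) (by omega)] at il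
      rw [iv_zero (p := s = 0 ∧ α + 1 = X.tf) (by omega)] at ir idn
      omega
    · rw [iv_zero hup]
      by_cases hz : s = 0 ∧ (α + 1 = X.tf ∨ α = X.tf + 1)
      · have hY : cnt GY {y' | X.memH dur t s 4 α 0 y'} y = 0 := by
          apply cnt_eq_zero
          intro u hu hadj
          rcases mem4 hu with ⟨i, hi, h2⟩ | h2
          · have := pt_tf (port_arc hi)
            omega
          · omega
        rw [hY]
        replace il := ivc il
        replace ir := ivc ir
        replace idn := ivc idn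
        omega
      · have hY := cY_sub (by omega) hv
        rw [iv_zero (p := s = 0 ∧ α = X.tf + 1) (by omega)] at il
        rw [iv_zero (p := s = 0 ∧ α + 1 = X.tf) (by omega)] at ir idn
        omega

/-- level three -/
lemma hc_three (hv : ¬ X.memH dur (t + 1) s 3 α 0 y) : X.HC dur t s 3 α 0 y ≤ 2 := by
  have htf := X.tf_mod
  have htf7 : 7 ≤ X.tf := by unfold tf; omega
  have hnf : ¬ (s = 0 ∧ α + 1 = X.tf) := fun h => hv (seed_sheet ⟨h.1, Or.inl ⟨rfl, h.2⟩⟩)
  unfold HC
  rw [iv_zero (p := 0 < 0 ∧ X.memH dur t s 3 α (0 - 1) y) (by omega)]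
  have hf : iv (X.memH dur t s 3 α (0 + 1) y) ≤ iv (α = 2) := iv_mono (by
    intro h3
    rcases memH_b1 h3 with h4 | h4
    · omega
    · exact h4.1)
  by_cases hy : y ∈ X.D
  · rw [cY_D hy (by omega) hv]
    by_cases hp : ∃ j, X.port s y j
    · obtain ⟨j, hj⟩ := hp
      have m1 := X.pt_mod j
      have m2 := X.pt_ge j
      have m3 := pt_tf (port_arc hj)
      have hn : ¬ ((1 ≤ α ∧ α + 1 ≤ X.pt j) ∨ α = X.pt j + 1) := fun h =>
        hv (seed_port hj (by unfold PS; omega))
      rcases eq_or_ne α (X.pt j) with hα | hα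
      · have hlate := late_port hv hj (Or.inr ⟨le_rfl, by omega, hα⟩)
        have hdn : ¬ X.memH dur t s (3 - 1) α 0 y := by
          intro h3
          rcases mem2 h3 with ⟨i, hi, h1⟩ | h1
          · have := port_unique hj hi
            subst this
            omega
          · omega
        have hup : ¬ (3 < 5 ∧ X.memH dur t s (3 + 1) α 0 y) := by
          rintro ⟨_, h3⟩
          rcases mem4 h3 with ⟨i, hi, h1⟩ | h1
          · have := port_unique hj hi
            subst this
            omega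
          · omega
        rw [iv_zero hdn, iv_zero hup]
        rw [iv_zero (p := α = 2) (by omega)] at hf
        have i1 := iv_le (0 < α ∧ X.memH dur t s 3 (α - 1) 0 y)
        have i2 := iv_le (X.memH dur t s 3 (α + 1) 0 y)
        omega
      · have il : iv (0 < α ∧ X.memH dur t s 3 (α - 1) 0 y) ≤
            iv (α = X.pt j + 2 ∨ α = X.tf) := iv_mono (by
          rintro ⟨h0, h3⟩
          rcases mem3 h3 with ⟨i, hi, h1⟩ | h1
          · have := port_unique hj hi
            subst this
            omega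
          · omega)
        have ir : iv (X.memH dur t s 3 (α + 1) 0 y) ≤ iv (α = 0 ∨ α + 2 = X.tf) := iv_mono (by
          intro h3
          rcases mem3 h3 with ⟨i, hi, h1⟩ | h1
          · have := port_unique hj hi
            subst this
            omega
          · omega)
        have idn : iv (X.memH dur t s (3 - 1) α 0 y) ≤ iv (α = 0 ∨ α = X.tf + 1) := iv_mono (by
          intro h3
          rcases mem2 h3 with ⟨i, hi, h1⟩ | h1
          · have := port_unique hj hi
            subst this
            omega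
          · omega)
        have iup : iv (3 < 5 ∧ X.memH dur t s (3 + 1) α 0 y) ≤ iv (α = X.tf) := iv_mono (by
          rintro ⟨_, h3⟩
          rcases mem4 h3 with ⟨i, hi, h1⟩ | h1
          · have := port_unique hj hi
            subst this
            omega
          · omega)
        replace hf := ivc hf
        replace il := ivc il
        replace ir := ivc ir
        replace idn := ivc idn
        replace iup := ivc iup
        omega
    · have il : iv (0 < α ∧ X.memH dur t s 3 (α - 1) 0 y) ≤ iv (α = X.tf) := iv_mono (by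
          rintro ⟨h0, h3⟩
          rcases mem3 h3 with ⟨i, hi, h1⟩ | h1
          · exact absurd ⟨i, hi⟩ hp
          · omega)
      have ir : iv (X.memH dur t s 3 (α + 1) 0 y) ≤ iv (α + 2 = X.tf) := iv_mono (by
          intro h3
          rcases mem3 h3 with ⟨i, hi, h1⟩ | h1
          · exact absurd ⟨i, hi⟩ hp
          · omega)
      have idn : iv (X.memH dur t s (3 - 1) α 0 y) ≤ iv (α = X.tf + 1) := iv_mono (by
          intro h3
          rcases mem2 h3 with ⟨i, hi, h1⟩ | h1
          · exact absurd ⟨i, hi⟩ hp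
          · omega)
      have iup : iv (3 < 5 ∧ X.memH dur t s (3 + 1) α 0 y) ≤ iv (α = X.tf) := iv_mono (by
          rintro ⟨_, h3⟩
          rcases mem4 h3 with ⟨i, hi, h1⟩ | h1
          · exact absurd ⟨i, hi⟩ hp
          · omega)
      replace hf := ivc hf
      replace il := ivc il
      replace ir := ivc ir
      replace idn := ivc idn
      replace iup := ivc iup
      omega
  · have hf0 : ¬ X.memH dur t s 3 α (0 + 1) y := by
      intro h3
      rcases memH_b1 h3 with h4 | h4
      · omega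
      · exact hy (by rw [h4.2.2]; exact F_D)
    have il : iv (0 < α ∧ X.memH dur t s 3 (α - 1) 0 y) ≤ iv (s = 0 ∧ α = X.tf) := iv_mono (by
      rintro ⟨h0, h3⟩
      have := (memH_L hy h3).2
      omega)
    have ir : iv (X.memH dur t s 3 (α + 1) 0 y) ≤ iv (s = 0 ∧ α + 2 = X.tf) := iv_mono (by
      intro h3
      have := (memH_L hy h3).2
      omega)
    have hdn : ¬ X.memH dur t s (3 - 1) α 0 y := by
      intro h3
      have := (memH_L hy h3).2
      omega
    have iup : iv (3 < 5 ∧ X.memH dur t s (3 + 1) α 0 y) ≤ iv (s = 0 ∧ α = X.tf) := iv_mono (by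
      rintro ⟨_, h3⟩
      have := (memH_L hy h3).2
      omega)
    rw [iv_zero hf0, iv_zero hdn]
    by_cases hz : s = 0 ∧ (α = X.tf ∨ α + 2 = X.tf)
    · have hY : cnt GY {y' | X.memH dur t s 3 α 0 y'} y = 0 := by
        apply cnt_eq_zero
        intro u hu hadj
        rcases mem3 hu with ⟨i, hi, h2⟩ | h2
        · have := pt_tf (port_arc hi)
          omega
        · omega
      rw [hY]
      replace il := ivc il
      replace ir := ivc ir
      replace iup := ivc iup
      omega
    · have hY := cY_sub (by omega) hv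
      rw [iv_zero (p := s = 0 ∧ α = X.tf) (by omega)] at il iup
      rw [iv_zero (p := s = 0 ∧ α + 2 = X.tf) (by omega)] at ir
      omega

/-- level two -/
lemma hc_two (hv : ¬ X.memH dur (t + 1) s 2 α 0 y) : X.HC dur t s 2 α 0 y ≤ 2 := by
  have htf := X.tf_mod
  have htf7 : 7 ≤ X.tf := by unfold tf; omega
  unfold HC
  rw [iv_zero (p := 0 < 0 ∧ X.memH dur t s 2 α (0 - 1) y) (by omega),
    iv_zero (p := X.memH dur t s 2 α (0 + 1) y) (by
      intro h3
      rcases memH_b1 h3 with h4 | h4
      · omega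
      · omega)]
  by_cases hy : y ∈ X.D
  · rw [cY_D hy (by omega) hv]
    have hnf : ¬ (s = 0 ∧ α = X.tf + 1) := fun h =>
      hv (seed_sheet ⟨h.1, Or.inr (Or.inr ⟨rfl, h.2, hy⟩)⟩)
    by_cases hp : ∃ j, X.port s y j
    · obtain ⟨j, hj⟩ := hp
      have m1 := X.pt_mod j
      have m2 := X.pt_ge j
      have m3 := pt_tf (port_arc hj)
      have hn : ¬ (α = 0 ∨ α = X.pt j + 1) := fun h =>
        hv (seed_port hj (by unfold PS; omega))
      rcases Nat.lt_or_ge (X.pt j) α with hα | hα
      · have il : iv (0 < α ∧ X.memH dur t s 2 (α - 1) 0 y) ≤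
            iv (α = X.pt j + 2 ∨ α = X.tf + 2) := iv_mono (by
          rintro ⟨h0, h3⟩
          rcases mem2 h3 with ⟨i, hi, h1⟩ | h1
          · have := port_unique hj hi
            subst this
            omega
          · omega)
        have ir : iv (X.memH dur t s 2 (α + 1) 0 y) ≤ iv (α = X.tf) := iv_mono (by
          intro h3
          rcases mem2 h3 with ⟨i, hi, h1⟩ | h1
          · have := port_unique hj hi
            subst this
            omega
          · omega)
        have idn := iv_le (X.memH dur t s (2 - 1) α 0 y)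
        have iup : iv (2 < 5 ∧ X.memH dur t s (2 + 1) α 0 y) ≤ iv (α + 1 = X.tf) := iv_mono (by
          rintro ⟨_, h3⟩
          rcases mem3 h3 with ⟨i, hi, h1⟩ | h1
          · have := port_unique hj hi
            subst this
            omega
          · omega)
        replace il := ivc il
        replace ir := ivc ir
        replace iup := ivc iup
        omega
      · have hlate := late_port hv hj (Or.inl ⟨rfl, by omega, hα⟩)
        have il : iv (0 < α ∧ X.memH dur t s 2 (α - 1) 0 y) ≤ iv (α = 1) := iv_mono (by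
          rintro ⟨h0, h3⟩
          rcases mem2 h3 with ⟨i, hi, h1⟩ | h1
          · have := port_unique hj hi
            subst this
            omega
          · omega)
        have ir : iv (X.memH dur t s 2 (α + 1) 0 y) ≤ iv (α = X.pt j) := iv_mono (by
          intro h3
          rcases mem2 h3 with ⟨i, hi, h1⟩ | h1
          · have := port_unique hj hi
            subst this
            omega
          · omega)
        have idn : iv (X.memH dur t s (2 - 1) α 0 y) ≤ iv (2 ≤ α) := iv_mono (by
          intro h3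
          by_contra hlt
          rcases h3 with (h4 | h4 | ⟨_, i, h4, h5⟩ | h4 | h4 | h4) | ⟨i, ⟨_, h4⟩, h5⟩
          · exact h4.2.2 ⟨rfl, by omega, j, hj⟩
          · omega
          · unfold PS at h5; omega
          · omega
          · omega
          · omega
          · rcases h4 with h4 | h4
            · have := port_unique hj h4.1
              subst this
              omega
            · omega)
        have iup : iv (2 < 5 ∧ X.memH dur t s (2 + 1) α 0 y) ≤ iv (α + 1 ≤ X.pt j) := iv_mono (by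
          rintro ⟨_, h3⟩
          rcases mem3 h3 with ⟨i, hi, h1⟩ | h1
          · have := port_unique hj hi
            subst this
            omega
          · omega)
        replace il := ivc il
        replace ir := ivc ir
        replace idn := ivc idn
        replace iup := ivc iup
        omega
    · have il : iv (0 < α ∧ X.memH dur t s 2 (α - 1) 0 y) ≤ iv (α = X.tf + 2) := iv_mono (by
          rintro ⟨h0, h3⟩
          rcases mem2 h3 with ⟨i, hi, h1⟩ | h1
          · exact absurd ⟨i, hi⟩ hp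
          · omega)
      have ir : iv (X.memH dur t s 2 (α + 1) 0 y) ≤ iv (α = X.tf) := iv_mono (by
          intro h3
          rcases mem2 h3 with ⟨i, hi, h1⟩ | h1
          · exact absurd ⟨i, hi⟩ hp
          · omega)
      have idn := iv_le (X.memH dur t s (2 - 1) α 0 y)
      have iup : iv (2 < 5 ∧ X.memH dur t s (2 + 1) α 0 y) ≤ iv (α + 1 = X.tf) := iv_mono (by
          rintro ⟨_, h3⟩
          rcases mem3 h3 with ⟨i, hi, h1⟩ | h1
          · exact absurd ⟨i, hi⟩ hp
          · omega)
      replace il := ivc il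
      replace ir := ivc ir
      replace iup := ivc iup
      omega
  · have hin : ∀ h' α', h' ≤ 2 → ¬ X.memH dur t s h' α' 0 y := by
      intro h' α' h1 h2
      have := (memH_L hy h2).2
      omega
    rw [iv_zero (p := 0 < α ∧ X.memH dur t s 2 (α - 1) 0 y) (fun h => hin _ _ (by omega) h.2),
      iv_zero (p := X.memH dur t s 2 (α + 1) 0 y) (hin _ _ (by omega)),
      iv_zero (p := X.memH dur t s (2 - 1) α 0 y) (hin _ _ (by omega))]
    have iup : iv (2 < 5 ∧ X.memH dur t s (2 + 1) α 0 y) ≤ iv (s = 0 ∧ α + 1 = X.tf) := iv_mono (by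
      rintro ⟨_, h3⟩
      have := (memH_L hy h3).2
      omega)
    by_cases hz : s = 0 ∧ α + 1 = X.tf
    · have hY : cnt GY {y' | X.memH dur t s 2 α 0 y'} y = 0 := by
        apply cnt_eq_zero
        intro u hu hadj
        rcases mem2 hu with ⟨i, hi, h2⟩ | h2
        · have := pt_tf (port_arc hi)
          omega
        · omega
      rw [hY]
      replace iup := ivc iup
      omega
    · have hY := cY_sub (by omega) hv
      rw [iv_zero (p := s = 0 ∧ α + 1 = X.tf) hz] at iup
      omega

/-- all vertices strictly beyond the walls -/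
theorem hole_count (hd : 1 ≤ dur) (ht : t + 1 < X.F * dur) (h1 : 1 ≤ h) (h5 : h ≤ 5)
    (hv : ¬ X.memH dur (t + 1) s h α β y) : X.HC dur t s h α β y ≤ 2 := by
  rcases eq_or_ne h 1 with rfl | hne
  · exact hc_one hv
  have h2 : 2 ≤ h := by omega
  rcases Nat.lt_or_ge 2 β with hβ | hβ
  · exact hc_b3 h2 hβ h5 hv
  interval_cases β
  · interval_cases h
    · exact hc_two hv
    · exact hc_three hv
    · exact hc_four hv
    · exact hc_five hv
  · exact hc_b1 hd ht h2 h5 hv
  · exact hc_b2 h2 h5 hv

end YD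

end Pool.Agent.Helper70.Thr3
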