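import Mathlib
import Pool.Agent.Helper70.Thr3.Barrier
import Pool.Agent.Helper70.Thr3.Hole2

/-!
# Threshold three: slowness
-/

set_option linter.unusedSectionVars false
set_option linter.unusedVariables false

namespace Pool.Agent.Helper70.Thr3

open Set SimpleGraph Pool.Agent.Helper19.Perco Pool.Agent.Helper70.Duo

namespace YD

variable {Y : Type} {GY : SimpleGraph Y} (X : YD GY) {L : ℕ} (T K : ℕ) (P Q : Ty (Fin L × Fin L))

/-- seeds of the slices -/
def seedS (z : ℕ) (v : Fin L × Fin L) (y : Y) : Prop :=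
  (y ∈ X.D ∧ ∀ j ≤ X.F, y ≠ X.line j) ∨ (y = X.line X.F ∧ v ∉ Λ L) ∨
    (∃ j < X.F, y = X.line j ∧ v ∈ (R P Q z).A)

/-- the seeds -/
def seeds : Set (((Fin L × Fin L) × Fin (K + 11)) × Y) :=
  {p | (p.1.2.val ≤ 5 ∧ X.seedH 1 (5 - p.1.2.val) p.1.1.1.val p.1.1.2.val p.2) ∨
    (5 < p.1.2.val ∧ p.1.2.val < K + 5 ∧ X.seedS P Q (p.1.2.val - 5) p.1.1 p.2) ∨
    (K + 5 ≤ p.1.2.val ∧ X.seedH 0 (p.1.2.val - (K + 5)) p.1.1.1.val p.1.1.2.val p.2)}

variable {X T K P Q} {t : ℕ} {y : Y}

lemma A_CO (hB : Base L T P Q) (hK2 : K % 2 = 0) (hK : 6 ≤ K) {j z : ℕ} (h1 : 1 ≤ z) (h2 : z < K)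
    {v : Fin L × Fin L} (h : v ∈ (R P Q z).A) : v ∈ CO K P Q (dz K j z) := by
  have e : R P Q (dz K j z) = R P Q z := by
    unfold dz R
    split_ifs with h3 h4 h5 h5
    · rfl
    · rfl
    · rfl
    · exfalso; omega
    · exfalso; omega
    · rfl
  by_cases hd : dz K j z = 1 ∨ dz K j z + 1 = K
  · rw [CO_end hd]
    rw [← e] at h
    have : R P Q (dz K j z) = P := R_odd P Q (by omega)
    rw [this] at h
    exact hB.hP.AC h
  · rw [CO_mid hd, e]
    exact Or.inl h

lemma seeds_mem (hB : Base L T P Q) (hK2 : K % 2 = 0) (hK : 6 ≤ K) :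
    X.seeds K P Q ⊆ X.mem T K P Q 0 := by
  rintro ⟨⟨v, z⟩, y⟩ (h | h | h)
  · exact Or.inl ⟨h.1, Or.inl h.2⟩
  · refine Or.inr (Or.inl ⟨h.1, h.2.1, ?_⟩)
    rcases h.2.2 with h3 | h3 | ⟨j, hj, h3, h4⟩
    · exact Or.inl h3
    · exact Or.inr (Or.inl h3)
    · have ha : 5 < z.val := h.1
      have hb : z.val < K + 5 := h.2.1
      refine Or.inr (Or.inr ⟨j, hj, h3, Or.inl ?_⟩)
      exact A_CO hB hK2 hK (by show 1 ≤ z.val - 5; omega) (by show z.val - 5 < K; omega) h4
  · exact Or.inr (Or.inr ⟨h.1, Or.inl h.2⟩)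

lemma memH_mono {s h α β d : ℕ} (hm : X.memH d t s h α β y) : X.memH d (t + 1) s h α β y := by
  rcases hm with h1 | ⟨j, h1, h2⟩
  · exact Or.inl h1
  · exact Or.inr ⟨j, h1, by omega⟩

lemma memS_mono {z : ℕ} {v : Fin L × Fin L} (hm : X.memS T K P Q t z v y) :
    X.memS T K P Q (t + 1) z v y := by
  rcases hm with h | h | ⟨j, hj, h1, h2 | h2⟩
  · exact Or.inl h
  · exact Or.inr (Or.inl h)
  · exact Or.inr (Or.inr ⟨j, hj, h1, Or.inl h2⟩)
  · exact Or.inr (Or.inr ⟨j, hj, h1, Or.inr (by omega)⟩)

lemma mem_mono : X.mem T K P Q t ⊆ X.mem T K P Q (t + 1) := by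
  rintro ⟨⟨v, z⟩, y⟩ (h | h | h)
  · exact Or.inl ⟨h.1, memH_mono h.2⟩
  · exact Or.inr (Or.inl ⟨h.1, h.2.1, memS_mono h.2.2⟩)
  · exact Or.inr (Or.inr ⟨h.1, memH_mono h.2⟩)

variable [Finite Y]

/-- counts beyond the walls -/
lemma lay_hole (hK : 6 ≤ K) (ht : t + 1 < X.F * dur T K) {s h : ℕ} (h1 : 1 ≤ h) (h5 : h ≤ 5)
    {v : Fin L × Fin L} (hv : ¬ X.memH (dur T K) (t + 1) s h v.1.val v.2.val y)
    {A B : Prop} (hA : A → X.memH (dur T K) t s (h - 1) v.1.val v.2.val y)
    (hB : B → h < 5 ∧ X.memH (dur T K) t s (h + 1) v.1.val v.2.val y) :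
    cnt (Sq L) {w | X.memH (dur T K) t s h w.1.val w.2.val y} v + (iv A + iv B) +
      cnt GY {y' | X.memH (dur T K) t s h v.1.val v.2.val y'} y ≤ 2 := by
  have hd : 1 ≤ dur T K := by unfold dur; omega
  have hh := hole_count hd ht h1 h5 hv
  unfold HC at hh
  have hc : cnt (Sq L) {w | X.memH (dur T K) t s h w.1.val w.2.val y} v ≤
      (iv (0 < v.1.val ∧ X.memH (dur T K) t s h (v.1.val - 1) v.2.val y) +
        iv (X.memH (dur T K) t s h (v.1.val + 1) v.2.val y)) +
      (iv (0 < v.2.val ∧ X.memH (dur T K) t s h v.1.val (v.2.val - 1) y) +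
        iv (X.memH (dur T K) t s h v.1.val (v.2.val + 1) y)) := by
    rw [show v = (v.1, v.2) from rfl,
      cnt_sqq L (fun a b => X.memH (dur T K) t s h a b y) v.1 v.2]
    refine Nat.add_le_add (Nat.add_le_add le_rfl (iv_mono ?_)) (Nat.add_le_add le_rfl (iv_mono ?_))
    · exact fun h6 => h6.2
    · exact fun h6 => h6.2
  have i1 := iv_mono hA
  have i2 := iv_mono hB
  omega

theorem barrier (hB : Base L T P Q) (hK2 : K % 2 = 0) (hK : 6 ≤ K)
    (ht : t + 1 < X.F * dur T K) (p : ((Fin L × Fin L) × Fin (K + 11)) × Y)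
    (hp : p ∉ X.mem T K P Q (t + 1)) :
    p ∉ X.mem T K P Q t ∧
      cnt ((Sq L □ pathGraph (K + 11)) □ GY) (X.mem T K P Q t) p < 3 := by
  refine ⟨fun h => hp (mem_mono h), ?_⟩
  obtain ⟨⟨v, z⟩, y⟩ := p
  rw [cnt_mem hK]
  have hz := z.isLt
  have hp' : v ∉ X.Lv T K P Q (t + 1) y z.val := hp
  apply Nat.lt_succ_of_le
  rcases Nat.lt_trichotomy z.val 5 with h | h | h
  · -- bottom
    have e0 : ∀ y', X.Lv T K P Q t y' z.val =
        {v | X.memH (dur T K) t 1 (5 - z.val) v.1.val v.2.val y'} := fun y' =>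
      Lv_bot (by omega) hK
    rw [Lv_bot (by omega) hK] at hp'
    rw [e0 y]
    have hY : {y' | v ∈ X.Lv T K P Q t y' z.val} =
        {y' | X.memH (dur T K) t 1 (5 - z.val) v.1.val v.2.val y'} := by
      ext y'
      show v ∈ X.Lv T K P Q t y' z.val ↔ _
      rw [e0 y']; exact Iff.rfl
    rw [hY]
    have := lay_hole (X := X) (T := T) (K := K) (y := y) hK ht (s := 1) (h := 5 - z.val)
      (by omega) (by omega) (v := v) hp'
      (A := z.val + 1 < K + 11 ∧ v ∈ X.Lv T K P Q t y (z.val + 1))
      (B := 0 < z.val ∧ v ∈ X.Lv T K P Q t y (z.val - 1)) (by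
        rintro ⟨_, h3⟩
        rw [Lv_bot (by omega) hK] at h3
        have e : 5 - (z.val + 1) = 5 - z.val - 1 := by omega
        rw [e] at h3
        exact h3) (by
        rintro ⟨h2, h3⟩
        rw [Lv_bot (by omega) hK] at h3
        have e : 5 - (z.val - 1) = 5 - z.val + 1 := by omega
        rw [e] at h3
        exact ⟨by omega, h3⟩)
    omega
  · -- the lower wall
    have e0 : ∀ y', X.Lv T K P Q t y' z.val =
        {v | X.memH (dur T K) t 1 0 v.1.val v.2.val y'} := fun y' => by
      rw [Lv_bot (by omega) hK]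
      have : 5 - z.val = 0 := by omega
      rw [this]
    rw [Lv_bot (by omega) hK] at hp'
    have e : 5 - z.val = 0 := by omega
    rw [e] at hp'
    rw [e0 y]
    have hY : {y' | v ∈ X.Lv T K P Q t y' z.val} =
        {y' | X.memH (dur T K) t 1 0 v.1.val v.2.val y'} := by
      ext y'
      show v ∈ X.Lv T K P Q t y' z.val ↔ _
      rw [e0 y']; exact Iff.rfl
    rw [hY]
    have hw := wall_count (X := X) (T := T) (K := K) (t := t) (y := y) (s := 1) (α := v.1.val)
      (β := v.2.val) (sl := z.val + 1 < K + 11 ∧ v ∈ X.Lv T K P Q t y (z.val + 1)) (by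
        rintro hy ⟨_, h3⟩
        rw [Lv_mid (by omega) (by omega)] at h3
        exact hy (memS_D h3)) (by
        rintro j hj h1 h2 ⟨_, h3⟩
        rw [Lv_mid (by omega) (by omega)] at h3
        have h3' : X.memS T K P Q t (z.val + 1 - 5) v y := h3
        have e6 : z.val + 1 - 5 = 1 := by omega
        rw [e6] at h3'
        have hvs := eq_s hB h1 h2
        have hΛ : v ∈ Λ L := ⟨h2, h1.le⟩
        have hyj := hj
        obtain ⟨ts1, ts2⟩ := sO_s hB hK2 hK
        have hlate : ¬ (j + 1) * dur T K ≤ t + 1 := fun h => by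
          exact hp' (Or.inr ⟨j, ⟨h2, Or.inl ⟨hj, Or.inl ⟨by omega, h1.le⟩⟩⟩, h⟩)
        rcases h3' with h4 | h4 | ⟨i, hi, h4, h5⟩
        · rcases hj.2.2 with h5 | ⟨h5, h6⟩
          · exact h4.2 j hj.1 h5
          · exact h4.2 (j + 1) (by omega) h6
        · exact h4.2 hΛ
        · have hnC : v ∉ CO K P Q (dz K i 1) := by
            rw [CO_end (by unfold dz; split_ifs <;> omega), hvs]
            exact hB.hP.sP
          rcases h5 with h5 | h5
          · exact hnC h5
          · -- the time of the start vertex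
            have hmul : (i + 1) * dur T K = i * dur T K + dur T K := by ring
            rcases Nat.mod_two_eq_zero_or_one i with h0 | h0
            · have hdz : dz K i 1 = 1 := by unfold dz; rw [if_pos h0]
              rw [hdz, hvs, ts1] at h5
              -- the port is the end of the previous link
              have : j + 1 = i := by
                rcases hj.2.2 with h6 | ⟨h6, h7⟩
                · have := X.inj i hi.le j hj.1 (h4.symm.trans h6)
                  have := hj.2.1
                  omega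
                · exact (X.inj i hi.le (j + 1) h6 (h4.symm.trans h7)).symm
              rw [this] at hlate
              omega
            · have hdz : dz K i 1 = K - 1 := by unfold dz; rw [if_neg (by omega)]
              rw [hdz, hvs, ts2] at h5
              have : j = i := by
                rcases hj.2.2 with h6 | ⟨h6, h7⟩
                · exact (X.inj i hi.le j hj.1 (h4.symm.trans h6)).symm
                · have := X.inj i hi.le (j + 1) h6 (h4.symm.trans h7)
                  have := hj.2.1
                  omega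
              rw [this] at hlate
              unfold dur at *
              omega) hp'
    have hc : cnt (Sq L) {w | X.memH (dur T K) t 1 0 w.1.val w.2.val y} v ≤
        (iv (0 < v.1.val ∧ X.memH (dur T K) t 1 0 (v.1.val - 1) v.2.val y) +
          iv (X.memH (dur T K) t 1 0 (v.1.val + 1) v.2.val y)) +
        (iv (0 < v.2.val ∧ X.memH (dur T K) t 1 0 v.1.val (v.2.val - 1) y) +
          iv (X.memH (dur T K) t 1 0 v.1.val (v.2.val + 1) y)) := by
      rw [show v = (v.1, v.2) from rfl,
        cnt_sqq L (fun a b => X.memH (dur T K) t 1 0 a b y) v.1 v.2]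
      refine Nat.add_le_add (Nat.add_le_add le_rfl (iv_mono ?_))
        (Nat.add_le_add le_rfl (iv_mono ?_))
      · exact fun h => h.2
      · exact fun h => h.2
    have i1 : iv (0 < z.val ∧ v ∈ X.Lv T K P Q t y (z.val - 1)) ≤
        iv (X.memH (dur T K) t 1 1 v.1.val v.2.val y) := iv_mono (by
      rintro ⟨_, h3⟩
      rw [Lv_bot (by omega) hK] at h3
      have e : 5 - (z.val - 1) = 1 := by omega
      rw [e] at h3
      exact h3)
    omega
  · rcases Nat.lt_trichotomy z.val (K + 5) with h' | h' | h'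
    · -- slices
      obtain ⟨w, hw⟩ : ∃ w, z.val = w + 5 := ⟨z.val - 5, by omega⟩
      rw [hw] at hp' h h' hz ⊢
      have hv : ¬ X.memS T K P Q (t + 1) w v y := by
        intro h3
        apply hp'
        rw [Lv_mid h h']
        have : w + 5 - 5 = w := by omega
        show X.memS T K P Q (t + 1) (w + 5 - 5) v y
        rw [this]; exact h3
      have hsc := slice_count (X := X) hB hK2 hK ht (z := w) (by omega) (by omega) hv
      have i1 : iv (0 < w + 5 ∧ v ∈ X.Lv T K P Q t y (w + 5 - 1)) ≤
          iv (v ∈ X.Lv T K P Q t y (w + 4)) := iv_mono (fun h => h.2)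
      have i2 : iv (w + 5 + 1 < K + 11 ∧ v ∈ X.Lv T K P Q t y (w + 5 + 1)) ≤
          iv (v ∈ X.Lv T K P Q t y (w + 6)) := iv_mono (fun h => h.2)
      omega
    · -- the upper wall
      have e0 : ∀ y', X.Lv T K P Q t y' z.val =
          {v | X.memH (dur T K) t 0 0 v.1.val v.2.val y'} := fun y' => by
        rw [Lv_top (by omega) hK]
        have : z.val - (K + 5) = 0 := by omega
        rw [this]
      rw [Lv_top (by omega) hK] at hp'
      have e : z.val - (K + 5) = 0 := by omega
      rw [e] at hp'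
      rw [e0 y]
      have hY : {y' | v ∈ X.Lv T K P Q t y' z.val} =
          {y' | X.memH (dur T K) t 0 0 v.1.val v.2.val y'} := by
        ext y'
        show v ∈ X.Lv T K P Q t y' z.val ↔ _
        rw [e0 y']; exact Iff.rfl
      rw [hY]
      have hw := wall_count (X := X) (T := T) (K := K) (t := t) (y := y) (s := 0) (α := v.1.val)
        (β := v.2.val) (sl := 0 < z.val ∧ v ∈ X.Lv T K P Q t y (z.val - 1)) (by
          rintro hy ⟨_, h3⟩
          rw [Lv_mid (by omega) (by omega)] at h3
          exact hy (memS_D h3)) (by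
          rintro j hj h1 h2 ⟨_, h3⟩
          rw [Lv_mid (by omega) (by omega)] at h3
          have h3' : X.memS T K P Q t (z.val - 1 - 5) v y := h3
          have e6 : z.val - 1 - 5 = K - 1 := by omega
          rw [e6] at h3'
          have hvs := eq_s hB h1 h2
          have hΛ : v ∈ Λ L := ⟨h2, h1.le⟩
          obtain ⟨ts1, ts2⟩ := sO_s hB hK2 hK
          have hlate : ¬ (j + 1) * dur T K ≤ t + 1 := fun h => by
            exact hp' (Or.inr ⟨j, ⟨h2, Or.inl ⟨hj, Or.inl ⟨by omega, h1.le⟩⟩⟩, h⟩)
          rcases h3' with h4 | h4 | ⟨i, hi, h4, h5⟩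
          · rcases hj.2.2 with h5 | ⟨h5, h6⟩
            · exact h4.2 j hj.1 h5
            · exact h4.2 (j + 1) (by omega) h6
          · exact h4.2 hΛ
          · have hnC : v ∉ CO K P Q (dz K i (K - 1)) := by
              rw [CO_end (by unfold dz; split_ifs <;> omega), hvs]
              exact hB.hP.sP
            rcases h5 with h5 | h5
            · exact hnC h5
            · rcases Nat.mod_two_eq_zero_or_one i with h0 | h0
              · have hdz : dz K i (K - 1) = K - 1 := by unfold dz; rw [if_pos h0]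
                rw [hdz, hvs, ts2] at h5
                have : j = i := by
                  rcases hj.2.2 with h6 | ⟨h6, h7⟩
                  · exact (X.inj i hi.le j hj.1 (h4.symm.trans h6)).symm
                  · have := X.inj i hi.le (j + 1) h6 (h4.symm.trans h7)
                    have := hj.2.1
                    omega
                rw [this] at hlate
                have hmul : (i + 1) * dur T K = i * dur T K + dur T K := by ring
                unfold dur at *
                omega
              · have hdz : dz K i (K - 1) = 1 := by unfold dz; rw [if_neg (by omega)]; omega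
                rw [hdz, hvs, ts1] at h5
                have : j + 1 = i := by
                  rcases hj.2.2 with h6 | ⟨h6, h7⟩
                  · have := X.inj i hi.le j hj.1 (h4.symm.trans h6)
                    have := hj.2.1
                    omega
                  · exact (X.inj i hi.le (j + 1) h6 (h4.symm.trans h7)).symm
                rw [this] at hlate
                omega) hp'
      have hc : cnt (Sq L) {w | X.memH (dur T K) t 0 0 w.1.val w.2.val y} v ≤
          (iv (0 < v.1.val ∧ X.memH (dur T K) t 0 0 (v.1.val - 1) v.2.val y) +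
            iv (X.memH (dur T K) t 0 0 (v.1.val + 1) v.2.val y)) +
          (iv (0 < v.2.val ∧ X.memH (dur T K) t 0 0 v.1.val (v.2.val - 1) y) +
            iv (X.memH (dur T K) t 0 0 v.1.val (v.2.val + 1) y)) := by
        rw [show v = (v.1, v.2) from rfl,
          cnt_sqq L (fun a b => X.memH (dur T K) t 0 0 a b y) v.1 v.2]
        refine Nat.add_le_add (Nat.add_le_add le_rfl (iv_mono ?_))
          (Nat.add_le_add le_rfl (iv_mono ?_))
        · exact fun h => h.2
        · exact fun h => h.2
      have i1 : iv (z.val + 1 < K + 11 ∧ v ∈ X.Lv T K P Q t y (z.val + 1)) ≤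
          iv (X.memH (dur T K) t 0 1 v.1.val v.2.val y) := iv_mono (by
        rintro ⟨_, h3⟩
        rw [Lv_top (by omega) hK] at h3
        have e : z.val + 1 - (K + 5) = 1 := by omega
        rw [e] at h3
        exact h3)
      omega
    · -- top
      have e0 : ∀ y', X.Lv T K P Q t y' z.val =
          {v | X.memH (dur T K) t 0 (z.val - (K + 5)) v.1.val v.2.val y'} := fun y' =>
        Lv_top (by omega) hK
      rw [Lv_top (by omega) hK] at hp'
      rw [e0 y]
      have hY : {y' | v ∈ X.Lv T K P Q t y' z.val} =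
          {y' | X.memH (dur T K) t 0 (z.val - (K + 5)) v.1.val v.2.val y'} := by
        ext y'
        show v ∈ X.Lv T K P Q t y' z.val ↔ _
        rw [e0 y']; exact Iff.rfl
      rw [hY]
      have := lay_hole (X := X) (T := T) (K := K) (y := y) hK ht (s := 0) (h := z.val - (K + 5))
        (by omega) (by omega) (v := v) hp'
        (A := 0 < z.val ∧ v ∈ X.Lv T K P Q t y (z.val - 1))
        (B := z.val + 1 < K + 11 ∧ v ∈ X.Lv T K P Q t y (z.val + 1)) (by
          rintro ⟨_, h3⟩
          rw [Lv_top (by omega) hK] at h3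
          have e : z.val - 1 - (K + 5) = z.val - (K + 5) - 1 := by omega
          rw [e] at h3
          exact h3) (by
          rintro ⟨h2, h3⟩
          rw [Lv_top (by omega) hK] at h3
          have e : z.val + 1 - (K + 5) = z.val - (K + 5) + 1 := by omega
          rw [e] at h3
          exact ⟨by omega, h3⟩)
      omega

/-- the process is slow -/
theorem slow_proc (hB : Base L T P Q) (hK2 : K % 2 = 0) (hK : 6 ≤ K) :
    ∃ p, p ∉ proc ((Sq L □ pathGraph (K + 11)) □ GY) 3 (X.seeds K P Q) (X.F * dur T K - 1) := by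
  have hL := hB.hL
  refine ⟨(((⟨0, by omega⟩, ⟨0, by omega⟩), ⟨6, by omega⟩), X.line X.F), fun hp => ?_⟩
  have h1 := proc_subset_barrier ((Sq L □ pathGraph (K + 11)) □ GY) 3 (X.seeds K P Q)
    (X.F * dur T K - 1) (fun t => X.mem T K P Q t) (seeds_mem hB hK2 hK)
    (fun t ht p hp => barrier hB hK2 hK (by omega) p hp) _ le_rfl hp
  have h2 : ((⟨0, by omega⟩, ⟨0, by omega⟩) : Fin L × Fin L) ∈
      X.Lv T K P Q (X.F * dur T K - 1) (X.line X.F) 6 := h1
  rw [Lv_mid (by omega) (by omega)] at h2
  rcases h2 with h3 | h3 | ⟨j, hj, h3, _⟩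
  · exact h3.2 _ le_rfl rfl
  · exact h3.2 ⟨rfl, by show 0 ≤ 1; omega⟩
  · exact absurd (X.inj _ le_rfl j hj.le h3) (by omega)

end YD

end Pool.Agent.Helper70.Thr3
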