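import Mathlib
import Pool.Agent.Helper70.Thr3.Barrier2

/-!
# Threshold three: percolation beyond the walls
-/

set_option linter.unusedSectionVars false
set_option linter.unusedVariables false

namespace Pool.Agent.Helper70.Thr3

open Set SimpleGraph Pool.Agent.Helper19.Perco Pool.Agent.Helper70.Duo

namespace YD

variable {Y : Type} {GY : SimpleGraph Y} (X : YD GY) {L : ℕ} (K : ℕ)

/-- layer of a level -/
def zo (s h : ℕ) : ℕ := if s = 0 then K + 5 + h else 5 - h

/-- a closed set containing the seeds, in coordinates -/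
structure Cl (P Q : Ty (Fin L × Fin L)) (M : ℕ → ℕ → ℕ → Y → Prop) : Prop where
  rule : ∀ z < K + 11, ∀ α < L, ∀ β < L, ∀ y, 3 ≤
    iv (0 < α ∧ M z (α - 1) β y) + iv (M z (α + 1) β y) +
    (iv (0 < β ∧ M z α (β - 1) y) + iv (M z α (β + 1) y)) +
    (iv (0 < z ∧ M (z - 1) α β y) + iv (M (z + 1) α β y)) +
    cnt GY {y' | M z α β y'} y → M z α β y
  bot : ∀ z ≤ 5, ∀ α < L, ∀ β < L, ∀ y, X.seedH 1 (5 - z) α β y → M z α β y
  top : ∀ z, K + 5 ≤ z → z < K + 11 → ∀ α < L, ∀ β < L, ∀ y,
    X.seedH 0 (z - (K + 5)) α β y → M z α β y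
  mid : ∀ z, 5 < z → z < K + 5 → ∀ (v : Fin L × Fin L) y,
    X.seedS P Q (z - 5) v y → M z v.1.val v.2.val y

variable {X K} {P Q : Ty (Fin L × Fin L)} {M : ℕ → ℕ → ℕ → Y → Prop} {s h α β j : ℕ} {y : Y}

/-- the count at a level -/
noncomputable def Cn (GY : SimpleGraph Y) (K : ℕ) (M : ℕ → ℕ → ℕ → Y → Prop) (s h α β : ℕ)
    (y : Y) : ℕ :=
  iv (0 < α ∧ M (zo K s h) (α - 1) β y) + iv (M (zo K s h) (α + 1) β y) +
  (iv (0 < β ∧ M (zo K s h) α (β - 1) y) + iv (M (zo K s h) α (β + 1) y)) +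
  (iv (M (zo K s (h - 1)) α β y) + iv (h < 5 ∧ M (zo K s (h + 1)) α β y)) +
  cnt GY {y' | M (zo K s h) α β y'} y

lemma Cl.seed (hM : Cl X K P Q M) (hs : s ≤ 1) (h5 : h ≤ 5) (hα : α < L) (hβ : β < L)
    (hm : X.seedH s h α β y) : M (zo K s h) α β y := by
  rcases Nat.eq_zero_or_pos s with h0 | h0
  · subst h0
    unfold zo; rw [if_pos rfl]
    apply hM.top _ (by omega) (by omega) _ hα _ hβ
    have : K + 5 + h - (K + 5) = h := by omega
    rw [this]; exact hm
  · have h1 : s = 1 := by omega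
    subst h1
    unfold zo; rw [if_neg (by omega)]
    apply hM.bot _ (by omega) _ hα _ hβ
    have : 5 - (5 - h) = h := by omega
    rw [this]; exact hm

lemma Cl.ruleN (hM : Cl X K P Q M) (hs : s ≤ 1) (h1 : 1 ≤ h) (h5 : h ≤ 5) (hα : α < L)
    (hβ : β < L) (hc : 3 ≤ Cn GY K M s h α β y) : M (zo K s h) α β y := by
  unfold Cn at hc
  rcases Nat.eq_zero_or_pos s with h0 | h0
  · subst h0
    have e : ∀ h, zo K 0 h = K + 5 + h := fun h => if_pos rfl
    simp only [e] at hc ⊢
    apply hM.rule _ (by omega) _ hα _ hβ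
    have i1 : iv (M (K + 5 + (h - 1)) α β y) ≤ iv (0 < K + 5 + h ∧ M (K + 5 + h - 1) α β y) :=
      iv_mono (by
        intro h2
        have e2 : K + 5 + h - 1 = K + 5 + (h - 1) := by omega
        rw [e2]; exact ⟨by omega, h2⟩)
    have i2 : iv (h < 5 ∧ M (K + 5 + (h + 1)) α β y) ≤ iv (M (K + 5 + h + 1) α β y) :=
      iv_mono (fun h2 => h2.2)
    omega
  · have hs1 : s = 1 := by omega
    subst hs1
    have e : ∀ h, zo K 1 h = 5 - h := fun h => if_neg (by omega)
    simp only [e] at hc ⊢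
    apply hM.rule _ (by omega) _ hα _ hβ
    have i1 : iv (M (5 - (h - 1)) α β y) ≤ iv (M (5 - h + 1) α β y) :=
      iv_mono (by
        intro h2
        have e2 : 5 - h + 1 = 5 - (h - 1) := by omega
        rw [e2]; exact h2)
    have i2 : iv (h < 5 ∧ M (5 - (h + 1)) α β y) ≤ iv (0 < 5 - h ∧ M (5 - h - 1) α β y) :=
      iv_mono (by
        rintro ⟨h2, h3⟩
        have e2 : 5 - h - 1 = 5 - (h + 1) := by omega
        rw [e2]; exact ⟨by omega, h3⟩)
    omega

/-- the layer next to the wall -/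
def zi (s : ℕ) : ℕ := if s = 0 then K + 4 else 6

lemma Cl.rule0 (hM : Cl X K P Q M) (hs : s ≤ 1) (hα : α < L)
    (hβ : β < L) (hc : 3 ≤ iv (0 < α ∧ M (zo K s 0) (α - 1) β y) + iv (M (zo K s 0) (α + 1) β y) +
      (iv (0 < β ∧ M (zo K s 0) α (β - 1) y) + iv (M (zo K s 0) α (β + 1) y)) +
      (iv (M (zi (K := K) s) α β y) + iv (M (zo K s 1) α β y)) +
      cnt GY {y' | M (zo K s 0) α β y'} y) : M (zo K s 0) α β y := by
  rcases Nat.eq_zero_or_pos s with h0 | h0
  · subst h0
    have e : ∀ h, zo K 0 h = K + 5 + h := fun h => if_pos rfl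
    have e' : zi (K := K) 0 = K + 4 := if_pos rfl
    simp only [e, e'] at hc ⊢
    apply hM.rule _ (by omega) _ hα _ hβ
    have i1 : iv (M (K + 4) α β y) ≤ iv (0 < K + 5 + 0 ∧ M (K + 5 + 0 - 1) α β y) :=
      iv_mono (fun h2 => ⟨by omega, h2⟩)
    have i2 : iv (M (K + 5 + 1) α β y) ≤ iv (M (K + 5 + 0 + 1) α β y) :=
      iv_mono (fun h2 => h2)
    omega
  · have hs1 : s = 1 := by omega
    subst hs1
    have e : ∀ h, zo K 1 h = 5 - h := fun h => if_neg (by omega)
    have e' : zi (K := K) 1 = 6 := if_neg (by omega)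
    simp only [e, e'] at hc ⊢
    apply hM.rule _ (by omega) _ hα _ hβ
    have i1 : iv (M 6 α β y) ≤ iv (M (5 - 0 + 1) α β y) := iv_mono (fun h2 => h2)
    have i2 : iv (M (5 - 1) α β y) ≤ iv (0 < 5 - 0 ∧ M (5 - 0 - 1) α β y) :=
      iv_mono (fun h2 => ⟨by omega, h2⟩)
    omega

/-! ### seeds -/

lemma Cl.wall (hM : Cl X K P Q M) (hs : s ≤ 1) (h1 : h ≤ 1) (hα : α < L) (hβ : β < L)
    (hy : y ∈ X.D) (hn : ¬ (β = 0 ∧ α ≤ 1)) : M (zo K s h) α β y :=
  hM.seed hs (by omega) hα hβ (Or.inl ⟨h1, hy, fun h2 => hn ⟨h2.1, h2.2.1⟩⟩)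

lemma Cl.out (hM : Cl X K P Q M) (hs : s ≤ 1) (h2 : 2 ≤ h) (h5 : h ≤ 5) (hα : α < L) (hβ : β < L)
    (hy : y ∈ X.D) (hn : 3 ≤ β) : M (zo K s h) α β y :=
  hM.seed hs (by omega) hα hβ (Or.inr (Or.inl ⟨h2, hn, hy⟩))

lemma Cl.col (hM : Cl X K P Q M) (hs : s ≤ 1) (h5 : h ≤ 5) (hα : α < L)
    (hj : X.port s y j) (hn : PS h α (X.pt j)) : M (zo K s h) α 0 y :=
  hM.seed hs h5 hα (by omega) (Or.inr (Or.inr (Or.inl ⟨rfl, j, hj, hn⟩)))

lemma Cl.arcs (hM : Cl X K P Q M) (hs : s ≤ 1) (hα : α < L)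
    (hj : X.arc s y j) (hn : α + 1 = X.pt j ∨ α = X.pt j + 1) : M (zo K s 5) α 0 y :=
  hM.seed hs le_rfl hα (by omega) (Or.inr (Or.inr (Or.inr (Or.inl ⟨rfl, rfl, j, hj, hn⟩))))

lemma Cl.extra (hM : Cl X K P Q M) (hs : s ≤ 1) (hL : 10 ≤ L) (h3 : 3 ≤ h) (h5 : h ≤ 5) :
    M (zo K s h) 2 1 (X.line X.F) :=
  hM.seed hs h5 (by omega) (by omega)
    (Or.inr (Or.inr (Or.inr (Or.inr (Or.inr ⟨rfl, rfl, h3, rfl⟩)))))

/-! ### the columns -/

lemma Cl.up (hM : Cl X K P Q M) (hs : s ≤ 1) (hj : X.port s y j) (hL : X.pt j + 2 < L)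
    (h1 : M (zo K s 1) 1 0 y) :
    (∀ α, 1 ≤ α → α ≤ X.pt j → M (zo K s 2) α 0 y) ∧
    (∀ h, 2 ≤ h → h ≤ 5 → M (zo K s h) (X.pt j) 0 y) := by
  have hp := X.pt_ge j
  have hy := port_D hj
  have hrun : ∀ α, 1 ≤ α → α ≤ X.pt j → M (zo K s 2) α 0 y := by
    intro α
    induction α with
    | zero => intro h; omega
    | succ α ih =>
      intro _ h2
      apply hM.ruleN hs (by omega) (by omega) (by omega) (by omega)
      unfold Cn
      rcases Nat.eq_zero_or_pos α with h0 | h0
      · subst h0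
        rw [iv_one (p := 0 < 0 + 1 ∧ M (zo K s 2) (0 + 1 - 1) 0 y)
            ⟨by omega, hM.col hs (by omega) (by omega) hj (by unfold PS; omega)⟩,
          iv_one (p := M (zo K s (2 - 1)) (0 + 1) 0 y) h1,
          iv_one (p := 2 < 5 ∧ M (zo K s (2 + 1)) (0 + 1) 0 y)
            ⟨by omega, hM.col hs (by omega) (by omega) hj (by unfold PS; omega)⟩]
        omega
      · rw [iv_one (p := 0 < α + 1 ∧ M (zo K s 2) (α + 1 - 1) 0 y)
            ⟨by omega, ih h0 (by omega)⟩,
          iv_one (p := M (zo K s (2 - 1)) (α + 1) 0 y)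
            (hM.wall hs (by omega) (by omega) (by omega) hy (by omega))]
        rcases Nat.lt_or_ge (α + 1) (X.pt j) with h3 | h3
        · rw [iv_one (p := 2 < 5 ∧ M (zo K s (2 + 1)) (α + 1) 0 y)
            ⟨by omega, hM.col hs (by omega) (by omega) hj (by unfold PS; omega)⟩]
          omega
        · rw [iv_one (p := M (zo K s 2) (α + 1 + 1) 0 y)
            (hM.col hs (by omega) (by omega) hj (by unfold PS; omega))]
          omega
  refine ⟨hrun, ?_⟩
  intro h
  induction h with
  | zero => intro h2; omega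
  | succ h ih =>
    intro h2 h5
    rcases Nat.lt_or_ge h 2 with h3 | h3
    · have : h = 1 := by omega
      subst this
      exact hrun _ (by omega) le_rfl
    · apply hM.ruleN hs (by omega) h5 (by omega) (by omega)
      unfold Cn
      rw [iv_one (p := 0 < X.pt j ∧ M (zo K s (h + 1)) (X.pt j - 1) 0 y)
          ⟨by omega, hM.col hs (by omega) (by omega) hj (by unfold PS; omega)⟩,
        iv_one (p := M (zo K s (h + 1)) (X.pt j + 1) 0 y)
          (hM.col hs (by omega) (by omega) hj (by unfold PS; omega)),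
        iv_one (p := M (zo K s (h + 1 - 1)) (X.pt j) 0 y) (ih h3 (by omega))]
      omega

lemma Cl.down (hM : Cl X K P Q M) (hs : s ≤ 1) (hj : X.port s y j) (hL : X.pt j + 2 < L)
    (h5 : M (zo K s 5) (X.pt j) 0 y) :
    (∀ h ≤ 1, ∀ α ≤ 1, M (zo K s h) α 0 y) := by
  have hp := X.pt_ge j
  have hy := port_D hj
  have hcol : ∀ i ≤ 2, M (zo K s (5 - i)) (X.pt j) 0 y := by
    intro i
    induction i with
    | zero => intro _; exact h5
    | succ i ih =>
      intro hi
      apply hM.ruleN hs (by omega) (by omega) (by omega) (by omega)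
      unfold Cn
      have e : 5 - (i + 1) + 1 = 5 - i := by omega
      rw [iv_one (p := 0 < X.pt j ∧ M (zo K s (5 - (i + 1))) (X.pt j - 1) 0 y)
          ⟨by omega, hM.col hs (by omega) (by omega) hj (by unfold PS; omega)⟩,
        iv_one (p := M (zo K s (5 - (i + 1))) (X.pt j + 1) 0 y)
          (hM.col hs (by omega) (by omega) hj (by unfold PS; omega)),
        iv_one (p := 5 - (i + 1) < 5 ∧ M (zo K s (5 - (i + 1) + 1)) (X.pt j) 0 y)
          ⟨by omega, by rw [e]; exact ih (by omega)⟩]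
      omega
  have hcol3 : M (zo K s 3) (X.pt j) 0 y := hcol 2 le_rfl
  have hrun : ∀ i, i + 1 ≤ X.pt j → M (zo K s 2) (X.pt j - i) 0 y := by
    intro i
    induction i with
    | zero =>
      intro _
      apply hM.ruleN hs (by omega) (by omega) (by omega) (by omega)
      unfold Cn
      rw [iv_one (p := M (zo K s (2 - 1)) (X.pt j - 0) 0 y)
          (hM.wall hs (by omega) (by omega) (by omega) hy (by omega)),
        iv_one (p := M (zo K s 2) (X.pt j - 0 + 1) 0 y)
          (hM.col hs (by omega) (by omega) hj (by unfold PS; omega)),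
        iv_one (p := 2 < 5 ∧ M (zo K s (2 + 1)) (X.pt j - 0) 0 y) ⟨by omega, hcol3⟩]
      omega
    | succ i ih =>
      intro hi
      apply hM.ruleN hs (by omega) (by omega) (by omega) (by omega)
      unfold Cn
      have e : X.pt j - (i + 1) + 1 = X.pt j - i := by omega
      rw [iv_one (p := M (zo K s 2) (X.pt j - (i + 1) + 1) 0 y) (by rw [e]; exact ih (by omega)),
        iv_one (p := 2 < 5 ∧ M (zo K s (2 + 1)) (X.pt j - (i + 1)) 0 y)
          ⟨by omega, hM.col hs (by omega) (by omega) hj (by unfold PS; omega)⟩]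
      rcases Nat.lt_or_ge (i + 2) (X.pt j) with h3 | h3
      · rw [iv_one (p := M (zo K s (2 - 1)) (X.pt j - (i + 1)) 0 y)
          (hM.wall hs (by omega) (by omega) (by omega) hy (by omega))]
        omega
      · rw [iv_one (p := 0 < X.pt j - (i + 1) ∧ M (zo K s 2) (X.pt j - (i + 1) - 1) 0 y)
          ⟨by omega, hM.col hs (by omega) (by omega) hj (by unfold PS; omega)⟩]
        omega
  have h21 : M (zo K s 2) 1 0 y := by
    have := hrun (X.pt j - 1) (by omega)
    have e : X.pt j - (X.pt j - 1) = 1 := by omega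
    rwa [e] at this
  have h11 : M (zo K s 1) 1 0 y := by
    apply hM.ruleN hs (by omega) (by omega) (by omega) (by omega)
    unfold Cn
    rw [iv_one (p := M (zo K s 1) (1 + 1) 0 y)
        (hM.wall hs (by omega) (by omega) (by omega) hy (by omega)),
      iv_one (p := M (zo K s 1) 1 (0 + 1) y)
        (hM.wall hs (by omega) (by omega) (by omega) hy (by omega)),
      iv_one (p := 1 < 5 ∧ M (zo K s (1 + 1)) 1 0 y) ⟨by omega, h21⟩]
    omega
  have h10 : M (zo K s 1) 0 0 y := by
    apply hM.ruleN hs (by omega) (by omega) (by omega) (by omega)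
    unfold Cn
    rw [iv_one (p := M (zo K s 1) (0 + 1) 0 y) h11,
      iv_one (p := M (zo K s 1) 0 (0 + 1) y)
        (hM.wall hs (by omega) (by omega) (by omega) hy (by omega)),
      iv_one (p := 1 < 5 ∧ M (zo K s (1 + 1)) 0 0 y)
        ⟨by omega, hM.col hs (by omega) (by omega) hj (by unfold PS; omega)⟩]
    omega
  have h01 : M (zo K s 0) 1 0 y := by
    apply hM.rule0 hs (by omega) (by omega)
    rw [iv_one (p := M (zo K s 0) (1 + 1) 0 y)
        (hM.wall hs (by omega) (by omega) (by omega) hy (by omega)),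
      iv_one (p := M (zo K s 0) 1 (0 + 1) y)
        (hM.wall hs (by omega) (by omega) (by omega) hy (by omega)),
      iv_one (p := M (zo K s 1) 1 0 y) h11]
    omega
  have h00 : M (zo K s 0) 0 0 y := by
    apply hM.rule0 hs (by omega) (by omega)
    rw [iv_one (p := M (zo K s 0) (0 + 1) 0 y) h01,
      iv_one (p := M (zo K s 0) 0 (0 + 1) y)
        (hM.wall hs (by omega) (by omega) (by omega) hy (by omega)),
      iv_one (p := M (zo K s 1) 0 0 y) h10]
    omega
  intro h hh α hα
  interval_cases h <;> interval_cases α <;> assumption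

/-- leaving through the opened walls -/
lemma Cl.exit (hM : Cl X K P Q M) (hs : s ≤ 1) (hL : 10 ≤ L) (hy : y ∈ X.D)
    (h1 : ∀ α ≤ 1, M (zi (K := K) s) α 0 y) :
    (∀ h ≤ 1, ∀ α ≤ 1, M (zo K s h) α 0 y) := by
  have h01 : M (zo K s 0) 1 0 y := by
    apply hM.rule0 hs (by omega) (by omega)
    rw [iv_one (p := M (zo K s 0) (1 + 1) 0 y)
        (hM.wall hs (by omega) (by omega) (by omega) hy (by omega)),
      iv_one (p := M (zo K s 0) 1 (0 + 1) y)
        (hM.wall hs (by omega) (by omega) (by omega) hy (by omega)),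
      iv_one (p := M (zi (K := K) s) 1 0 y) (h1 1 le_rfl)]
    omega
  have h00 : M (zo K s 0) 0 0 y := by
    apply hM.rule0 hs (by omega) (by omega)
    rw [iv_one (p := M (zo K s 0) (0 + 1) 0 y) h01,
      iv_one (p := M (zo K s 0) 0 (0 + 1) y)
        (hM.wall hs (by omega) (by omega) (by omega) hy (by omega)),
      iv_one (p := M (zi (K := K) s) 0 0 y) (h1 0 (by omega))]
    omega
  have h11 : M (zo K s 1) 1 0 y := by
    apply hM.ruleN hs (by omega) (by omega) (by omega) (by omega)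
    unfold Cn
    rw [iv_one (p := M (zo K s 1) (1 + 1) 0 y)
        (hM.wall hs (by omega) (by omega) (by omega) hy (by omega)),
      iv_one (p := M (zo K s 1) 1 (0 + 1) y)
        (hM.wall hs (by omega) (by omega) (by omega) hy (by omega)),
      iv_one (p := M (zo K s (1 - 1)) 1 0 y) (by exact h01)]
    omega
  have h10 : M (zo K s 1) 0 0 y := by
    apply hM.ruleN hs (by omega) (by omega) (by omega) (by omega)
    unfold Cn
    rw [iv_one (p := M (zo K s 1) (0 + 1) 0 y) h11,
      iv_one (p := M (zo K s 1) 0 (0 + 1) y)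
        (hM.wall hs (by omega) (by omega) (by omega) hy (by omega)),
      iv_one (p := M (zo K s (1 - 1)) 0 0 y) (by exact h00)]
    omega
  intro h hh α hα
  interval_cases h <;> interval_cases α <;> assumption

/-- a row with two filled neighbouring rows -/
lemma Cl.row (hM : Cl X K P Q M) (hs : s ≤ 1) (h1 : 1 ≤ h) (h5 : h ≤ 5) (hβ : β < L)
    (hd : ∀ α < L, M (zo K s (h - 1)) α β y) (hf : ∀ α < L, M (zo K s h) α (β + 1) y)
    {a : ℕ} (ha : a < L) (hm : M (zo K s h) a β y) : ∀ α < L, M (zo K s h) α β y := by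
  have hr : ∀ i, a + i < L → M (zo K s h) (a + i) β y := by
    intro i
    induction i with
    | zero => intro _; exact hm
    | succ i ih =>
      intro hi
      apply hM.ruleN hs h1 h5 hi hβ
      unfold Cn
      rw [iv_one (p := M (zo K s (h - 1)) (a + (i + 1)) β y) (hd _ hi),
        iv_one (p := M (zo K s h) (a + (i + 1)) (β + 1) y) (hf _ hi),
        iv_one (p := 0 < a + (i + 1) ∧ M (zo K s h) (a + (i + 1) - 1) β y)
          ⟨by omega, ih (by omega)⟩]
      omega
  have hl : ∀ i, i ≤ a → M (zo K s h) (a - i) β y := by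
    intro i
    induction i with
    | zero => intro _; exact hm
    | succ i ih =>
      intro hi
      apply hM.ruleN hs h1 h5 (by omega) hβ
      unfold Cn
      have e : a - (i + 1) + 1 = a - i := by omega
      rw [iv_one (p := M (zo K s (h - 1)) (a - (i + 1)) β y) (hd _ (by omega)),
        iv_one (p := M (zo K s h) (a - (i + 1)) (β + 1) y) (hf _ (by omega)),
        iv_one (p := M (zo K s h) (a - (i + 1) + 1) β y) (by rw [e]; exact ih (by omega))]
      omega
  intro α hα
  rcases Nat.lt_or_ge α a with h2 | h2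
  · have := hl (a - α) (by omega)
    have e : a - (a - α) = α := by omega
    rwa [e] at this
  · have := hr (α - a) (by omega)
    have e : a + (α - a) = α := by omega
    rwa [e] at this

/-- everything beyond the walls over the last place -/
lemma Cl.star (hM : Cl X K P Q M) (hs : s ≤ 1) (hL : 10 ≤ L) (hj : X.port s (X.line X.F) j)
    (hjL : X.pt j + 2 < L) (h1 : ∀ α ≤ 1, M (zo K s 1) α 0 (X.line X.F)) :
    ∀ h, 1 ≤ h → h ≤ 5 → ∀ β < L, ∀ α < L, M (zo K s h) α β (X.line X.F) := by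
  set y := X.line X.F with hy0
  have hy : y ∈ X.D := X.lineD _ le_rfl
  have hp := X.pt_ge j
  obtain ⟨hrun, hcol⟩ := hM.up hs hj hjL (h1 1 le_rfl)
  intro h
  induction h with
  | zero => intro h2; omega
  | succ h ih =>
    intro _ h5
    rcases Nat.eq_zero_or_pos h with h0 | h0
    · subst h0
      intro β hβ α hα
      by_cases hc : β = 0 ∧ α ≤ 1
      · rw [hc.1]; exact h1 α hc.2
      · exact hM.wall hs (by omega) hα hβ hy hc
    · have ihd := ih h0 (by omega)
      have r3 : ∀ β, 3 ≤ β → β < L → ∀ α < L, M (zo K s (h + 1)) α β y := fun β h3 hβ α hα =>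
        hM.out hs (by omega) h5 hα hβ hy h3
      -- the vertex (2,1)
      have v1 : M (zo K s (h + 1)) 2 1 y := by
        rcases eq_or_ne h 1 with h2 | h2
        · subst h2
          apply hM.ruleN hs (by omega) h5 (by omega) (by omega)
          unfold Cn
          rw [iv_one (p := M (zo K s (1 + 1 - 1)) 2 1 y) (ihd 1 (by omega) 2 (by omega)),
            iv_one (p := 1 + 1 < 5 ∧ M (zo K s (1 + 1 + 1)) 2 1 y)
              ⟨by omega, hM.extra hs hL (by omega) (by omega)⟩,
            iv_one (p := 0 < 1 ∧ M (zo K s (1 + 1)) 2 (1 - 1) y)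
              ⟨by omega, by exact hrun 2 (by omega) (by omega)⟩]
          omega
        · exact hM.extra hs hL (by omega) h5
      have v2 : M (zo K s (h + 1)) 2 2 y := by
        apply hM.ruleN hs (by omega) h5 (by omega) (by omega)
        unfold Cn
        rw [iv_one (p := M (zo K s (h + 1 - 1)) 2 2 y) (ihd 2 (by omega) 2 (by omega)),
          iv_one (p := M (zo K s (h + 1)) 2 (2 + 1) y) (r3 3 le_rfl (by omega) 2 (by omega)),
          iv_one (p := 0 < 2 ∧ M (zo K s (h + 1)) 2 (2 - 1) y) ⟨by omega, by exact v1⟩]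
        omega
      have r2 := hM.row hs (h := h + 1) (by omega) h5 (β := 2) (by omega)
        (fun α hα => ihd 2 (by omega) α hα) (fun α hα => r3 3 le_rfl (by omega) α hα)
        (a := 2) (by omega) v2
      have r1 := hM.row hs (h := h + 1) (by omega) h5 (β := 1) (by omega)
        (fun α hα => ihd 1 (by omega) α hα) (fun α hα => r2 α hα) (a := 2) (by omega) v1
      have r0 := hM.row hs (h := h + 1) (by omega) h5 (β := 0) (by omega)
        (fun α hα => ihd 0 (by omega) α hα) (fun α hα => r1 α hα) (a := X.pt j) (by omega)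
        (hcol (h + 1) (by omega) h5)
      intro β hβ α hα
      rcases Nat.lt_or_ge 2 β with h3 | h3
      · exact r3 β h3 hβ α hα
      · interval_cases β
        · exact r0 α hα
        · exact r1 α hα
        · exact r2 α hα

end YD

end Pool.Agent.Helper70.Thr3
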