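import Mathlib
import Pool.Agent.Helper70.Thr3.Fill

/-!
# Threshold three: percolation
-/

set_option linter.unusedSectionVars false
set_option linter.unusedVariables false

namespace Pool.Agent.Helper70.Thr3

open Set SimpleGraph Pool.Agent.Helper19.Perco Pool.Agent.Helper70.Duo

namespace YD

variable {Y : Type} {GY : SimpleGraph Y} {X : YD GY} {L T K : ℕ} {P Q : Ty (Fin L × Fin L)}
  {M : ℕ → ℕ → ℕ → Y → Prop} {s h α β j z : ℕ} {y : Y}

lemma zo_dz0 (hK : 6 ≤ K) (j : ℕ) : zo K ((j + 1) % 2) 0 = dz K j 0 + 5 := by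
  unfold zo dz; split_ifs <;> omega

lemma zo_dzK (hK : 6 ≤ K) (j : ℕ) : zo K (j % 2) 0 = dz K j K + 5 := by
  unfold zo dz; split_ifs <;> omega

lemma zi_dz (hK : 6 ≤ K) (j : ℕ) : zi (K := K) (j % 2) = dz K j (K - 1) + 5 := by
  unfold zi dz; split_ifs <;> omega

lemma R_dz (hK2 : K % 2 = 0) {j z : ℕ} (h2 : z ≤ K) : R P Q (dz K j z) = R P Q z := by
  unfold dz R
  split_ifs with h3 h4 h5 h5
  · rfl
  · rfl
  · rfl
  · exfalso; omega
  · exfalso; omega
  · rfl

/-- the slices over a line -/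
lemma Cl.slices (hM : Cl X K P Q M) (hB : Base L T P Q) (hK2 : K % 2 = 0) (hK : 6 ≤ K)
    (hj : j < X.F) (h0 : ∀ α < L, ∀ β < L, M (dz K j 0 + 5) α β (X.line j)) :
    ∀ z, z < K → ∀ α < L, ∀ β < L, M (dz K j z + 5) α β (X.line j) := by
  have key := open_perc (Λ := Λ L) hB.hP hB.hQ hK2 hK hB.hΛ
    (fun z => {v : Fin L × Fin L | M (dz K j z + 5) v.1.val v.2.val (X.line j)}) (by
      intro x
      exact h0 _ x.1.isLt _ x.2.isLt) (by
      intro z h1 h2 v hv
      have hd := dz_mid (j := j) h1 h2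
      show M (dz K j z + 5) v.1.val v.2.val (X.line j)
      apply hM.mid _ (by omega) (by omega) v
      have e : dz K j z + 5 - 5 = dz K j z := by omega
      rw [e]
      refine Or.inr (Or.inr ⟨j, hj, rfl, ?_⟩)
      rw [R_dz hK2 h2.le]
      exact hv) (by
      intro x hx
      show M (dz K j K + 5) x.1.val x.2.val (X.line j)
      rw [← zo_dzK hK]
      apply hM.wall (by omega) (by omega) x.1.isLt x.2.isLt (X.lineD j hj.le)
      intro h2
      exact hx ⟨h2.1, h2.2⟩) (by
      intro z h1 h2 x hx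
      have hd := dz_mid (j := j) h1 h2
      have hs := dz_succ (j := j) h1 h2
      show M (dz K j z + 5) x.1.val x.2.val (X.line j)
      apply hM.rule _ (by omega) _ x.1.isLt _ x.2.isLt
      have hc : cnt (Sq L) {v : Fin L × Fin L | M (dz K j z + 5) v.1.val v.2.val (X.line j)} x ≤
          (iv (0 < x.1.val ∧ M (dz K j z + 5) (x.1.val - 1) x.2.val (X.line j)) +
            iv (M (dz K j z + 5) (x.1.val + 1) x.2.val (X.line j))) +
          (iv (0 < x.2.val ∧ M (dz K j z + 5) x.1.val (x.2.val - 1) (X.line j)) +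
            iv (M (dz K j z + 5) x.1.val (x.2.val + 1) (X.line j))) := by
        rw [show x = (x.1, x.2) from rfl,
          cnt_sqq L (fun a b => M (dz K j z + 5) a b (X.line j)) x.1 x.2]
        refine Nat.add_le_add (Nat.add_le_add le_rfl (iv_mono ?_))
          (Nat.add_le_add le_rfl (iv_mono ?_))
        · exact fun h => h.2
        · exact fun h => h.2
      have i1 : iv (M (dz K j z - 1 + 5) x.1.val x.2.val (X.line j)) ≤
          iv (0 < dz K j z + 5 ∧ M (dz K j z + 5 - 1) x.1.val x.2.val (X.line j)) := iv_mono (by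
        intro h
        have e : dz K j z + 5 - 1 = dz K j z - 1 + 5 := by omega
        rw [e]; exact ⟨by omega, h⟩)
      have i2 : iv (M (dz K j z + 1 + 5) x.1.val x.2.val (X.line j)) ≤
          iv (M (dz K j z + 5 + 1) x.1.val x.2.val (X.line j)) := iv_mono (by
        intro h
        have e : dz K j z + 5 + 1 = dz K j z + 1 + 5 := by omega
        rw [e]; exact h)
      have hx' : 2 + 1 ≤ cnt (Sq L)
          {v : Fin L × Fin L | M (dz K j z + 5) v.1.val v.2.val (X.line j)} x +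
          (iv (M (dz K j (z - 1) + 5) x.1.val x.2.val (X.line j)) +
            iv (M (dz K j (z + 1) + 5) x.1.val x.2.val (X.line j))) := hx
      rcases hs with ⟨h3, h4⟩ | ⟨h3, h4⟩
      · rw [h3, h4] at hx'
        omega
      · rw [h3, h4] at hx'
        omega)
  intro z hz α hα β hβ
  exact key z hz (⟨α, hα⟩, ⟨β, hβ⟩)

/-- both levels of the wall -/
def W (K L : ℕ) (M : ℕ → ℕ → ℕ → Y → Prop) (s : ℕ) (y : Y) : Prop :=
  ∀ h ≤ 1, ∀ α < L, ∀ β < L, M (zo K s h) α β y

lemma Cl.W_of (hM : Cl X K P Q M) (hs : s ≤ 1) (hy : y ∈ X.D)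
    (h : ∀ h ≤ 1, ∀ α ≤ 1, M (zo K s h) α 0 y) : W K L M s y := by
  intro h' h1 α hα β hβ
  by_cases hc : β = 0 ∧ α ≤ 1
  · rw [hc.1]; exact h h' h1 α hc.2
  · exact hM.wall hs h1 hα hβ hy hc

lemma Cl.W_noport (hM : Cl X K P Q M) (hs : s ≤ 1) (hy : y ∈ X.D)
    (h : ∀ j, ¬ X.port s y j) : W K L M s y := by
  intro h' h1 α hα β hβ
  exact hM.seed hs (by omega) hα hβ (Or.inl ⟨h1, hy, fun h2 => by
    obtain ⟨j, hj⟩ := h2.2.2
    exact h j hj⟩)

/-- the inner part of a place -/
def Inn (K L : ℕ) (M : ℕ → ℕ → ℕ → Y → Prop) (y : Y) : Prop :=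
  ∀ z, 4 ≤ z → z ≤ K + 6 → ∀ α < L, ∀ β < L, M z α β y

lemma Inn_of (hK : 6 ≤ K) (h0 : W K L M 0 y) (h1 : W K L M 1 y)
    (h2 : ∀ z, 5 < z → z < K + 5 → ∀ α < L, ∀ β < L, M z α β y) : Inn K L M y := by
  intro z h3 h4 α hα β hβ
  rcases Nat.lt_trichotomy z 5 with h5 | h5 | h5
  · have := h1 1 le_rfl α hα β hβ
    have e : zo K 1 1 = z := by unfold zo; rw [if_neg (by omega)]; omega
    rwa [e] at this
  · have := h1 0 (by omega) α hα β hβ
    have e : zo K 1 0 = z := by unfold zo; rw [if_neg (by omega)]; omega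
    rwa [e] at this
  · rcases Nat.lt_trichotomy z (K + 5) with h6 | h6 | h6
    · exact h2 z h5 h6 α hα β hβ
    · have := h0 0 (by omega) α hα β hβ
      have e : zo K 0 0 = z := by unfold zo; rw [if_pos rfl]; omega
      rwa [e] at this
    · have := h0 1 (by omega) α hα β hβ
      have e : zo K 0 1 = z := by unfold zo; rw [if_pos rfl]; omega
      rwa [e] at this

lemma dz_surj (hK : 6 ≤ K) (j : ℕ) {z : ℕ} (h1 : 5 < z) (h2 : z < K + 5) :
    ∃ z', 1 ≤ z' ∧ z' < K ∧ dz K j z' + 5 = z := by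
  unfold dz
  by_cases h : j % 2 = 0
  · exact ⟨z - 5, by omega, by omega, by rw [if_pos h]; omega⟩
  · exact ⟨K - (z - 5), by omega, by omega, by rw [if_neg h]; omega⟩

/-- one line and one link -/
lemma Cl.line_step [Finite Y] (hM : Cl X K P Q M) (hB : Base L T P Q) (hK2 : K % 2 = 0)
    (hK : 6 ≤ K) (hL : X.tf + 2 < L)
    (hj : j < X.F) (h0 : W K L M ((j + 1) % 2) (X.line j)) :
    Inn K L M (X.line j) ∧ W K L M (j % 2) (X.line (j + 1)) := by
  have hyD : X.line j ∈ X.D := X.lineD j hj.le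
  have hL10 := hB.hL
  have hsl := hM.slices hB hK2 hK hj (by
    intro α hα β hβ
    rw [← zo_dz0 hK]
    exact h0 0 (by omega) α hα β hβ)
  have hport : X.port (j % 2) (X.line j) j := ⟨hj.le, rfl, Or.inl rfl⟩
  have hport' : X.port (j % 2) (X.line (j + 1)) j := ⟨hj.le, rfl, Or.inr ⟨hj, rfl⟩⟩
  have hpt := pt_tf (port_arc hport)
  have hex := hM.exit (s := j % 2) (by omega) hL10 hyD (by
    intro α hα
    rw [zi_dz hK]
    exact hsl (K - 1) (by omega) α (by omega) 0 (by omega))
  have hW : W K L M (j % 2) (X.line j) := hM.W_of (by omega) hyD hex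
  refine ⟨?_, ?_⟩
  · have hmid : ∀ z, 5 < z → z < K + 5 → ∀ α < L, ∀ β < L, M z α β (X.line j) := by
      intro z h1 h2 α hα β hβ
      obtain ⟨z', h3, h4, h5⟩ := dz_surj hK j h1 h2
      rw [← h5]
      exact hsl z' h4 α hα β hβ
    rcases Nat.mod_two_eq_zero_or_one j with h1 | h1
    · rw [h1] at hW
      have e : (j + 1) % 2 = 1 := by omega
      rw [e] at h0
      exact Inn_of hK hW h0 hmid
    · rw [h1] at hW
      have e : (j + 1) % 2 = 0 := by omega
      rw [e] at h0
      exact Inn_of hK h0 hW hmid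
  · obtain ⟨hrun, hcol⟩ := hM.up (s := j % 2) (by omega) hport (by omega) (hex 1 le_rfl 1 le_rfl)
    have hend : M (zo K (j % 2) 5) (X.pt j) 0 (X.line (j + 1)) := by
      have := X.walk j hj {y | M (zo K (j % 2) 5) (X.pt j) 0 y} (hcol 5 (by omega) le_rfl) (by
        intro y hy y' hy' hadj
        have harc : X.arc (j % 2) y' j := ⟨hj.le, rfl, hy'⟩
        have hp := X.pt_ge j
        show M (zo K (j % 2) 5) (X.pt j) 0 y'
        apply hM.ruleN (by omega) (by omega) le_rfl (by omega) (by omega)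
        unfold Cn
        rw [iv_one (p := 0 < X.pt j ∧ M (zo K (j % 2) 5) (X.pt j - 1) 0 y')
            ⟨by omega, hM.arcs (by omega) (by omega) harc (by omega)⟩,
          iv_one (p := M (zo K (j % 2) 5) (X.pt j + 1) 0 y')
            (hM.arcs (by omega) (by omega) harc (by omega))]
        have := cnt_pos_of GY {y' | M (zo K (j % 2) 5) (X.pt j) 0 y'} y' y hadj.symm hy
        omega)
      exact this
    have hdn := hM.down (s := j % 2) (by omega) hport' (by omega) hend
    exact hM.W_of (by omega) (X.lineD _ hj) hdn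

lemma Cl.lines [Finite Y] (hM : Cl X K P Q M) (hB : Base L T P Q) (hK2 : K % 2 = 0)
    (hK : 6 ≤ K) (hL : X.tf + 2 < L) :
    ∀ j, j ≤ X.F → W K L M ((j + 1) % 2) (X.line j) ∧ (∀ i < j, Inn K L M (X.line i)) := by
  intro j
  induction j with
  | zero =>
    intro _
    refine ⟨?_, fun i hi => by omega⟩
    apply hM.W_noport (by omega) (X.lineD 0 (by omega))
    rintro i ⟨h1, h2, h3 | ⟨h3, h4⟩⟩
    · have := X.inj 0 (by omega) i h1 h3
      omega
    · have := X.inj 0 (by omega) (i + 1) h3 h4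
      omega
  | succ j ih =>
    intro hj
    obtain ⟨h1, h2⟩ := ih (by omega)
    obtain ⟨h3, h4⟩ := hM.line_step hB hK2 hK hL (by omega) h1
    refine ⟨?_, ?_⟩
    · have e : (j + 1 + 1) % 2 = j % 2 := by omega
      rw [e]; exact h4
    · intro i hi
      rcases Nat.lt_or_ge i j with h5 | h5
      · exact h2 i h5
      · have : i = j := by omega
        rw [this]; exact h3

/-- the last place -/
lemma Cl.last [Finite Y] (hM : Cl X K P Q M) (hB : Base L T P Q) (hK2 : K % 2 = 0)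
    (hK : 6 ≤ K) (hL : X.tf + 2 < L) :
    Inn K L M (X.line X.F) ∧
    ∀ s ≤ 1, ∀ h ≤ 5, ∀ α < L, ∀ β < L, M (zo K s h) α β (X.line X.F) := by
  have hyD : X.line X.F ∈ X.D := X.lineD _ le_rfl
  have hL10 := hB.hL
  obtain ⟨h0, _⟩ := hM.lines hB hK2 hK hL X.F le_rfl
  -- the channel
  have hsl : ∀ z, z < K → ∀ α ≤ 1, M (dz K X.F z + 5) α 0 (X.line X.F) := by
    intro z
    induction z with
    | zero =>
      intro _ α hα
      rw [← zo_dz0 hK]
      exact h0 0 (by omega) α (by omega) 0 (by omega)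
    | succ z ih =>
      intro hz
      have ih' := ih (by omega)
      have hd := dz_mid (j := X.F) (z := z + 1) (by omega) hz
      have hs := dz_succ (j := X.F) (z := z + 1) (by omega) hz
      have hprev : ∀ α ≤ 1, 1 ≤ iv (0 < dz K X.F (z + 1) + 5 ∧
          M (dz K X.F (z + 1) + 5 - 1) α 0 (X.line X.F)) +
          iv (M (dz K X.F (z + 1) + 5 + 1) α 0 (X.line X.F)) := by
        intro α hα
        have h3 := ih' α hα
        rcases hs with ⟨h4, _⟩ | ⟨h4, _⟩
        · have e : z + 1 - 1 = z := by omega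
          rw [e] at h4
          have e2 : dz K X.F z + 5 = dz K X.F (z + 1) + 5 - 1 := by omega
          rw [e2] at h3
          rw [iv_one ⟨(by omega : 0 < dz K X.F (z + 1) + 5), h3⟩]
          omega
        · have e : z + 1 - 1 = z := by omega
          rw [e] at h4
          have e2 : dz K X.F z + 5 = dz K X.F (z + 1) + 5 + 1 := by omega
          rw [e2] at h3
          rw [iv_one h3]
          omega
      have hseed : ∀ v : Fin L × Fin L, v ∉ Λ L →
          M (dz K X.F (z + 1) + 5) v.1.val v.2.val (X.line X.F) := by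
        intro v hv
        apply hM.mid _ (by omega) (by omega)
        exact Or.inr (Or.inl ⟨rfl, hv⟩)
      have v1 : M (dz K X.F (z + 1) + 5) 1 0 (X.line X.F) := by
        apply hM.rule _ (by omega) _ (by omega) _ (by omega)
        rw [iv_one (p := M (dz K X.F (z + 1) + 5) (1 + 1) 0 (X.line X.F))
            (hseed (⟨2, by omega⟩, ⟨0, by omega⟩) (fun h => absurd h.2 (by show ¬ (2 ≤ 1); omega))),
          iv_one (p := M (dz K X.F (z + 1) + 5) 1 (0 + 1) (X.line X.F))
            (hseed (⟨1, by omega⟩, ⟨1, by omega⟩) (fun h => absurd h.1 (by show ¬ (1 = 0); omega)))]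
        have := hprev 1 le_rfl
        omega
      have v0 : M (dz K X.F (z + 1) + 5) 0 0 (X.line X.F) := by
        apply hM.rule _ (by omega) _ (by omega) _ (by omega)
        rw [iv_one (p := M (dz K X.F (z + 1) + 5) (0 + 1) 0 (X.line X.F)) v1,
          iv_one (p := M (dz K X.F (z + 1) + 5) 0 (0 + 1) (X.line X.F))
            (hseed (⟨0, by omega⟩, ⟨1, by omega⟩) (fun h => absurd h.1 (by show ¬ (1 = 0); omega)))]
        have := hprev 0 (by omega)
        omega
      intro α hα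
      interval_cases α
      · exact v0
      · exact v1
  have hex := hM.exit (s := X.F % 2) (by omega) hL10 hyD (by
    intro α hα
    rw [zi_dz hK]
    exact hsl (K - 1) (by omega) α hα)
  have hW : W K L M (X.F % 2) (X.line X.F) := hM.W_of (by omega) hyD hex
  have hW01 : W K L M 0 (X.line X.F) ∧ W K L M 1 (X.line X.F) := by
    rcases Nat.mod_two_eq_zero_or_one X.F with h1 | h1
    · rw [h1] at hW
      have e : (X.F + 1) % 2 = 1 := by omega
      rw [e] at h0
      exact ⟨hW, h0⟩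
    · rw [h1] at hW
      have e : (X.F + 1) % 2 = 0 := by omega
      rw [e] at h0
      exact ⟨h0, hW⟩
  have hWs : ∀ s ≤ 1, W K L M s (X.line X.F) := by
    intro s hs
    interval_cases s
    · exact hW01.1
    · exact hW01.2
  refine ⟨?_, ?_⟩
  · apply Inn_of hK hW01.1 hW01.2
    intro z h1 h2 α hα β hβ
    by_cases hc : β = 0 ∧ α ≤ 1
    · obtain ⟨z', h3, h4, h5⟩ := dz_surj hK X.F h1 h2
      rw [← h5, hc.1]
      exact hsl z' h4 α hc.2
    · exact hM.mid _ h1 h2 (⟨α, hα⟩, ⟨β, hβ⟩) (X.line X.F) (Or.inr (Or.inl ⟨rfl, fun h3 =>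
        hc ⟨h3.1, h3.2⟩⟩))
  · intro s hs h h5 α hα β hβ
    rcases Nat.eq_zero_or_pos h with h1 | h1
    · rw [h1]; exact hWs s hs 0 (by omega) α hα β hβ
    · obtain ⟨j, hj⟩ := star_port (X := X) s hs
      have hpt := pt_tf (port_arc hj)
      exact hM.star hs hL10 hj (by omega) (fun α hα => hWs s hs 1 le_rfl α (by omega) 0 (by omega))
        h h1 h5 β hβ α hα

/-- the sheet -/
lemma Cl.sheet [Finite Y] (hM : Cl X K P Q M) (hL : X.tf + 2 < L)
    (h0 : M (zo K 0 3) X.tf 0 (X.line X.F)) (y : Y) : M (zo K 0 3) X.tf 0 y := by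
  have ht : 7 ≤ X.tf := by unfold tf; omega
  have := X.conn {y | M (zo K 0 3) X.tf 0 y} h0 (by
    intro y hy y' hadj
    show M (zo K 0 3) X.tf 0 y'
    apply hM.ruleN (by omega) (by omega) (by omega) (by omega) (by omega)
    unfold Cn
    rw [iv_one (p := 0 < X.tf ∧ M (zo K 0 3) (X.tf - 1) 0 y')
        ⟨by omega, hM.seed (by omega) (by omega) (by omega) (by omega)
          (Or.inr (Or.inr (Or.inr (Or.inr (Or.inl ⟨rfl, rfl, Or.inl ⟨rfl, by omega⟩⟩)))))⟩,
      iv_one (p := 3 < 5 ∧ M (zo K 0 (3 + 1)) X.tf 0 y')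
        ⟨by omega, hM.seed (by omega) (by omega) (by omega) (by omega)
          (Or.inr (Or.inr (Or.inr (Or.inr (Or.inl ⟨rfl, rfl, Or.inr (Or.inl ⟨rfl, rfl⟩)⟩)))))⟩]
    have := cnt_pos_of GY {y' | M (zo K 0 3) X.tf 0 y'} y' y hadj.symm hy
    omega) y
  exact this

/-- everything except for the two holes -/
def Good (K L tf : ℕ) (M : ℕ → ℕ → ℕ → Y → Prop) (y : Y) : Prop :=
  Inn K L M y ∧ (∀ z < K + 11, ∀ α < L, ∀ β < L, 3 ≤ β → M z α β y) ∧ M (K + 7) tf 0 y

lemma Cl.good_D [Finite Y] (hM : Cl X K P Q M) (hK : 6 ≤ K) (hL : X.tf + 2 < L)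
    (hsh : ∀ y, M (zo K 0 3) X.tf 0 y) (hy : y ∈ X.D) (hi : Inn K L M y) :
    Good K L X.tf M y := by
  have ht : 7 ≤ X.tf := by unfold tf; omega
  refine ⟨hi, ?_, ?_⟩
  · intro z hz α hα β hβ h3
    by_cases h1 : 4 ≤ z ∧ z ≤ K + 6
    · exact hi z h1.1 h1.2 α hα β hβ
    · rcases Nat.lt_or_ge z 4 with h2 | h2
      · have := hM.out (s := 1) (h := 5 - z) (by omega) (by omega) (by omega) hα hβ hy h3
        have e : zo K 1 (5 - z) = z := by unfold zo; rw [if_neg (by omega)]; omega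
        rwa [e] at this
      · have := hM.out (s := 0) (h := z - (K + 5)) (by omega) (by omega) (by omega) hα hβ hy h3
        have e : zo K 0 (z - (K + 5)) = z := by unfold zo; rw [if_pos rfl]; omega
        rwa [e] at this
  · have : M (zo K 0 2) X.tf 0 y := by
      apply hM.ruleN (by omega) (by omega) (by omega) (by omega) (by omega)
      unfold Cn
      rw [iv_one (p := M (zo K 0 2) (X.tf + 1) 0 y)
          (hM.seed (by omega) (by omega) (by omega) (by omega)
            (Or.inr (Or.inr (Or.inr (Or.inr (Or.inl ⟨rfl, rfl, Or.inr (Or.inr ⟨rfl, rfl, hy⟩)⟩)))))),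
        iv_one (p := M (zo K 0 (2 - 1)) X.tf 0 y)
          (hM.wall (by omega) (by omega) (by omega) (by omega) hy (by omega)),
        iv_one (p := 2 < 5 ∧ M (zo K 0 (2 + 1)) X.tf 0 y) ⟨by omega, hsh y⟩]
      omega
    have e : zo K 0 2 = K + 7 := by unfold zo; rw [if_pos rfl]
    rwa [e] at this

lemma Cl.fromUp (hM : Cl X K P Q M) (hz : z < K + 11) (hα : α < L) (hβ : β < L)
    (h2 : 2 ≤ cnt GY {y' | M z α β y'} y) (h : M (z + 1) α β y) : M z α β y := by
  apply hM.rule z hz α hα β hβ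
  rw [iv_one h]
  omega

lemma Cl.fromDn (hM : Cl X K P Q M) (hz : z < K + 11) (hα : α < L) (hβ : β < L)
    (h2 : 2 ≤ cnt GY {y' | M z α β y'} y) (h0 : 0 < z) (h : M (z - 1) α β y) : M z α β y := by
  apply hM.rule z hz α hα β hβ
  rw [iv_one (p := 0 < z ∧ M (z - 1) α β y) ⟨h0, h⟩]
  omega

lemma Cl.fromA (hM : Cl X K P Q M) (hz : z < K + 11) (hα : α < L) (hβ : β < L)
    (h2 : 2 ≤ cnt GY {y' | M z α β y'} y) (h : M z (α + 1) β y) : M z α β y := by
  apply hM.rule z hz α hα β hβ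
  rw [iv_one h]
  omega

lemma Cl.fromA' (hM : Cl X K P Q M) (hz : z < K + 11) (hα : α < L) (hβ : β < L)
    (h2 : 2 ≤ cnt GY {y' | M z α β y'} y) (h0 : 0 < α) (h : M z (α - 1) β y) : M z α β y := by
  apply hM.rule z hz α hα β hβ
  rw [iv_one (p := 0 < α ∧ M z (α - 1) β y) ⟨h0, h⟩]
  omega

lemma Cl.fromB' (hM : Cl X K P Q M) (hz : z < K + 11) (hα : α < L) (hβ : β < L)
    (h2 : 2 ≤ cnt GY {y' | M z α β y'} y) (h0 : 0 < β) (h : M z α (β - 1) y) : M z α β y := by
  apply hM.rule z hz α hα β hβ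
  rw [iv_one (p := 0 < β ∧ M z α (β - 1) y) ⟨h0, h⟩]
  omega

/-- filling a place with two good neighbours -/
lemma Cl.good_two [Finite Y] (hM : Cl X K P Q M) (hK : 6 ≤ K) (hL : X.tf + 2 < L)
    (hsh : ∀ y, M (zo K 0 3) X.tf 0 y) (h2 : 2 ≤ cnt GY {y' | Good K L X.tf M y'} y) :
    Good K L X.tf M y := by
  have ht : 7 ≤ X.tf := by unfold tf; omega
  have e3 : zo K 0 3 = K + 8 := by unfold zo; rw [if_pos rfl]
  have c1 : ∀ z α β, 4 ≤ z → z ≤ K + 6 → α < L → β < L → 2 ≤ cnt GY {y' | M z α β y'} y :=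
    fun z α β h4 h5 hα hβ => h2.trans (cnt_mono GY (fun y' hy' => hy'.1 z h4 h5 α hα β hβ) y)
  have c2 : ∀ z α β, z < K + 11 → α < L → β < L → 3 ≤ β → 2 ≤ cnt GY {y' | M z α β y'} y :=
    fun z α β h4 hα hβ h5 => h2.trans (cnt_mono GY (fun y' hy' => hy'.2.1 z h4 α hα β hβ h5) y)
  have s0 : M (K + 7) X.tf 0 y := by
    apply hM.fromUp (by omega) (by omega) (by omega)
      (h2.trans (cnt_mono GY (fun y' hy' => hy'.2.2) y))
    have := hsh y
    rwa [e3] at this
  have s1 : M (K + 6) X.tf 0 y :=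
    hM.fromUp (by omega) (by omega) (by omega) (c1 _ _ _ (by omega) (by omega) (by omega) (by omega))
      s0
  -- the row
  have r1 : ∀ i, X.tf + i < L → M (K + 6) (X.tf + i) 0 y := by
    intro i
    induction i with
    | zero => intro _; exact s1
    | succ i ih =>
      intro hi
      exact hM.fromA' (by omega) hi (by omega)
        (c1 _ _ _ (by omega) (by omega) hi (by omega)) (by omega) (ih (by omega))
  have r2 : ∀ i, i ≤ X.tf → M (K + 6) (X.tf - i) 0 y := by
    intro i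
    induction i with
    | zero => intro _; exact s1
    | succ i ih =>
      intro hi
      apply hM.fromA (by omega) (by omega) (by omega)
        (c1 _ _ _ (by omega) (by omega) (by omega) (by omega))
      have e : X.tf - (i + 1) + 1 = X.tf - i := by omega
      rw [e]; exact ih (by omega)
  have r : ∀ α < L, M (K + 6) α 0 y := by
    intro α hα
    rcases Nat.lt_or_ge α X.tf with h3 | h3
    · have := r2 (X.tf - α) (by omega)
      have e : X.tf - (X.tf - α) = α := by omega
      rwa [e] at this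
    · have := r1 (α - X.tf) (by omega)
      have e : X.tf + (α - X.tf) = α := by omega
      rwa [e] at this
  have pl : ∀ β < L, ∀ α < L, M (K + 6) α β y := by
    intro β
    induction β with
    | zero => intro _; exact r
    | succ β ih =>
      intro hβ α hα
      exact hM.fromB' (by omega) hα hβ (c1 _ _ _ (by omega) (by omega) hα hβ) (by omega)
        (ih (by omega) α hα)
  have dn : ∀ i, i ≤ K + 2 → ∀ α < L, ∀ β < L, M (K + 6 - i) α β y := by
    intro i
    induction i with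
    | zero => intro _ α hα β hβ; exact pl β hβ α hα
    | succ i ih =>
      intro hi α hα β hβ
      apply hM.fromUp (by omega) hα hβ (c1 _ _ _ (by omega) (by omega) hα hβ)
      have e : K + 6 - (i + 1) + 1 = K + 6 - i := by omega
      rw [e]; exact ih (by omega) α hα β hβ
  have inn : Inn K L M y := by
    intro z h3 h4 α hα β hβ
    have := dn (K + 6 - z) (by omega) α hα β hβ
    have e : K + 6 - (K + 6 - z) = z := by omega
    rwa [e] at this
  refine ⟨inn, ?_, s0⟩
  have u : ∀ i, i ≤ 4 → ∀ α < L, ∀ β < L, 3 ≤ β → M (K + 6 + i) α β y := by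
    intro i
    induction i with
    | zero => intro _ α hα β hβ _; exact inn _ (by omega) le_rfl α hα β hβ
    | succ i ih =>
      intro hi α hα β hβ h3
      exact hM.fromDn (by omega) hα hβ (c2 _ _ _ (by omega) hα hβ h3) (by omega)
        (ih (by omega) α hα β hβ h3)
  have d : ∀ i, i ≤ 4 → ∀ α < L, ∀ β < L, 3 ≤ β → M (4 - i) α β y := by
    intro i
    induction i with
    | zero => intro _ α hα β hβ _; exact inn _ (by omega) (by omega) α hα β hβ
    | succ i ih =>
      intro hi α hα β hβ h3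
      apply hM.fromUp (by omega) hα hβ (c2 _ _ _ (by omega) hα hβ h3)
      have e : 4 - (i + 1) + 1 = 4 - i := by omega
      rw [e]; exact ih (by omega) α hα β hβ h3
  intro z hz α hα β hβ h3
  rcases Nat.lt_or_ge z 4 with h4 | h4
  · have := d (4 - z) (by omega) α hα β hβ h3
    have e : 4 - (4 - z) = z := by omega
    rwa [e] at this
  · rcases Nat.lt_or_ge (K + 6) z with h5 | h5
    · have := u (z - (K + 6)) (by omega) α hα β hβ h3
      have e : K + 6 + (z - (K + 6)) = z := by omega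
      rwa [e] at this
    · exact inn z h4 h5 α hα β hβ

/-- all places are good -/
lemma Cl.good_all [Finite Y] (hM : Cl X K P Q M) (hB : Base L T P Q) (hK2 : K % 2 = 0)
    (hK : 6 ≤ K) (hL : X.tf + 2 < L) (y : Y) : Good K L X.tf M y := by
  obtain ⟨i0, star⟩ := hM.last hB hK2 hK hL
  have hsh := hM.sheet hL (star 0 (by omega) 3 (by omega) X.tf (by omega) 0 (by omega))
  have hD : ∀ y ∈ X.D, Good K L X.tf M y := by
    intro y hy
    apply hM.good_D hK hL hsh hy
    by_cases h1 : ∃ j ≤ X.F, y = X.line j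
    · obtain ⟨j, hj, rfl⟩ := h1
      rcases Nat.lt_or_ge j X.F with h2 | h2
      · exact (hM.lines hB hK2 hK hL X.F le_rfl).2 j h2
      · have : j = X.F := by omega
        rw [this]; exact i0
    · have h2 : ∀ j ≤ X.F, y ≠ X.line j := fun j hj h => h1 ⟨j, hj, h⟩
      have hport : ∀ s j, ¬ X.port s y j := by
        rintro s j ⟨h3, h4, h5 | ⟨h5, h6⟩⟩
        · exact h2 j h3 h5
        · exact h2 _ h5 h6
      apply Inn_of hK (hM.W_noport (by omega) hy (hport 0)) (hM.W_noport le_rfl hy (hport 1))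
      intro z h3 h4 α hα β hβ
      exact hM.mid _ h3 h4 (⟨α, hα⟩, ⟨β, hβ⟩) y (Or.inl ⟨hy, h2⟩)
  have main : ∀ n, ∀ y, X.rk y < n → Good K L X.tf M y := by
    intro n
    induction n with
    | zero => intro y h; omega
    | succ n ih =>
      intro y hn
      by_cases hy : y ∈ X.D
      · exact hD y hy
      · apply hM.good_two hK hL hsh
        refine (X.rank y hy).trans (cnt_mono GY ?_ y)
        rintro y' (h1 | h1)
        · exact hD y' h1
        · exact ih y' (by omega)
  exact main _ y (Nat.lt_succ_self _)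

/-- the two holes -/
lemma Cl.holes [Finite Y] (hM : Cl X K P Q M) (hB : Base L T P Q) (hK2 : K % 2 = 0)
    (hK : 6 ≤ K) (hL : X.tf + 2 < L) (hs : s ≤ 1) :
    ∀ h, 1 ≤ h → h ≤ 5 → ∀ β < L, ∀ α < L, ∀ y, M (zo K s h) α β y := by
  obtain ⟨i0, star⟩ := hM.last hB hK2 hK hL
  have hgood := hM.good_all hB hK2 hK hL
  have hL10 := hB.hL
  intro h
  induction h with
  | zero => intro h1; omega
  | succ h ih =>
    intro _ h5
    rcases Nat.eq_zero_or_pos h with h0 | h0
    · intro β hβ α hα y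
      rw [h0]
      rcases Nat.eq_zero_or_pos s with hs0 | hs0
      · have e : zo K s (0 + 1) = K + 6 := by unfold zo; rw [if_pos hs0]
        rw [e]; exact (hgood y).1 _ (by omega) le_rfl α hα β hβ
      · have e : zo K s (0 + 1) = 4 := by unfold zo; rw [if_neg (by omega)]
        rw [e]; exact (hgood y).1 _ (by omega) (by omega) α hα β hβ
    · have ihd := ih h0 (by omega)
      have hzo : zo K s (h + 1) < K + 11 := by unfold zo; split_ifs <;> omega
      have r3 : ∀ β, 3 ≤ β → β < L → ∀ α < L, ∀ y, M (zo K s (h + 1)) α β y :=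
        fun β h3 hβ α hα y => (hgood y).2.1 _ hzo α hα β hβ h3
      have step : ∀ β, β + 1 < L → (∀ α < L, ∀ y, M (zo K s (h + 1)) α (β + 1) y) →
          ∀ α < L, ∀ y, M (zo K s (h + 1)) α β y := by
        intro β hβ hup α hα
        apply X.conn {y | M (zo K s (h + 1)) α β y} (star s hs (h + 1) h5 α hα β (by omega))
        intro y hy y' hadj
        show M (zo K s (h + 1)) α β y'
        apply hM.ruleN hs (by omega) h5 hα (by omega)
        unfold Cn
        rw [iv_one (p := M (zo K s (h + 1)) α (β + 1) y') (hup α hα y'),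
          iv_one (p := M (zo K s (h + 1 - 1)) α β y') (ihd β (by omega) α hα y')]
        have := cnt_pos_of GY {y' | M (zo K s (h + 1)) α β y'} y' y hadj.symm hy
        omega
      have r2 := step 2 (by omega) (r3 3 le_rfl (by omega))
      have r1 := step 1 (by omega) r2
      have r0 := step 0 (by omega) r1
      intro β hβ α hα y
      rcases Nat.lt_or_ge 2 β with h3 | h3
      · exact r3 β h3 hβ α hα y
      · interval_cases β
        · exact r0 α hα y
        · exact r1 α hα y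
        · exact r2 α hα y

lemma Cl.all [Finite Y] (hM : Cl X K P Q M) (hB : Base L T P Q) (hK2 : K % 2 = 0)
    (hK : 6 ≤ K) (hL : X.tf + 2 < L) :
    ∀ z < K + 11, ∀ α < L, ∀ β < L, ∀ y, M z α β y := by
  intro z hz α hα β hβ y
  rcases Nat.lt_or_ge z 4 with h4 | h4
  · have := hM.holes hB hK2 hK hL (s := 1) le_rfl (5 - z) (by omega) (by omega) β hβ α hα y
    have e : zo K 1 (5 - z) = z := by unfold zo; rw [if_neg (by omega)]; omega
    rwa [e] at this
  · rcases Nat.lt_or_ge (K + 6) z with h5 | h5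
    · have := hM.holes hB hK2 hK hL (s := 0) (by omega) (z - (K + 5)) (by omega) (by omega)
        β hβ α hα y
      have e : zo K 0 (z - (K + 5)) = z := by unfold zo; rw [if_pos rfl]; omega
      rwa [e] at this
    · exact (hM.good_all hB hK2 hK hL y).1 z h4 h5 α hα β hβ

/-! ### sets -/

/-- coordinates of a set -/
def co (S : Set (((Fin L × Fin L) × Fin (K + 11)) × Y)) (z α β : ℕ) (y : Y) : Prop :=
  ∃ (hα : α < L) (hβ : β < L) (hz : z < K + 11), (((⟨α, hα⟩, ⟨β, hβ⟩), ⟨z, hz⟩), y) ∈ S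

lemma co_iff (S : Set (((Fin L × Fin L) × Fin (K + 11)) × Y)) (v : Fin L × Fin L)
    (z : Fin (K + 11)) (y : Y) : co S z.val v.1.val v.2.val y ↔ ((v, z), y) ∈ S :=
  ⟨fun ⟨_, _, _, h⟩ => h, fun h => ⟨v.1.isLt, v.2.isLt, z.isLt, h⟩⟩

lemma cnt_co [Finite Y] (S : Set (((Fin L × Fin L) × Fin (K + 11)) × Y)) (v : Fin L × Fin L)
    (z : Fin (K + 11)) (y : Y) :
    iv (0 < v.1.val ∧ co S z.val (v.1.val - 1) v.2.val y) +
      iv (co S z.val (v.1.val + 1) v.2.val y) +
      (iv (0 < v.2.val ∧ co S z.val v.1.val (v.2.val - 1) y) +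
        iv (co S z.val v.1.val (v.2.val + 1) y)) +
      (iv (0 < z.val ∧ co S (z.val - 1) v.1.val v.2.val y) +
        iv (co S (z.val + 1) v.1.val v.2.val y)) +
      cnt GY {y' | co S z.val v.1.val v.2.val y'} y ≤
    cnt ((Sq L □ pathGraph (K + 11)) □ GY) S ((v, z), y) := by
  rw [cnt_boxProd]
  have h1 : {x : (Fin L × Fin L) × Fin (K + 11) | (x, y) ∈ S} =
      lay (K + 11) (fun z => {w | co S z w.1.val w.2.val y}) := by
    ext ⟨w, z'⟩
    exact (co_iff S w z' y).symm
  have h2 : {y' | ((v, z), y') ∈ S} = {y' | co S z.val v.1.val v.2.val y'} := by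
    ext y'
    exact (co_iff S v z y').symm
  rw [h1, h2, Pool.Agent.Helper70.Duo.cnt_lay']
  have h3 : iv (0 < v.1.val ∧ co S z.val (v.1.val - 1) v.2.val y) +
      iv (co S z.val (v.1.val + 1) v.2.val y) +
      (iv (0 < v.2.val ∧ co S z.val v.1.val (v.2.val - 1) y) +
        iv (co S z.val v.1.val (v.2.val + 1) y)) ≤
      cnt (Sq L) {w | co S z.val w.1.val w.2.val y} v := by
    rw [show v = (v.1, v.2) from rfl, cnt_sqq L (fun a b => co S z.val a b y) v.1 v.2]
    refine Nat.add_le_add (Nat.add_le_add le_rfl (iv_mono ?_)) (Nat.add_le_add le_rfl (iv_mono ?_))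
    · rintro h; exact ⟨h.1, h⟩
    · rintro h; exact ⟨h.2.1, h⟩
  have h4 : iv (co S (z.val + 1) v.1.val v.2.val y) ≤
      iv (z.val + 1 < K + 11 ∧ v ∈ (fun z => {w : Fin L × Fin L | co S z w.1.val w.2.val y})
        (z.val + 1)) := iv_mono (fun h => ⟨h.2.2.1, h⟩)
  have h5 : iv (0 < z.val ∧ co S (z.val - 1) v.1.val v.2.val y) ≤
      iv (0 < z.val ∧ v ∈ (fun z => {w : Fin L × Fin L | co S z w.1.val w.2.val y})
        (z.val - 1)) := iv_mono (fun h => h)
  have h6 := Nat.add_le_add (Nat.add_le_add h3 (Nat.add_le_add h5 h4))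
    (le_refl (cnt GY {y' | co S z.val v.1.val v.2.val y'} y))
  exact h6

theorem cl_of [Finite Y] {S : Set (((Fin L × Fin L) × Fin (K + 11)) × Y)}
    (hS : X.seeds K P Q ⊆ S)
    (hcl : Closed ((Sq L □ pathGraph (K + 11)) □ GY) 3 S) : Cl X K P Q (co S) := by
  refine ⟨?_, ?_, ?_, ?_⟩
  · intro z hz α hα β hβ y hc
    have h1 := cnt_co (GY := GY) S (⟨α, hα⟩, ⟨β, hβ⟩) ⟨z, hz⟩ y
    exact ⟨hα, hβ, hz, hcl _ (hc.trans h1)⟩
  · intro z hz α hα β hβ y hm
    exact ⟨hα, hβ, by omega, hS (Or.inl ⟨hz, hm⟩)⟩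
  · intro z hz hz2 α hα β hβ y hm
    exact ⟨hα, hβ, hz2, hS (Or.inr (Or.inr ⟨hz, hm⟩))⟩
  · intro z hz hz2 v y hm
    exact ⟨v.1.isLt, v.2.isLt, by omega, hS (Or.inr (Or.inl ⟨hz, hz2, hm⟩))⟩

theorem perc [Finite Y] (hB : Base L T P Q) (hK2 : K % 2 = 0) (hK : 6 ≤ K)
    (hL : X.tf + 2 < L) : Perc ((Sq L □ pathGraph (K + 11)) □ GY) 3 (X.seeds K P Q) := by
  rintro S hS hcl ⟨⟨v, z⟩, y⟩
  have := (cl_of hS hcl).all hB hK2 hK hL z.val z.isLt v.1.val v.1.isLt v.2.val v.2.isLt y
  exact (co_iff S v z y).1 this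

theorem slow [Finite Y] (X : YD GY) (hB : Base L T P Q) (hK2 : K % 2 = 0) (hK : 6 ≤ K)
    (hL : X.tf + 2 < L) :
    Slow ((Sq L □ pathGraph (K + 11)) □ GY) 3 (X.F * dur T K - 1) :=
  ⟨X.seeds K P Q, perc hB hK2 hK hL, slow_proc hB hK2 hK⟩

end YD

end Pool.Agent.Helper70.Thr3
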