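import Mathlib
import Pool.Agent.Helper70.Thr3.BaseInst
import Pool.Agent.Helper70.Thr3.Conf3
import Pool.Agent.Helper70.PercMono
import Pool.Agent.Helper70.Thr3.Fill2

/-!
# Threshold three: assembly
-/

set_option linter.unusedSectionVars false
set_option linter.unusedVariables false

namespace Pool.Agent.Helper70.Thr3

open Set SimpleGraph Pool.Agent.Helper19.Perco Pool.Agent.Helper70.Duo

/-- Bernoulli -/
lemma pow_bern (x c : ℕ) : ∀ k, (x + c) ^ (k + 1) ≤ x ^ (k + 1) + (k + 1) * c * (x + c) ^ k := by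
  intro k
  induction k with
  | zero => simp
  | succ k ih =>
    have h1 : x ^ (k + 1) ≤ (x + c) ^ (k + 1) := Nat.pow_le_pow_left (by omega) _
    calc (x + c) ^ (k + 1 + 1) = (x + c) * (x + c) ^ (k + 1) := by ring
      _ ≤ (x + c) * (x ^ (k + 1) + (k + 1) * c * (x + c) ^ k) := Nat.mul_le_mul_left _ ih
      _ = x ^ (k + 1 + 1) + c * x ^ (k + 1) + (k + 1) * c * (x + c) ^ (k + 1) := by ring
      _ ≤ x ^ (k + 1 + 1) + c * (x + c) ^ (k + 1) + (k + 1) * c * (x + c) ^ (k + 1) := by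
          have := Nat.mul_le_mul_left c h1
          omega
      _ = x ^ (k + 1 + 1) + (k + 1 + 1) * c * (x + c) ^ (k + 1) := by ring

/-- from the construction to the cube -/
theorem slow_cube {a L K N n T : ℕ} (hN : 1 ≤ N) (hL : 1 ≤ L) (hNn : N ≤ n) (hLn : L ≤ n)
    (hKn : K + 11 ≤ n) (h : Slow ((Sq L □ pathGraph (K + 11)) □ Gd (a + 1) N) 3 T) :
    Slow (Gd (a + 4) n) 3 T := by
  have s1 := slow_grid_mono hN hNn (a + 1) _ (Sq L □ pathGraph (K + 11)) h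
  have e1 : ((Sq L □ pathGraph (K + 11)) □ Gd (a + 1) n) ≃g
      ((Sq L □ Gd (a + 1) n) □ pathGraph (K + 11)) :=
    (boxProdAssoc _ _ _).trans ((boxCongr Iso.refl (boxProdComm _ _)).trans
      (boxProdAssoc _ _ _).symm)
  have s2 := slow_path_mono (n := n) (by omega) hKn (s1.iso e1)
  have e2 : ((Sq L □ Gd (a + 1) n) □ pathGraph n) ≃g (Sq L □ Gd (a + 2) n) :=
    (boxProdAssoc _ _ _).trans (boxCongr Iso.refl (snocIso (a + 1) n))
  have s3 := (s2.iso e2).iso (boxProdComm _ _)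
  have s4 := s3.iso (boxCongr Iso.refl (sqIso' L))
  have s5 := slow_grid_mono (n := n) hL hLn 2 _ _ s4
  exact s5.iso (addIso (a + 2) n 2)

/-- the lower bound for threshold three -/
theorem slow_three (a : ℕ) : ∃ C0 : ℕ, ∀ n, C0 ≤ n → ∃ T, Slow (Gd (a + 4) n) 3 T ∧
    n ^ (a + 4) ≤ (a + 2) * T + C0 * n ^ (a + 3) := by
  obtain ⟨C, hC⟩ := exists_YD a
  obtain ⟨m, hm⟩ : ∃ m, m = a + 2 := ⟨_, rfl⟩
  obtain ⟨c, hc⟩ : ∃ c, c = 4 * m + 16 := ⟨_, rfl⟩
  refine ⟨4 * C + 10 * m + 40 + (a + 4) * c + 3 * m, ?_⟩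
  intro n hn
  have hn0 : 4 * C + 10 * m + 40 ≤ n := by omega
  obtain ⟨x, hx⟩ : ∃ x, n = x + c := ⟨n - c, by omega⟩
  -- parameters
  obtain ⟨L, hL⟩ : ∃ L, L = 2 * (n / 2) := ⟨_, rfl⟩
  obtain ⟨K, hK⟩ : ∃ K, K = 2 * ((n - 11) / 2) := ⟨_, rfl⟩
  obtain ⟨q, hq⟩ : ∃ q, q = (n - 1) / m := ⟨_, rfl⟩
  have hdm := Nat.div_add_mod (n - 1) m
  have hml : (n - 1) % m < m := Nat.mod_lt _ (by omega)
  rw [← hq] at hdm
  have hq7 : 9 ≤ q := by
    rw [hq, Nat.le_div_iff_mul_le (by omega)]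
    omega
  obtain ⟨Q, hQ⟩ : ∃ Q, Q = (q + 1) / 2 := ⟨_, rfl⟩
  have hQ4 : 4 ≤ Q := by omega
  obtain ⟨N, hN⟩ : ∃ N, N = m * (2 * Q - 1) + 1 := ⟨_, rfl⟩
  have hNn : N ≤ n := by
    have h1 : m * (2 * Q - 1) ≤ m * q := Nat.mul_le_mul_left _ (by omega)
    omega
  have hN2 : n ≤ N + 2 * m := by
    have h1 : m * q ≤ m * ((2 * Q - 1) + 1) := Nat.mul_le_mul_left _ (by omega)
    have h2 : m * ((2 * Q - 1) + 1) = m * (2 * Q - 1) + m := by ring
    omega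
  have hW : m * (2 * Q - 3) + 2 * m = m * (2 * Q - 1) := by
    have h1 : 2 * Q - 1 = (2 * Q - 3) + 2 := by omega
    rw [h1]; ring
  obtain ⟨X, hX1, hX2⟩ := hC Q N hQ4 (by rw [hN, hm])
  have hB := base_inst (L := L) (by omega) (by omega)
  have htf : X.tf + 2 < L := by
    unfold YD.tf
    rw [hX1]; omega
  have hslow := X.slow hB (K := K) (by omega) (by omega) htf
  have hslow' := slow_cube (n := n) (by omega) (by omega) hNn (by omega) (by omega) hslow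
  refine ⟨_, hslow', ?_⟩
  -- numerics
  obtain ⟨w', hw'⟩ : ∃ w', w' = w L 4 + L - 3 := ⟨_, rfl⟩
  rw [← hw']
  have hwL : w L 4 = (L - 6) * L := by unfold w; rw [show L - 2 - 4 = L - 6 by omega]
  have hw1 : x * x ≤ w' := by
    have h1 : x * x ≤ (L - 6) * L := Nat.mul_le_mul (by omega) (by omega)
    omega
  have hw2 : w' ≤ n * n := by
    have h1 : (L - 6) * L + 6 * L = L * L := by
      rw [← Nat.add_mul]; congr 1; omega
    have h2 : L * L ≤ n * n := Nat.mul_le_mul (by omega) (by omega)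
    omega
  obtain ⟨D, hD⟩ : ∃ D, D = YD.dur w' K := ⟨_, rfl⟩
  rw [← hD]
  have hD0 : D = (K - 4) * w' + 1 := by rw [hD]; rfl
  have hD1 : x ^ 3 ≤ D := by
    have h1 : x * (x * x) ≤ (K - 4) * w' := Nat.mul_le_mul (by omega) hw1
    have h2 : x ^ 3 = x * (x * x) := by ring
    omega
  have hD2 : D + 1 ≤ 3 * n ^ 3 := by
    have h1 : (K - 4) * w' ≤ n * (n * n) := Nat.mul_le_mul (by omega) hw2
    have h2 : n ^ 3 = n * (n * n) := by ring
    have h3 : 1 ≤ n ^ 3 := Nat.one_le_pow _ _ (by omega)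
    omega
  have hF1 : x ^ (a + 1) ≤ m * (X.F + 1) := by
    rw [hX2]
    calc x ^ (a + 1) = x ^ a * x := by ring
      _ ≤ N ^ a * (m * (2 * Q - 3)) := Nat.mul_le_mul (Nat.pow_le_pow_left (by omega) _) (by omega)
      _ = m * (N ^ a * (2 * Q - 3)) := by ring
  have hFD : x ^ (a + 4) ≤ m * (X.F + 1) * D := by
    calc x ^ (a + 4) = x ^ (a + 1) * x ^ 3 := by ring
      _ ≤ _ := Nat.mul_le_mul hF1 hD1
  have hFD1 : 1 ≤ X.F * D := by
    have h1 := X.hF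
    calc 1 = 1 * 1 := rfl
      _ ≤ _ := Nat.mul_le_mul h1 (by omega)
  have hexp : m * (X.F + 1) * D = m * (X.F * D - 1) + m * (D + 1) := by
    obtain ⟨t, ht⟩ : ∃ t, X.F * D = t + 1 := ⟨X.F * D - 1, by omega⟩
    have h1 : m * (X.F + 1) * D = m * (X.F * D) + m * D := by ring
    rw [h1, ht, Nat.add_sub_cancel]
    ring
  have hb := pow_bern x c (a + 3)
  rw [← hx] at hb
  have h3 : m * (D + 1) ≤ 3 * m * n ^ (a + 3) := by
    have h4 : n ^ 3 ≤ n ^ (a + 3) := Nat.pow_le_pow_right (by omega) (by omega)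
    calc m * (D + 1) ≤ m * (3 * n ^ 3) := Nat.mul_le_mul_left _ hD2
      _ ≤ m * (3 * n ^ (a + 3)) := by gcongr
      _ = _ := by ring
  rw [← hm]
  calc n ^ (a + 4) ≤ x ^ (a + 4) + (a + 3 + 1) * c * n ^ (a + 3) := hb
    _ ≤ (m * (X.F * D - 1) + m * (D + 1)) + (a + 3 + 1) * c * n ^ (a + 3) := by
        rw [← hexp]; exact Nat.add_le_add_right hFD _
    _ ≤ (m * (X.F * D - 1) + 3 * m * n ^ (a + 3)) + (a + 3 + 1) * c * n ^ (a + 3) := by
        exact Nat.add_le_add_right (Nat.add_le_add_left h3 _) _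
    _ = m * (X.F * D - 1) + ((a + 4) * c + 3 * m) * n ^ (a + 3) := by ring
    _ ≤ m * (X.F * D - 1) + (4 * C + 10 * m + 40 + (a + 4) * c + 3 * m) * n ^ (a + 3) := by
        gcongr
        omega

end Pool.Agent.Helper70.Thr3
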